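import Mathlib

/-!
# The translation group on `C₀(ℝ)` and the square-integral resolvent condition

`T(t) f = f(· - t)` is an isometric group on `C₀(ℝ, ℂ)`.  For `f(r) = 1/(1+r²)` the resolvent
`R(a+is) f` has norm at most `K/(1+|s|)`, uniformly in `a > 0`; so
`a ∫ ‖R(a+is)f‖² ds → 0` although `‖T(t)f‖ = 1` for all `t`.
-/

set_option autoImplicit false

open Filter Topology MeasureTheory Set
open scoped ZeroAtInfty

namespace Pool.Agent.X315.Transl

/-- translation by `t` -/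
noncomputable def tr (t : ℝ) (f : C₀(ℝ, ℂ)) : C₀(ℝ, ℂ) :=
  f.comp (Homeomorph.subRight t).toCocompactMap

theorem tr_apply (t : ℝ) (f : C₀(ℝ, ℂ)) (r : ℝ) : tr t f r = f (r - t) := rfl

theorem norm_le_of {f : C₀(ℝ, ℂ)} {C : ℝ} (hC : 0 ≤ C) (h : ∀ r, ‖f r‖ ≤ C) : ‖f‖ ≤ C := by
  rw [← ZeroAtInftyContinuousMap.norm_toBCF_eq_norm]
  exact (BoundedContinuousFunction.norm_le hC).2 h

theorem coe_le (f : C₀(ℝ, ℂ)) (r : ℝ) : ‖f r‖ ≤ ‖f‖ := by
  rw [← ZeroAtInftyContinuousMap.norm_toBCF_eq_norm]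
  exact f.toBCF.norm_coe_le_norm r

/-- the translation operator -/
noncomputable def T (t : ℝ) : C₀(ℝ, ℂ) →L[ℂ] C₀(ℝ, ℂ) :=
  LinearMap.mkContinuous
    { toFun := tr t
      map_add' := fun f g => by ext r; rfl
      map_smul' := fun c f => by ext r; rfl } 1
    (fun f => norm_le_of (by positivity) fun r => by
      rw [one_mul]; exact coe_le f _)

theorem T_apply (t : ℝ) (f : C₀(ℝ, ℂ)) (r : ℝ) : T t f r = f (r - t) := rfl

theorem T_zero : T 0 = 1 := by
  ext f r
  rw [T_apply, sub_zero]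
  rfl

theorem T_add (s t : ℝ) : T (s + t) = T s * T t := by
  ext f r
  rw [T_apply]
  change _ = T s (T t f) r
  rw [T_apply, T_apply]
  congr 1; ring

theorem T_norm (t : ℝ) : ‖T t‖ ≤ 1 := LinearMap.mkContinuous_norm_le _ zero_le_one _

theorem T_cont (f : C₀(ℝ, ℂ)) : Continuous fun t : ℝ => T t f := by
  rw [Metric.continuous_iff]
  intro t₀ ε hε
  have hu : UniformContinuous f := ZeroAtInftyContinuousMap.uniformContinuous f
  obtain ⟨δ, hδ, h⟩ := Metric.uniformContinuous_iff.1 hu (ε / 2) (by positivity)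
  refine ⟨δ, hδ, fun t ht => ?_⟩
  rw [dist_eq_norm]
  refine lt_of_le_of_lt (norm_le_of (C := ε / 2) (by positivity) fun r => ?_) (by linarith)
  have h1 : (T t f - T t₀ f) r = f (r - t) - f (r - t₀) := rfl
  rw [h1, ← dist_eq_norm]
  refine (h ?_).le
  rw [Real.dist_eq] at ht ⊢
  rw [show r - t - (r - t₀) = -(t - t₀) by ring, abs_neg]
  exact ht

/-- the vector `1/(1+r²)` -/
noncomputable def f₀ : C₀(ℝ, ℂ) where
  toFun r := (((1 + r ^ 2)⁻¹ : ℝ) : ℂ)
  continuous_toFun := by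
    refine Complex.continuous_ofReal.comp (Continuous.inv₀ (by fun_prop) fun r => ?_)
    positivity
  zero_at_infty' := by
    have h1 : Tendsto (fun r : ℝ => 1 + r ^ 2) (cocompact ℝ) atTop := by
      refine tendsto_atTop_add_const_left _ _ ?_
      have h2 : Tendsto (fun r : ℝ => ‖r‖ ^ 2) (cocompact ℝ) atTop :=
        (tendsto_pow_atTop two_ne_zero).comp tendsto_norm_cocompact_atTop
      refine h2.congr fun r => ?_
      rw [Real.norm_eq_abs, sq_abs]
    have h3 := (Complex.continuous_ofReal.tendsto 0).comp (tendsto_inv_atTop_zero.comp h1)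
    rw [Complex.ofReal_zero] at h3
    exact h3

theorem f₀_apply (r : ℝ) : f₀ r = (((1 + r ^ 2)⁻¹ : ℝ) : ℂ) := rfl

/-- evaluation at `r` -/
noncomputable def ev (r : ℝ) : C₀(ℝ, ℂ) →L[ℂ] ℂ :=
  LinearMap.mkContinuous
    { toFun := fun f => f r
      map_add' := fun f g => rfl
      map_smul' := fun c f => rfl } 1
    (fun f => by rw [one_mul]; exact coe_le f r)

theorem ev_apply (r : ℝ) (f : C₀(ℝ, ℂ)) : ev r f = f r := rfl

/-- the kernel -/
noncomputable def g (u : ℝ) : ℝ := (1 + u ^ 2)⁻¹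

theorem g_nonneg (u : ℝ) : 0 ≤ g u := by unfold g; positivity

theorem g_le_one (u : ℝ) : g u ≤ 1 := by
  unfold g
  exact inv_le_one_of_one_le₀ (by nlinarith [sq_nonneg u])

theorem g_int : Integrable g := integrable_inv_one_add_sq

theorem g_int_shift (r : ℝ) : Integrable fun t : ℝ => g (r - t) := g_int.comp_sub_left r

theorem g_integral_shift (r : ℝ) : ∫ t in Ioi (0 : ℝ), g (r - t) ≤ Real.pi := by
  have h1 : ∫ t in Ioi (0 : ℝ), g (r - t) ≤ ∫ t : ℝ, g (r - t) :=
    setIntegral_le_integral (g_int_shift r) (Eventually.of_forall fun t => g_nonneg _)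
  refine h1.trans (le_of_eq ?_)
  rw [integral_sub_left_eq_self g volume r]
  exact integral_univ_inv_one_add_sq

/-- the exponential factor -/
noncomputable def e (a s t : ℝ) : ℂ := Complex.exp (-(((a : ℂ) + (s : ℂ) * Complex.I) * (t : ℂ)))

theorem norm_e (a s t : ℝ) : ‖e a s t‖ = Real.exp (-(a * t)) := by
  unfold e
  rw [Complex.norm_exp]
  congr 1
  simp

theorem norm_e_le {a s t : ℝ} (ha : 0 ≤ a) (ht : 0 ≤ t) : ‖e a s t‖ ≤ 1 := by
  rw [norm_e]
  exact Real.exp_le_one_iff.2 (by nlinarith)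

theorem e_cont (a s : ℝ) : Continuous (e a s) := by unfold e; fun_prop

theorem e_deriv (a s t : ℝ) :
    HasDerivAt (e a s) (-((a : ℂ) + (s : ℂ) * Complex.I) * e a s t) t := by
  have h0 : HasDerivAt (fun t : ℝ => -(((a : ℂ) + (s : ℂ) * Complex.I) * (t : ℂ)))
      (-((a : ℂ) + (s : ℂ) * Complex.I)) t := by
    have := ((Complex.ofRealCLM.hasDerivAt (x := t)).const_mul ((a : ℂ) + (s : ℂ) * Complex.I)).fun_neg
    simpa using this
  exact h0.cexp.congr_deriv (by unfold e; ring)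

theorem g_deriv (u : ℝ) : HasDerivAt g (-(2 * u) * (g u) ^ 2) u := by
  have h0 : HasDerivAt (fun u : ℝ => 1 + u ^ 2) (2 * u) u := by
    simpa using ((hasDerivAt_id u).pow 2).const_add 1
  have h1 := h0.fun_inv (by positivity)
  refine h1.congr_deriv ?_
  unfold g
  have : (1 + u ^ 2 : ℝ) ≠ 0 := by positivity
  field_simp

theorem g_deriv_bound (u : ℝ) : |(-(2 * u) * (g u) ^ 2)| ≤ g u := by
  have h1 : |2 * u| ≤ 1 + u ^ 2 := by
    rw [abs_le]; constructor <;> nlinarith [sq_nonneg (u - 1), sq_nonneg (u + 1)]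
  have h2 : (1 + u ^ 2) * g u = 1 := by
    unfold g
    exact mul_inv_cancel₀ (by positivity)
  rw [abs_mul, abs_neg, abs_of_nonneg (sq_nonneg (g u))]
  calc |2 * u| * g u ^ 2 ≤ (1 + u ^ 2) * g u ^ 2 :=
        mul_le_mul_of_nonneg_right h1 (sq_nonneg _)
    _ = ((1 + u ^ 2) * g u) * g u := by ring
    _ = g u := by rw [h2, one_mul]

/-- the scalar integral `∫_0^∞ e^{-(a+is)t} f₀(r-t) dt` -/
noncomputable def J (a s r : ℝ) : ℂ := ∫ t in Ioi (0 : ℝ), e a s t * (g (r - t) : ℂ)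

theorem prod_bound {a s t : ℝ} (ha : 0 ≤ a) (ht : 0 < t) (r : ℝ) :
    ‖e a s t * (g (r - t) : ℂ)‖ ≤ g (r - t) := by
  rw [norm_mul, Complex.norm_real, Real.norm_eq_abs, abs_of_nonneg (g_nonneg _)]
  exact mul_le_of_le_one_left (g_nonneg _) (norm_e_le ha ht.le)

theorem g_cont : Continuous g := by
  unfold g
  exact Continuous.inv₀ (by fun_prop) fun r => by positivity

theorem prod_int {a : ℝ} (ha : 0 ≤ a) (s r : ℝ) :
    IntegrableOn (fun t : ℝ => e a s t * (g (r - t) : ℂ)) (Ioi 0) := by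
  refine Integrable.mono' (g_int_shift r).integrableOn ?_ ?_
  · refine Continuous.aestronglyMeasurable ?_
    exact (e_cont a s).mul (Complex.continuous_ofReal.comp (g_cont.comp (by fun_prop)))
  · filter_upwards [self_mem_ae_restrict measurableSet_Ioi] with t ht
    exact prod_bound ha ht r

theorem J_bound1 {a : ℝ} (ha : 0 ≤ a) (s r : ℝ) : ‖J a s r‖ ≤ Real.pi := by
  unfold J
  refine (norm_integral_le_of_norm_le (g_int_shift r).integrableOn ?_).trans (g_integral_shift r)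
  filter_upwards [self_mem_ae_restrict measurableSet_Ioi] with t ht
  exact prod_bound ha ht r

theorem J_bound2 {a : ℝ} (ha : 0 < a) (s r : ℝ) :
    ‖((a : ℂ) + (s : ℂ) * Complex.I) * J a s r‖ ≤ 1 + Real.pi := by
  set lam : ℂ := (a : ℂ) + (s : ℂ) * Complex.I with hlam
  -- the function and its derivative
  have hgd : ∀ t : ℝ, HasDerivAt (fun t : ℝ => ((g (r - t) : ℝ) : ℂ))
      (((2 * (r - t)) * (g (r - t)) ^ 2 : ℝ) : ℂ) t := by
    intro t
    have h0 : HasDerivAt (fun t : ℝ => r - t) (-1) t := by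
      simpa using (hasDerivAt_id t).const_sub r
    have h1 := (g_deriv (r - t)).comp t h0
    have h2 : HasDerivAt (fun t : ℝ => g (r - t)) ((2 * (r - t)) * (g (r - t)) ^ 2) t := by
      exact h1.congr_deriv (by ring)
    exact h2.ofReal_comp
  have hd : ∀ t : ℝ, HasDerivAt (fun t : ℝ => e a s t * ((g (r - t) : ℝ) : ℂ))
      (-lam * (e a s t * (g (r - t) : ℂ)) +
        e a s t * (((2 * (r - t)) * (g (r - t)) ^ 2 : ℝ) : ℂ)) t := by
    intro t
    have := (e_deriv a s t).fun_mul (hgd t)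
    refine this.congr_deriv ?_
    rw [← hlam]
    ring
  have hb : ∀ t : ℝ, 0 < t → ‖e a s t * (((2 * (r - t)) * (g (r - t)) ^ 2 : ℝ) : ℂ)‖ ≤
      g (r - t) := by
    intro t ht
    rw [norm_mul, Complex.norm_real, Real.norm_eq_abs]
    have h3 := g_deriv_bound (r - t)
    have h4 : |2 * (r - t) * g (r - t) ^ 2| = |-(2 * (r - t)) * g (r - t) ^ 2| := by
      rw [neg_mul, abs_neg]
    rw [h4]
    calc ‖e a s t‖ * |-(2 * (r - t)) * g (r - t) ^ 2| ≤ 1 * g (r - t) :=
          mul_le_mul (norm_e_le ha.le ht.le) h3 (abs_nonneg _) zero_le_one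
      _ = g (r - t) := one_mul _
  have hint2 : IntegrableOn (fun t : ℝ =>
      e a s t * (((2 * (r - t)) * (g (r - t)) ^ 2 : ℝ) : ℂ)) (Ioi 0) := by
    refine Integrable.mono' (g_int_shift r).integrableOn ?_ ?_
    · refine Continuous.aestronglyMeasurable ?_
      refine (e_cont a s).mul (Complex.continuous_ofReal.comp ?_)
      exact (by fun_prop : Continuous fun t : ℝ => 2 * (r - t)).mul
        ((g_cont.comp (by fun_prop : Continuous fun t : ℝ => r - t)).pow 2)
    · filter_upwards [self_mem_ae_restrict measurableSet_Ioi] with t ht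
      exact hb t ht
  have hint1 : IntegrableOn (fun t : ℝ => -lam * (e a s t * (g (r - t) : ℂ))) (Ioi 0) :=
    (prod_int ha.le s r).const_mul _
  have hlim : Tendsto (fun t : ℝ => e a s t * ((g (r - t) : ℝ) : ℂ)) atTop (𝓝 0) := by
    rw [tendsto_zero_iff_norm_tendsto_zero]
    refine squeeze_zero' (Eventually.of_forall fun t => norm_nonneg _)
      (g := fun t => Real.exp (-(a * t))) (Eventually.of_forall fun t => ?_) ?_
    · rw [norm_mul, norm_e, Complex.norm_real, Real.norm_eq_abs, abs_of_nonneg (g_nonneg _)]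
      exact mul_le_of_le_one_right (Real.exp_pos _).le (g_le_one _)
    · refine Real.tendsto_exp_atBot.comp ?_
      exact tendsto_neg_atTop_atBot.comp (tendsto_id.const_mul_atTop ha)
  have hF := integral_Ioi_of_hasDerivAt_of_tendsto (a := (0 : ℝ))
    (hd 0).continuousAt.continuousWithinAt (fun t _ => hd t) (hint1.add hint2) hlim
  rw [integral_add hint1 hint2, integral_const_mul] at hF
  have h5 : lam * J a s r = (g (r - 0) : ℂ) * e a s 0 + ∫ t in Ioi (0 : ℝ),
      e a s t * (((2 * (r - t)) * (g (r - t)) ^ 2 : ℝ) : ℂ) := by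
    unfold J
    linear_combination -hF
  rw [h5]
  refine (norm_add_le _ _).trans (add_le_add ?_ ?_)
  · rw [norm_mul, Complex.norm_real, Real.norm_eq_abs, abs_of_nonneg (g_nonneg _)]
    exact mul_le_one₀ (g_le_one _) (norm_nonneg _) (norm_e_le ha.le le_rfl)
  · refine (norm_integral_le_of_norm_le (g_int_shift r).integrableOn ?_).trans
      (g_integral_shift r)
    filter_upwards [self_mem_ae_restrict measurableSet_Ioi] with t ht
    exact hb t ht

/-- the constant -/
noncomputable def K : ℝ := Real.pi ^ 2 + (1 + Real.pi) ^ 2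

theorem K_nonneg : 0 ≤ K := by unfold K; positivity

theorem J_sq {a : ℝ} (ha : 0 < a) (s r : ℝ) : ‖J a s r‖ ^ 2 ≤ K * (1 + s ^ 2)⁻¹ := by
  have h1 := J_bound1 ha.le s r
  have h2 := J_bound2 ha s r
  rw [norm_mul] at h2
  have h3 : |s| ≤ ‖(a : ℂ) + (s : ℂ) * Complex.I‖ := by
    have := Complex.abs_im_le_norm ((a : ℂ) + (s : ℂ) * Complex.I)
    simpa using this
  have h4 : |s| * ‖J a s r‖ ≤ 1 + Real.pi :=
    (mul_le_mul_of_nonneg_right h3 (norm_nonneg _)).trans h2
  have h5 : 0 ≤ |s| * ‖J a s r‖ := by positivity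
  have h6 : (|s| * ‖J a s r‖) ^ 2 ≤ (1 + Real.pi) ^ 2 := pow_le_pow_left₀ h5 h4 2
  have h7 : ‖J a s r‖ ^ 2 ≤ Real.pi ^ 2 := pow_le_pow_left₀ (norm_nonneg _) h1 2
  rw [mul_pow, sq_abs] at h6
  rw [← div_eq_mul_inv, le_div_iff₀ (by positivity)]
  unfold K
  nlinarith

/-- the resolvent, in the form of the frozen statement -/
noncomputable def R (a s : ℝ) : C₀(ℝ, ℂ) := ∫ t in Ioi (0 : ℝ), e a s t • T t f₀

theorem R_norm_sq {a : ℝ} (ha : 0 < a) (s : ℝ) : ‖R a s‖ ^ 2 ≤ K * (1 + s ^ 2)⁻¹ := by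
  have hK : 0 ≤ K * (1 + s ^ 2)⁻¹ := mul_nonneg K_nonneg (by positivity)
  have hb : ‖R a s‖ ≤ Real.sqrt (K * (1 + s ^ 2)⁻¹) := by
    refine norm_le_of (Real.sqrt_nonneg _) fun r => ?_
    refine Real.le_sqrt_of_sq_le ?_
    by_cases hi : Integrable (fun t : ℝ => e a s t • T t f₀) (volume.restrict (Ioi 0))
    · have h1 : R a s r = J a s r := by
        rw [← ev_apply]
        unfold R J
        rw [← ContinuousLinearMap.integral_comp_comm _ hi]
        rfl
      rw [h1]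
      exact J_sq ha s r
    · have h1 : R a s = 0 := integral_undef hi
      rw [h1]
      simpa using hK
  calc ‖R a s‖ ^ 2 ≤ (Real.sqrt (K * (1 + s ^ 2)⁻¹)) ^ 2 := pow_le_pow_left₀ (norm_nonneg _) hb 2
    _ = K * (1 + s ^ 2)⁻¹ := Real.sq_sqrt hK

theorem lint_bound {a : ℝ} (ha : 0 < a) :
    ∫⁻ s : ℝ, ((‖R a s‖₊ : ENNReal)) ^ 2 ≤ ENNReal.ofReal (K * Real.pi) := by
  have h1 : ∀ s : ℝ, ((‖R a s‖₊ : ENNReal)) ^ 2 ≤ ENNReal.ofReal (K * (1 + s ^ 2)⁻¹) := by
    intro s
    rw [← enorm_eq_nnnorm, ← ofReal_norm, ← ENNReal.ofReal_pow (norm_nonneg _)]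
    exact ENNReal.ofReal_le_ofReal (R_norm_sq ha s)
  refine (lintegral_mono h1).trans (le_of_eq ?_)
  rw [← ofReal_integral_eq_lintegral_ofReal]
  · rw [integral_const_mul, integral_univ_inv_one_add_sq]
  · exact integrable_inv_one_add_sq.const_mul _
  · exact Eventually.of_forall fun s => mul_nonneg K_nonneg (by positivity)

/-- the resolvent condition holds for `f₀` -/
theorem star : Tendsto (fun a : ℝ => ENNReal.ofReal a * ∫⁻ s : ℝ, ((‖R a s‖₊ : ENNReal)) ^ 2)
    (𝓝[>] (0 : ℝ)) (𝓝 0) := by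
  have h1 : Tendsto (fun a : ℝ => ENNReal.ofReal a * ENNReal.ofReal (K * Real.pi))
      (𝓝[>] (0 : ℝ)) (𝓝 0) := by
    have h2 : Tendsto (fun a : ℝ => ENNReal.ofReal a * ENNReal.ofReal (K * Real.pi))
        (𝓝 (0 : ℝ)) (𝓝 (ENNReal.ofReal 0 * ENNReal.ofReal (K * Real.pi))) :=
      ENNReal.Tendsto.mul_const (ENNReal.tendsto_ofReal tendsto_id)
        (Or.inr ENNReal.ofReal_ne_top)
    rw [ENNReal.ofReal_zero, zero_mul] at h2
    exact h2.mono_left nhdsWithin_le_nhds
  refine tendsto_of_tendsto_of_tendsto_of_le_of_le' tendsto_const_nhds h1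
    (Eventually.of_forall fun a => zero_le) ?_
  filter_upwards [self_mem_nhdsWithin] with a ha
  exact mul_le_mul_right (lint_bound ha) _

/-- the orbit of `f₀` has norm at least one -/
theorem orbit_norm (t : ℝ) : 1 ≤ ‖T t f₀‖ := by
  have h := coe_le (T t f₀) t
  rw [T_apply, sub_self, f₀_apply] at h
  simpa using h

theorem not_stable : ¬ Tendsto (fun t : ℝ => T t f₀) atTop (𝓝 0) := by
  intro h
  have h1 := h.norm
  rw [norm_zero] at h1
  have h2 := ge_of_tendsto' h1 orbit_norm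
  linarith

end Pool.Agent.X315.Transl
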