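import Pool.Agent.X315.PolyMixed
import Pool.Agent.W387.Q.Hyp

/-!
# Area laws of polygons biased by monomials of the area, the width and the radius of gyration
-/

set_option autoImplicit false
set_option linter.unusedVariables false
set_option linter.unusedSectionVars false

namespace Pool.Agent.W387.Q.PB

open Finset Pool.Agent.H976R2 Pool.Agent.H924P Pool.Agent.H739K Filter Topology MeasureTheory
open Pool.Agent.X315.PG Pool.Agent.X315.PN Pool.Agent.W387.Q.PJ Pool.Agent.W387.Q.PM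
open scoped Classical

noncomputable section

/-- the bounded weight -/
def ps (g : ℝ → ℝ) (t : ℝ) : List Dir → ℝ := fun w => 2 + g ((ar w : ℝ) / t)

lemma ps_bds {g : ℝ → ℝ} (hg1 : ∀ x, |g x| ≤ 1) (t : ℝ) (w : List Dir) :
    1 ≤ ps g t w ∧ ps g t w ≤ 3 := by
  have := abs_le.mp (hg1 ((ar w : ℝ) / t))
  unfold ps
  constructor <;> linarith

lemma nice_ps {N : ℕ} (hN : 2 ≤ N) {t : ℝ} (ht : (N : ℝ) / 2 ≤ t) {g : ℝ → ℝ}
    (hg : ∀ x y, |g x - g y| ≤ |x - y|) (hg1 : ∀ x, |g x| ≤ 1) (m : ℕ) (hm : 3 ≤ m)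
    (hmN : m ≤ 4 * N) : NiceP 40 3 0 m (ps g t) := by
  have hN' : (2 : ℝ) ≤ N := by exact_mod_cast hN
  have ht0 : 0 < t := by linarith
  refine ⟨fun w _ _ _ _ => (ps_bds hg1 t w).1, fun w _ _ _ _ => ?_, fun w h1 h2 hs hq => ?_⟩
  · rw [pow_zero, mul_one]
    exact (ps_bds hg1 t w).2
  · have h5 : ∀ p ∈ adm w, |ps g t (ins w p.1 p.2) - ps g t w| ≤ 2 / N := by
      rintro ⟨i, e⟩ hp
      obtain ⟨a1, a2⟩ := AREA_proof w i e (hm.trans h1) hs hq hp
      have b1 : (ar (ins w i e) : ℝ) ≤ ar w + 1 := by exact_mod_cast a1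
      have b2 : (ar w : ℝ) ≤ ar (ins w i e) + 1 := by exact_mod_cast a2
      have h6 : |(ar (ins w i e) : ℝ) - ar w| ≤ 1 := by
        rw [abs_le]; constructor <;> linarith
      have e1 : ps g t (ins w i e) - ps g t w =
          g ((ar (ins w i e) : ℝ) / t) - g ((ar w : ℝ) / t) := by
        unfold ps
        ring
      show |ps g t (ins w i e) - ps g t w| ≤ _
      rw [e1]
      refine (hg _ _).trans ?_
      rw [← sub_div, abs_div, abs_of_pos ht0, div_le_div_iff₀ ht0 (by linarith)]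
      nlinarith [abs_nonneg ((ar (ins w i e) : ℝ) - ar w)]
    refine (Finset.sum_le_sum h5).trans ?_
    rw [Finset.sum_const, nsmul_eq_mul]
    have h3 : ((adm w).card : ℝ) ≤ 4 * (4 * N + 2) := by
      have h4 : (adm w).card ≤ 4 * (4 * N + 2) := (F4x.card_adm w).trans (by omega)
      exact_mod_cast h4
    have h4 : ((adm w).card : ℝ) * (2 / N) ≤ 40 := by
      have h5 : (0 : ℝ) < 2 / N := by positivity
      have h6 : (4 * (4 * (N : ℝ) + 2)) * (2 / N) ≤ 40 := by
        rw [mul_div_assoc', div_le_iff₀ (by linarith)]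
        nlinarith
      exact (mul_le_mul_of_nonneg_right h3 h5.le).trans h6
    have := (ps_bds hg1 t w).1
    linarith

lemma mon_nonneg (a b d : ℕ) (w : List Dir) : 0 ≤ mon a b d w := by
  have := G_nonneg w
  unfold mon
  positivity

lemma f2w_nonneg (a b d : ℕ) (w : List Dir) : 0 ≤ f2w a b d w := by
  have := G_nonneg w
  unfold f2w
  positivity

/-- biased mean of the area -/
def mb (a b d N : ℕ) : ℝ := av N (mon (a + 1) b d) / av N (mon a b d)

lemma mon_succ (a b d : ℕ) (w : List Dir) : mon (a + 1) b d w = mon a b d w * ar w := by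
  unfold mon
  ring

lemma mb_ge {N : ℕ} (hN : 2 ≤ N) (a b d : ℕ) : (N : ℝ) / 2 ≤ mb a b d N := by
  have hp := mon_pos hN a b d
  unfold mb
  rw [le_div_iff₀ hp, ← av_mul]
  refine av_le fun w hw => ?_
  have hl := F3x.len_of_KP hw
  have hk := hw
  unfold KP at hk
  rw [Finset.mem_filter] at hk
  have h1 := le_ar (w := w) (by omega) (mem_SW.mp hk.1).2 hk.2
  have h2 : (w.length : ℝ) + 1 = 2 * N := by
    have : w.length + 1 = 2 * N := by omega
    exact_mod_cast this
  rw [mon_succ, mul_comm]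
  exact mul_le_mul_of_nonneg_left (by linarith) (mon_nonneg a b d w)

/-- the biased mean of a function of the normalised area -/
def LX (a b d N : ℕ) (g : ℝ → ℝ) (t : ℝ) : ℝ :=
  av N (fun w => mon a b d w * g ((ar w : ℝ) / t)) / av N (mon a b d)

lemma LX_ps {N : ℕ} (hN : 2 ≤ N) (a b d : ℕ) (g : ℝ → ℝ) (t : ℝ) :
    av N (fun w => mon a b d w * ps g t w) / av N (mon a b d) = 2 + LX a b d N g t := by
  have hp := mon_pos hN a b d
  have h1 : av N (fun w => mon a b d w * ps g t w) =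
      2 * av N (mon a b d) + av N (fun w => mon a b d w * g ((ar w : ℝ) / t)) := by
    rw [← av_mul, ← av_add]
    refine av_congr fun w _ => ?_
    unfold ps
    ring
  rw [h1]
  unfold LX
  field_simp

variable [X : Ex]

lemma mon_ps_ratio (a b d : ℕ) : ∃ C : ℝ, 0 ≤ C ∧ ∀ N : ℕ, 2 ≤ N → ∀ t : ℝ, (N : ℝ) / 2 ≤ t →
    ∀ g : ℝ → ℝ, (∀ x y, |g x - g y| ≤ |x - y|) → (∀ x, |g x| ≤ 1) →
    |av (N + 1) (fun w => mon a b d w * ps g t w) / av N (fun w => mon a b d w * ps g t w) - 1| ≤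
      C * rN N := by
  obtain ⟨L1, q1, p1, hL1, hq1, h1⟩ := nice_f1 a b d
  obtain ⟨L2, q2, p2, hL2, hq2, h2⟩ := nice_f2 a b d
  have e1 : 0 ≤ (1 + L1) * (1 + 40) - 1 := by nlinarith
  have e2 : 0 ≤ (1 + L2) * (1 + 40) - 1 := by nlinarith
  obtain ⟨C1, hC1⟩ := ratio (show (0 : ℝ) ≤ q1 * 3 by positivity) (p1 + 0) e1
  obtain ⟨C2, hC2⟩ := ratio (show (0 : ℝ) ≤ q2 * 3 by positivity) (p2 + 0) e2
  refine ⟨|C1| * (1 + 3 * 2 ^ (b + 1)) + |C2| * (3 * 2 ^ (b + 1)), by positivity,
    fun N hN t ht g hg hg1 => ?_⟩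
  have g1 := hC1 N (fun w => PM.f1 a b d w * ps g t w) hN fun m hm hm4 _ =>
    nice_mul (h1 m hm) (nice_ps hN ht hg hg1 m hm hm4)
  have g2 := hC2 N (fun w => f2w a b d w * ps g t w) hN fun m hm hm4 _ =>
    nice_mul (h2 m hm) (nice_ps hN ht hg hg1 m hm hm4)
  have hr := rN_nonneg N
  have g1' := g1.trans (mul_le_mul_of_nonneg_right (le_abs_self C1) hr)
  have g2' := g2.trans (mul_le_mul_of_nonneg_right (le_abs_self C2) hr)
  have hb := ps_bds hg1 t
  have hM : 0 < av N (fun w => mon a b d w * ps g t w) := by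
    refine lt_of_lt_of_le (mon_pos hN a b d) (av_le fun w _ => ?_)
    have := mon_nonneg a b d w
    nlinarith [(hb w).1]
  have hF : 0 < av N (fun w => f2w a b d w * ps g t w) := by
    refine lt_of_lt_of_le (lt_of_lt_of_le one_pos (f2_pos hN a b d)) (av_le fun w _ => ?_)
    have := f2w_nonneg a b d w
    nlinarith [(hb w).1]
  have hK : av N (fun w => f2w a b d w * ps g t w) ≤
      3 * 2 ^ (b + 1) * av N (fun w => mon a b d w * ps g t w) := by
    calc av N (fun w => f2w a b d w * ps g t w) ≤ av N (fun w => 3 * f2w a b d w) := by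
          refine av_le fun w _ => ?_
          have := f2w_nonneg a b d w
          nlinarith [(hb w).2]
      _ = 3 * av N (f2w a b d) := av_mul _ _ _
      _ ≤ 3 * (2 ^ (b + 1) * av N (mon a b d)) := by linarith [f2_le hN a b d]
      _ ≤ 3 * (2 ^ (b + 1) * av N (fun w => mon a b d w * ps g t w)) := by
          have h5 : av N (mon a b d) ≤ av N (fun w => mon a b d w * ps g t w) := by
            refine av_le fun w _ => ?_
            have := mon_nonneg a b d w
            nlinarith [(hb w).1]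
          gcongr
      _ = _ := by ring
  have heq : ∀ n, av n (fun w => PM.f1 a b d w * ps g t w) =
      av n (fun w => mon a b d w * ps g t w) + av n (fun w => f2w a b d w * ps g t w) := by
    intro n
    rw [← av_add]
    refine av_congr fun w _ => ?_
    unfold PM.f1 f2w mon
    ring
  rw [heq, heq] at g1'
  set M := av N (fun w => mon a b d w * ps g t w) with hMd
  set M' := av (N + 1) (fun w => mon a b d w * ps g t w) with hM'd
  set F := av N (fun w => f2w a b d w * ps g t w) with hFd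
  set F' := av (N + 1) (fun w => f2w a b d w * ps g t w) with hF'd
  have e : M' / M - 1 = (M + F) / M * ((M' + F') / (M + F) - 1) - F / M * (F' / F - 1) := by
    have h3 : M + F ≠ 0 := by linarith
    have h4 : F ≠ 0 := by linarith
    field_simp
    ring
  have h5 : (M + F) / M ≤ 1 + 3 * 2 ^ (b + 1) := by
    rw [div_le_iff₀ hM]
    linarith
  have h6 : F / M ≤ 3 * 2 ^ (b + 1) := by
    rw [div_le_iff₀ hM]
    exact hK
  have h7 : 0 ≤ F / M := div_nonneg (by linarith) hM.le
  have h8 : 0 ≤ (M + F) / M := div_nonneg (by linarith) hM.le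
  rw [e]
  refine (abs_sub _ _).trans ?_
  rw [abs_mul, abs_mul, abs_of_nonneg h7, abs_of_nonneg h8]
  calc (M + F) / M * |(M' + F') / (M + F) - 1| + F / M * |F' / F - 1|
      ≤ (1 + 3 * 2 ^ (b + 1)) * (|C1| * rN N) + 3 * 2 ^ (b + 1) * (|C2| * rN N) := by
        apply add_le_add
        · exact mul_le_mul h5 g1' (abs_nonneg _) (by positivity)
        · exact mul_le_mul h6 g2' (abs_nonneg _) (by positivity)
    _ = _ := by ring

/-- **uniformly over all scales** -/
theorem scales (a b d : ℕ) : ∃ C : ℝ, 0 ≤ C ∧ ∀ N : ℕ, 2 ≤ N → ∀ t : ℝ, (N : ℝ) / 2 ≤ t →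
    ∀ g : ℝ → ℝ, (∀ x y, |g x - g y| ≤ |x - y|) → (∀ x, |g x| ≤ 1) →
    |LX a b d (N + 1) g t - LX a b d N g t| ≤ C * rN N := by
  obtain ⟨C, hC0, hC⟩ := mon_ps_ratio a b d
  obtain ⟨Cy, hCy⟩ := mon_ratio a b d
  obtain ⟨B, hB⟩ := ((HYP.tend hCy).inv₀ one_ne_zero).bddAbove_range
  refine ⟨3 * ((C + |Cy|) * |B|), by positivity, fun N hN t ht g hg hg1 => ?_⟩
  have h1 := hC N hN t ht g hg hg1
  have h2 := hCy N hN
  have hr := rN_nonneg N
  have hp := mon_pos hN a b d
  have hp' := mon_pos (N := N + 1) (by omega) a b d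
  have hb := ps_bds hg1 t
  have hM : 0 < av N (fun w => mon a b d w * ps g t w) := by
    refine lt_of_lt_of_le (mon_pos hN a b d) (av_le fun w _ => ?_)
    have := mon_nonneg a b d w
    nlinarith [(hb w).1]
  have hM3 : av N (fun w => mon a b d w * ps g t w) ≤ 3 * av N (mon a b d) := by
    rw [← av_mul]
    refine av_le fun w _ => ?_
    have := mon_nonneg a b d w
    nlinarith [(hb w).2]
  have e1 := LX_ps hN a b d g t
  have e2 := LX_ps (N := N + 1) (by omega) a b d g t
  have e3 : LX a b d (N + 1) g t - LX a b d N g t =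
      av (N + 1) (fun w => mon a b d w * ps g t w) / av (N + 1) (mon a b d) -
      av N (fun w => mon a b d w * ps g t w) / av N (mon a b d) := by
    rw [e1, e2]; ring
  have h3 : (av (N + 1) (mon a b d) / av N (mon a b d))⁻¹ ≤ |B| :=
    (hB ⟨N, rfl⟩).trans (le_abs_self _)
  rw [e3]
  set U := av N (fun w => mon a b d w * ps g t w) with hUd
  set U' := av (N + 1) (fun w => mon a b d w * ps g t w) with hU'd
  set M := av N (mon a b d) with hMd
  set M' := av (N + 1) (mon a b d) with hM'd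
  have e4 : U' / M' - U / M = U / M * ((U' / U - 1) - (M' / M - 1)) * (M' / M)⁻¹ := by
    field_simp
    ring
  have h4 : U / M ≤ 3 := by
    rw [div_le_iff₀ hp]
    exact hM3
  have h5 : 0 ≤ U / M := div_nonneg hM.le hp.le
  have h6 : 0 < (M' / M)⁻¹ := inv_pos.mpr (div_pos hp' hp)
  have h7 : |(U' / U - 1) - (M' / M - 1)| ≤ (C + |Cy|) * rN N := by
    refine (abs_sub _ _).trans ?_
    have g2 : Cy * rN N ≤ |Cy| * rN N := mul_le_mul_of_nonneg_right (le_abs_self _) hr
    linarith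
  rw [e4, abs_mul, abs_mul, abs_of_nonneg h5, abs_of_pos h6]
  calc U / M * |(U' / U - 1) - (M' / M - 1)| * (M' / M)⁻¹
      ≤ 3 * ((C + |Cy|) * rN N) * |B| := by
        apply mul_le_mul _ h3 h6.le (by positivity)
        exact mul_le_mul h4 h7 (abs_nonneg _) (by norm_num)
    _ = _ := by ring

lemma mb_ratio (a b d : ℕ) : ∃ C : ℝ, ∀ N : ℕ, 2 ≤ N →
    |mb a b d (N + 1) / mb a b d N - 1| ≤ C * rN N := by
  obtain ⟨C1, h1⟩ := mon_ratio (a + 1) b d
  obtain ⟨C2, h2⟩ := mon_ratio a b d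
  obtain ⟨C, hC⟩ := HYP.quot h1 h2 fun n hn =>
    div_pos (mon_pos (N := n + 1) (by omega) a b d) (mon_pos hn a b d)
  refine ⟨C, fun N hN => ?_⟩
  have h := hC N hN
  have p1 := mon_pos hN a b d
  have p2 := mon_pos (N := N + 1) (by omega) a b d
  have p3 := mon_pos hN (a + 1) b d
  have p4 := mon_pos (N := N + 1) (by omega) (a + 1) b d
  have e : mb a b d (N + 1) / mb a b d N = av (N + 1) (mon (a + 1) b d) / av N (mon (a + 1) b d) /
      (av (N + 1) (mon a b d) / av N (mon a b d)) := by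
    unfold mb
    field_simp
  rw [e]
  exact h

/-- **the biased area laws merge** -/
theorem merge (a b d : ℕ) : ∃ C : ℝ, 0 ≤ C ∧ ∀ N : ℕ, 2 ≤ N →
    ∀ g : ℝ → ℝ, (∀ x y, |g x - g y| ≤ |x - y|) → (∀ x, |g x| ≤ 1) →
    |LX a b d (N + 1) g (mb a b d (N + 1)) - LX a b d N g (mb a b d N)| ≤ C * rN N := by
  obtain ⟨C, hC0, hC⟩ := scales a b d
  obtain ⟨C2, hC2⟩ := mb_ratio a b d
  refine ⟨C + |C2|, by positivity, fun N hN g hg hg1 => ?_⟩
  have h1 := hC N hN (mb a b d N) (mb_ge hN a b d) g hg hg1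
  have h2 := (hC2 N hN).trans (mul_le_mul_of_nonneg_right (le_abs_self C2) (rN_nonneg N))
  have hN' : (2 : ℝ) ≤ N := by exact_mod_cast hN
  have hm := mb_ge hN a b d
  have hm' := mb_ge (N := N + 1) (by omega) a b d
  push_cast at hm'
  have hp' := mon_pos (N := N + 1) (by omega) a b d
  set s := mb a b d N with hs
  set s' := mb a b d (N + 1) with hs'
  have hs0 : 0 < s := by linarith
  have hs'0 : 0 < s' := by linarith
  have h3 : |LX a b d (N + 1) g s' - LX a b d (N + 1) g s| ≤ |s' / s - 1| := by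
    unfold LX
    rw [← sub_div, abs_div, abs_of_pos hp', div_le_iff₀ hp', ← av_sub]
    refine (av_abs (ψ := fun w => |s' / s - 1| / s' * mon (a + 1) b d w) fun w _ => ?_).trans ?_
    · rw [← mul_sub, abs_mul, abs_of_nonneg (mon_nonneg a b d w)]
      have h4 : |g ((ar w : ℝ) / s') - g ((ar w : ℝ) / s)| ≤ |s' / s - 1| / s' * ar w := by
        refine (hg _ _).trans (le_of_eq ?_)
        have : (ar w : ℝ) / s' - (ar w : ℝ) / s = -(((ar w : ℝ) / s') * (s' / s - 1)) := by
          field_simp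
          ring
        rw [this, abs_neg, abs_mul, abs_of_nonneg (by positivity)]
        ring
      calc mon a b d w * |g ((ar w : ℝ) / s') - g ((ar w : ℝ) / s)|
          ≤ mon a b d w * (|s' / s - 1| / s' * ar w) :=
            mul_le_mul_of_nonneg_left h4 (mon_nonneg a b d w)
        _ = _ := by rw [mon_succ]; ring
    · rw [av_mul]
      apply le_of_eq
      have e : s' = av (N + 1) (mon (a + 1) b d) / av (N + 1) (mon a b d) := hs'
      have e2 : av (N + 1) (mon (a + 1) b d) = s' * av (N + 1) (mon a b d) := by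
        rw [e]; field_simp
      rw [e2]
      field_simp
  calc |LX a b d (N + 1) g s' - LX a b d N g s|
      = |(LX a b d (N + 1) g s' - LX a b d (N + 1) g s) +
          (LX a b d (N + 1) g s - LX a b d N g s)| := by congr 1; ring
    _ ≤ |C2| * rN N + C * rN N := (abs_add_le _ _).trans (add_le_add (h3.trans h2) h1)
    _ = _ := by ring

/-! ## a general statement on sparse sequences -/

theorem weakGen (μ : ℕ → Measure ℝ) (hμ : ∀ n, IsProbabilityMeasure (μ n)) {K : ℝ} (hK0 : 0 ≤ K)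
    (hK : ∀ n : ℕ, 2 ≤ n → ∀ g : ℝ → ℝ, (∀ x y, |g x - g y| ≤ |x - y|) → (∀ x, |g x| ≤ 1) →
      |∫ x, g x ∂(μ (n + 1)) - ∫ x, g x ∂(μ n)| ≤ K * rN n)
    (s : ℕ → ℕ) (hs : Tendsto s atTop atTop)
    (hgap : Tendsto (fun k => ((s (k + 1) : ℝ) - s k) * rN (s k)) atTop (𝓝 0))
    (ν : Measure ℝ) [IsProbabilityMeasure ν]
    (h : ∀ g : ℝ → ℝ, Continuous g → (∃ C, ∀ x, |g x| ≤ C) →
      Tendsto (fun k => ∫ x, g x ∂(μ (s k))) atTop (𝓝 (∫ x, g x ∂ν)))
    (g : ℝ → ℝ) (hg : Continuous g) (hgb : ∃ C, ∀ x, |g x| ≤ C) :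
    Tendsto (fun n => ∫ x, g x ∂(μ n)) atTop (𝓝 (∫ x, g x ∂ν)) := by
  have h1 : ∀ g : ℝ → ℝ, (∀ x y, |g x - g y| ≤ |x - y|) → (∀ x, |g x| ≤ 1) →
      Tendsto (fun n => ∫ x, g x ∂(μ n)) atTop (𝓝 (∫ x, g x ∂ν)) := by
    intro g hgl hg1
    have hcont : Continuous g := by
      have : LipschitzWith 1 g := LipschitzWith.of_dist_le_mul (fun x y => by
        rw [Real.dist_eq, Real.dist_eq, NNReal.coe_one, one_mul]
        exact hgl x y)
      exact this.continuous
    refine add_gen (fun n => ∫ x, g x ∂(μ n)) K hK0 ?_ s hs hgap _ (h g hcont ⟨1, hg1⟩)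
    filter_upwards [eventually_ge_atTop 2] with n hn
    exact hK n hn g hgl hg1
  obtain ⟨νp, hνp⟩ : ∃ νp : ProbabilityMeasure ℝ, (νp : Measure ℝ) = ν := ⟨⟨ν, inferInstance⟩, rfl⟩
  obtain ⟨μp, hμp⟩ : ∃ μp : ℕ → ProbabilityMeasure ℝ, ∀ n, (μp n : Measure ℝ) = μ n :=
    ⟨fun n => ⟨μ n, hμ n⟩, fun n => rfl⟩
  have hw : Tendsto μp atTop (𝓝 νp) := by
    rw [tendsto_iff_forall_lipschitz_integral_tendsto]
    rintro f ⟨C, hC⟩ ⟨Λ, hΛ⟩
    obtain ⟨M, hM⟩ : ∃ M : ℝ, M = |C| + (Λ : ℝ) + 1 := ⟨_, rfl⟩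
    have hM0 : 0 < M := by rw [hM]; positivity
    have hf0 : ∀ x, |f x - f 0| ≤ M := fun x => by
      have h2 := hC x 0
      rw [Real.dist_eq] at h2
      have := le_abs_self C
      have h3 : (0 : ℝ) ≤ Λ := Λ.2
      rw [hM]; linarith
    have hfl : ∀ x y, |f x - f y| ≤ M * |x - y| := fun x y => by
      have h2 := hΛ.dist_le_mul x y
      rw [Real.dist_eq, Real.dist_eq] at h2
      have h3 : (Λ : ℝ) ≤ M := by
        rw [hM]; have := abs_nonneg C; linarith
      exact h2.trans (mul_le_mul_of_nonneg_right h3 (abs_nonneg _))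
    have h2 := h1 (fun x => (f x - f 0) / M) (fun x y => by
        rw [← sub_div, sub_sub_sub_cancel_right, abs_div, abs_of_pos hM0, div_le_iff₀ hM0]
        linarith [hfl x y]) (fun x => by
        rw [abs_div, abs_of_pos hM0, div_le_one hM0]
        exact hf0 x)
    have hint : ∀ μ : Measure ℝ, IsProbabilityMeasure μ → Integrable f μ := fun μ _ => by
      refine Integrable.of_bound hΛ.continuous.aestronglyMeasurable (|f 0| + M)
        (Eventually.of_forall fun x => ?_)
      rw [Real.norm_eq_abs]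
      have : f x = f 0 + (f x - f 0) := by ring
      rw [this]
      exact (abs_add_le _ _).trans (by linarith [hf0 x])
    have hE : ∀ μ : Measure ℝ, IsProbabilityMeasure μ →
        ∫ x, f x ∂μ = M * (∫ x, (f x - f 0) / M ∂μ) + f 0 := fun μ hμ => by
      rw [integral_div, integral_sub (hint μ hμ) (integrable_const _), integral_const]
      simp only [probReal_univ, smul_eq_mul, one_mul]
      field_simp
      ring
    have h3 : Tendsto (fun n => M * (∫ x, (f x - f 0) / M ∂(μ n)) + f 0) atTop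
        (𝓝 (M * (∫ x, (f x - f 0) / M ∂ν) + f 0)) := (h2.const_mul M).add_const _
    rw [← hE ν inferInstance] at h3
    rw [hνp]
    refine h3.congr fun n => ?_
    rw [hμp n, hE (μ n) (hμ n)]
  rw [ProbabilityMeasure.tendsto_iff_forall_integral_tendsto] at hw
  obtain ⟨C, hC⟩ := hgb
  have h4 := hw (BoundedContinuousFunction.ofNormedAddCommGroup g hg C (fun x => by
    rw [Real.norm_eq_abs]; exact hC x))
  rw [hνp] at h4
  refine h4.congr fun n => ?_
  rw [hμp n]
  rfl

/-- the biased law of the normalised area -/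
def lawX (a b d N : ℕ) : Measure ℝ :=
  if 2 ≤ N then ∑ w ∈ KP (2 * N - 1),
    ENNReal.ofReal (mon a b d w / mm (mon a b d) (2 * N - 1)) •
      Measure.dirac ((ar w : ℝ) / mb a b d N) else Measure.dirac 0

lemma mm_pos {N : ℕ} (hN : 2 ≤ N) (a b d : ℕ) : 0 < mm (mon a b d) (2 * N - 1) := by
  have h1 := mon_pos hN a b d
  have h2 := card_KP_pos hN
  unfold av at h1
  exact (div_pos_iff_of_pos_right h2).mp h1

lemma isProbX (a b d N : ℕ) : IsProbabilityMeasure (lawX a b d N) := by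
  unfold lawX
  split_ifs with h
  · constructor
    rw [Measure.finsetSum_apply]
    simp only [Measure.smul_apply, measure_univ, smul_eq_mul, mul_one]
    have hp := mm_pos h a b d
    rw [← ENNReal.ofReal_sum_of_nonneg fun w _ => div_nonneg (mon_nonneg a b d w) hp.le,
      ← Finset.sum_div]
    have : (∑ i ∈ KP (2 * N - 1), mon a b d i) / mm (mon a b d) (2 * N - 1) = 1 :=
      div_self hp.ne'
    rw [this, ENNReal.ofReal_one]
  · infer_instance

lemma integral_lawX {N : ℕ} (hN : 2 ≤ N) (a b d : ℕ) (g : ℝ → ℝ) :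
    ∫ x, g x ∂(lawX a b d N) = LX a b d N g (mb a b d N) := by
  have hp := mm_pos hN a b d
  have hc := card_KP_pos hN
  unfold lawX
  rw [if_pos hN, integral_finsetSum_measure]
  · have h1 : ∀ w ∈ KP (2 * N - 1),
        ∫ x, g x ∂(ENNReal.ofReal (mon a b d w / mm (mon a b d) (2 * N - 1)) •
          Measure.dirac ((ar w : ℝ) / mb a b d N)) =
        mon a b d w * g ((ar w : ℝ) / mb a b d N) / mm (mon a b d) (2 * N - 1) := by
      intro w _
      rw [integral_smul_measure, integral_dirac, ENNReal.toReal_ofReal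
        (div_nonneg (mon_nonneg a b d w) hp.le), smul_eq_mul]
      ring
    rw [Finset.sum_congr rfl h1, ← Finset.sum_div]
    unfold LX av
    rw [div_div_div_cancel_right₀ hc.ne']
    rfl
  · intro w hw
    exact (integrable_dirac (by simp)).smul_measure (by simp)

theorem weakX (a b d : ℕ) (s : ℕ → ℕ) (hs : Tendsto s atTop atTop)
    (hgap : Tendsto (fun k => ((s (k + 1) : ℝ) - s k) * rN (s k)) atTop (𝓝 0))
    (ν : Measure ℝ) [IsProbabilityMeasure ν]
    (h : ∀ g : ℝ → ℝ, Continuous g → (∃ C, ∀ x, |g x| ≤ C) →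
      Tendsto (fun k => LX a b d (s k) g (mb a b d (s k))) atTop (𝓝 (∫ x, g x ∂ν)))
    (g : ℝ → ℝ) (hg : Continuous g) (hgb : ∃ C, ∀ x, |g x| ≤ C) :
    Tendsto (fun n => LX a b d n g (mb a b d n)) atTop (𝓝 (∫ x, g x ∂ν)) := by
  obtain ⟨K, hK0, hK⟩ := merge a b d
  have h1 := weakGen (lawX a b d) (isProbX a b d) hK0 (fun n hn g hg hg1 => by
    rw [integral_lawX hn, integral_lawX (by omega)]
    exact hK n hn g hg hg1) s hs hgap ν (fun g hg hgb => by
      refine (h g hg hgb).congr' ?_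
      filter_upwards [hs.eventually (eventually_ge_atTop 2)] with k hk
      exact (integral_lawX hk a b d g).symm) g hg hgb
  refine h1.congr' ?_
  filter_upwards [eventually_ge_atTop 2] with n hn
  exact integral_lawX hn a b d g

end

end Pool.Agent.W387.Q.PB
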