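import Pool.Agent.X315.PolySwap
import Pool.Agent.H739K.AREA
import Pool.Agent.H739K.PR
import Pool.Agent.H739K.MOM2

/-!
# The radius of gyration of lattice polygons under insertions
-/

set_option autoImplicit false
set_option linter.unusedVariables false

namespace Pool.Agent.X315.PG

open Finset Pool.Agent.H976R2 Pool.Agent.H976R2.Lip Pool.Agent.H924P Pool.Agent.H739K
open scoped Classical

noncomputable section

/-- squared Euclidean norm -/
def nd (z : ℤ × ℤ) : ℝ := (z.1 : ℝ) ^ 2 + (z.2 : ℝ) ^ 2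

lemma nd_nonneg (z : ℤ × ℤ) : 0 ≤ nd z := by unfold nd; positivity

lemma nd_neg (z : ℤ × ℤ) : nd (-z) = nd z := by
  unfold nd
  simp

lemma nd_sub_comm (x y : ℤ × ℤ) : nd (x - y) = nd (y - x) := by
  rw [← nd_neg, neg_sub]

lemma nd_add_le (x y : ℤ × ℤ) : nd (x + y) ≤ 2 * nd x + 2 * nd y := by
  unfold nd
  simp only [Prod.fst_add, Prod.snd_add]
  push_cast
  nlinarith [sq_nonneg ((x.1 : ℝ) - y.1), sq_nonneg ((x.2 : ℝ) - y.2)]

lemma one_le_nd {z : ℤ × ℤ} (h : z ≠ 0) : 1 ≤ nd z := by
  unfold nd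
  have h1 : z.1 ≠ 0 ∨ z.2 ≠ 0 := by
    by_contra hcon
    push Not at hcon
    exact h (Prod.ext hcon.1 hcon.2)
  rcases h1 with h1 | h1
  · have h2 : (1 : ℤ) ≤ z.1 ^ 2 := by
      have := Int.one_le_abs h1
      nlinarith [sq_abs z.1]
    have h3 : (1 : ℝ) ≤ (z.1 : ℝ) ^ 2 := by exact_mod_cast h2
    nlinarith [sq_nonneg (z.2 : ℝ)]
  · have h2 : (1 : ℤ) ≤ z.2 ^ 2 := by
      have := Int.one_le_abs h1
      nlinarith [sq_abs z.2]
    have h3 : (1 : ℝ) ≤ (z.2 : ℝ) ^ 2 := by exact_mod_cast h2
    nlinarith [sq_nonneg (z.1 : ℝ)]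

lemma nd_dv (d : Dir) : nd (dv d) = 1 := by
  cases d <;> simp [nd, dv, dx, dy]

/-- sum over the sites of a word -/
def S (h : ℤ × ℤ → ℝ) (w : List Dir) : ℝ := ∑ k ∈ range (w.length + 1), h (PP w k)

lemma S_ins (h : ℤ × ℤ → ℝ) (w : List Dir) (i : ℕ) (e : Dir) (hi : i < w.length) :
    S h (ins w i e) = S h w + h (PP w i + dv e) + h (PP w (i + 1) + dv e) := by
  have h1 : PP (ins w i e) (i + 1) = PP w i + dv e := by
    have h2 := PP_succ (ins w i e) i (by rw [ins_length w i e hi]; omega)
    rw [h2, PP_ins_le w i i e hi le_rfl, lt_ins_0 hi]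
  have h2 : PP (ins w i e) (i + 2) = PP w (i + 1) + dv e := by
    have h3 := PP_succ (ins w i e) (i + 1) (by rw [ins_length w i e hi]; omega)
    rw [h3, h1, lt_ins_1 hi, PP_succ w i hi]
    abel
  obtain ⟨r, hr⟩ : ∃ r, w.length = i + 1 + r := ⟨w.length - i - 1, by omega⟩
  unfold S
  rw [ins_length w i e hi, hr, show i + 1 + r + 2 + 1 = (i + 1) + (2 + (r + 1)) by ring,
    show i + 1 + r + 1 = (i + 1) + (r + 1) by ring,
    Finset.sum_range_add (fun x => h (PP (ins w i e) x)) (i + 1) (2 + (r + 1)),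
    Finset.sum_range_add (fun x => h (PP (ins w i e) (i + 1 + x))) 2 (r + 1),
    Finset.sum_range_add (fun x => h (PP w x)) (i + 1) (r + 1)]
  have e1 : ∑ x ∈ range (i + 1), h (PP (ins w i e) x) = ∑ x ∈ range (i + 1), h (PP w x) := by
    refine Finset.sum_congr rfl fun x hx => ?_
    rw [Finset.mem_range] at hx
    rw [PP_ins_le w i x e hi (by omega)]
  have e2 : ∑ x ∈ range (r + 1), h (PP (ins w i e) (i + 1 + (2 + x))) =
      ∑ x ∈ range (r + 1), h (PP w (i + 1 + x)) := by
    refine Finset.sum_congr rfl fun x hx => ?_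
    rw [show i + 1 + (2 + x) = (i + 1 + x) + 2 by ring, PP_ins_gt w i (i + 1 + x) e hi (by omega)]
  have e3 : ∑ x ∈ range 2, h (PP (ins w i e) (i + 1 + x)) =
      h (PP w i + dv e) + h (PP w (i + 1) + dv e) := by
    rw [Finset.sum_range_succ, Finset.sum_range_one, Nat.add_zero, h1,
      show i + 1 + 1 = i + 2 by ring, h2]
  rw [e1, e2, e3]
  ring

/-- the sum of the squared distances of all pairs of sites -/
def G (w : List Dir) : ℝ := S (fun x => S (fun y => nd (x - y)) w) w

lemma S_add (f g : ℤ × ℤ → ℝ) (w : List Dir) : S (fun x => f x + g x) w = S f w + S g w := by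
  unfold S
  exact Finset.sum_add_distrib

lemma S_le {f g : ℤ × ℤ → ℝ} (w : List Dir) (h : ∀ x, f x ≤ g x) : S f w ≤ S g w := by
  unfold S
  exact Finset.sum_le_sum fun _ _ => h _

lemma S_nonneg {f : ℤ × ℤ → ℝ} (w : List Dir) (h : ∀ x, 0 ≤ f x) : 0 ≤ S f w := by
  unfold S
  exact Finset.sum_nonneg fun _ _ => h _

lemma S_const (c : ℝ) (w : List Dir) : S (fun _ => c) w = (w.length + 1) * c := by
  unfold S
  rw [Finset.sum_const, Finset.card_range, nsmul_eq_mul]
  push_cast
  ring

lemma S_mul (c : ℝ) (f : ℤ × ℤ → ℝ) (w : List Dir) : S (fun x => c * f x) w = c * S f w := by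
  unfold S
  rw [Finset.mul_sum]

lemma G_nonneg (w : List Dir) : 0 ≤ G w := S_nonneg w fun _ => S_nonneg w fun _ => nd_nonneg _

lemma G_ins (w : List Dir) (i : ℕ) (e : Dir) (hi : i < w.length) :
    G (ins w i e) = G w + 2 * S (fun y => nd (PP w i + dv e - y)) w +
      2 * S (fun y => nd (PP w (i + 1) + dv e - y)) w + 2 := by
  have key : nd (PP w i + dv e - (PP w (i + 1) + dv e)) = 1 := by
    rw [PP_succ w i hi, ← nd_dv (lt w i), ← nd_neg (dv (lt w i))]
    congr 1
    abel
  have key2 : nd (PP w (i + 1) + dv e - (PP w i + dv e)) = 1 := by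
    rw [nd_sub_comm]; exact key
  have z : ∀ x : ℤ × ℤ, nd (x - x) = 0 := fun x => by simp [nd]
  have h1 : ∀ x, S (fun y => nd (x - y)) (ins w i e) = S (fun y => nd (x - y)) w +
      nd (x - (PP w i + dv e)) + nd (x - (PP w (i + 1) + dv e)) := fun x =>
    S_ins (fun y => nd (x - y)) w i e hi
  have h2 : S (fun x => nd (x - (PP w i + dv e))) w = S (fun y => nd (PP w i + dv e - y)) w := by
    congr 1
    funext x
    exact nd_sub_comm _ _
  have h3 : S (fun x => nd (x - (PP w (i + 1) + dv e))) w =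
      S (fun y => nd (PP w (i + 1) + dv e - y)) w := by
    congr 1
    funext x
    exact nd_sub_comm _ _
  unfold G
  rw [S_ins _ w i e hi]
  simp only [h1]
  rw [S_add, S_add, h2, h3, z, z, key, key2]
  ring

lemma nd_PP_le (w : List Dir) (k : ℕ) : nd (PP w k) ≤ 2 * (w.length : ℝ) ^ 2 := by
  have h : ∀ v : List Dir, |wX v| ≤ v.length ∧ |wY v| ≤ v.length := by
    intro v
    induction v with
    | nil => simp
    | cons d v ih =>
      rw [wX_cons, wY_cons, List.length_cons]
      have h1 : |dx d| ≤ 1 := by cases d <;> simp [dx]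
      have h2 : |dy d| ≤ 1 := by cases d <;> simp [dy]
      push_cast
      constructor
      · have := abs_add_le (dx d) (wX v)
        linarith [ih.1]
      · have := abs_add_le (dy d) (wY v)
        linarith [ih.2]
  have h1 := h (w.take k)
  have h2 : (w.take k).length ≤ w.length := by rw [List.length_take]; omega
  have h3 : |wX (w.take k)| ≤ (w.length : ℤ) := h1.1.trans (by exact_mod_cast h2)
  have h4 : |wY (w.take k)| ≤ (w.length : ℤ) := h1.2.trans (by exact_mod_cast h2)
  have h5 : |(wX (w.take k) : ℝ)| ≤ w.length := by exact_mod_cast h3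
  have h6 : |(wY (w.take k) : ℝ)| ≤ w.length := by exact_mod_cast h4
  have h7 : (wX (w.take k) : ℝ) ^ 2 ≤ (w.length : ℝ) ^ 2 := by
    rw [← sq_abs]
    exact pow_le_pow_left₀ (abs_nonneg _) h5 2
  have h8 : (wY (w.take k) : ℝ) ^ 2 ≤ (w.length : ℝ) ^ 2 := by
    rw [← sq_abs]
    exact pow_le_pow_left₀ (abs_nonneg _) h6 2
  unfold nd PP
  simp only
  linarith

lemma G_le (w : List Dir) : G w ≤ 8 * ((w.length : ℝ) + 1) ^ 4 := by
  unfold G S
  have h : ∀ j ∈ range (w.length + 1), ∀ k ∈ range (w.length + 1),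
      nd (PP w j - PP w k) ≤ 8 * ((w.length : ℝ) + 1) ^ 2 := by
    intro j _ k _
    have h1 := nd_add_le (PP w j) (-PP w k)
    rw [← sub_eq_add_neg, nd_neg] at h1
    have h2 := nd_PP_le w j
    have h3 := nd_PP_le w k
    have h4 : (w.length : ℝ) ^ 2 ≤ ((w.length : ℝ) + 1) ^ 2 := by
      have : (0 : ℝ) ≤ w.length := Nat.cast_nonneg _
      nlinarith
    linarith
  refine (Finset.sum_le_sum fun j hj => Finset.sum_le_sum fun k hk => h j hj k hk).trans ?_
  rw [Finset.sum_const, Finset.sum_const, Finset.card_range, nsmul_eq_mul, nsmul_eq_mul]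
  push_cast
  apply le_of_eq
  ring

lemma le_G {w : List Dir} (hw : Saw w) : (w.length : ℝ) * (w.length + 1) ≤ G w := by
  unfold G S
  have h : ∀ j ∈ range (w.length + 1), (w.length : ℝ) ≤
      ∑ k ∈ range (w.length + 1), nd (PP w j - PP w k) := by
    intro j hj
    have h1 : ∑ k ∈ (range (w.length + 1)).erase j, (1 : ℝ) ≤
        ∑ k ∈ (range (w.length + 1)).erase j, nd (PP w j - PP w k) := by
      refine Finset.sum_le_sum fun k hk => ?_
      rw [Finset.mem_erase, Finset.mem_range] at hk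
      rw [Finset.mem_range] at hj
      apply one_le_nd
      rw [sub_ne_zero]
      intro h2
      exact hk.1 (PP_inj hw (by omega) (by omega) h2).symm
    rw [Finset.sum_const, Finset.card_erase_of_mem hj, Finset.card_range, nsmul_eq_mul,
      mul_one, Nat.add_sub_cancel] at h1
    exact h1.trans (Finset.sum_le_sum_of_subset_of_nonneg (Finset.erase_subset _ _)
      fun _ _ _ => nd_nonneg _)
  refine le_trans (le_of_eq ?_) (Finset.sum_le_sum h)
  rw [Finset.sum_const, Finset.card_range, nsmul_eq_mul]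
  push_cast
  ring

/-- the total change of the gyration under insertions -/
lemma G_lip {w : List Dir} (hw : Saw w) (h1 : 1 ≤ w.length) :
    (∀ p ∈ adm w, G w ≤ G (ins w p.1 p.2)) ∧
      ∑ p ∈ adm w, (G (ins w p.1 p.2) - G w) ≤ 104 * G w := by
  have hL : (1 : ℝ) ≤ w.length := by exact_mod_cast h1
  have hS : ∀ c, 0 ≤ S (fun y => nd (c - y)) w := fun c => S_nonneg w fun _ => nd_nonneg _
  have hb : ∀ (j : ℕ) (e : Dir), S (fun y => nd (PP w j + dv e - y)) w ≤
      2 * S (fun y => nd (PP w j - y)) w + 2 * (w.length + 1) := by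
    intro j e
    have h2 : S (fun y => nd (PP w j + dv e - y)) w ≤ S (fun y => 2 * nd (PP w j - y) + 2) w := by
      apply S_le
      intro y
      have h3 := nd_add_le (PP w j - y) (dv e)
      rw [nd_dv] at h3
      have h4 : PP w j - y + dv e = PP w j + dv e - y := by abel
      rw [h4] at h3
      linarith
    rw [S_add, S_mul, S_const] at h2
    linarith
  have hadm : ∀ p ∈ adm w, G (ins w p.1 p.2) - G w ≤ 4 * S (fun y => nd (PP w p.1 - y)) w +
      4 * S (fun y => nd (PP w (p.1 + 1) - y)) w + (8 * (w.length + 1) + 2) := by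
    rintro ⟨i, e⟩ hp
    have hi : i < w.length := ((mem_adm hw i e).1 hp).1
    have h2 := G_ins w i e hi
    have h3 := hb i e
    have h4 := hb (i + 1) e
    simp only
    linarith
  constructor
  · rintro ⟨i, e⟩ hp
    have hi : i < w.length := ((mem_adm hw i e).1 hp).1
    have h2 := G_ins w i e hi
    have h3 := hS (PP w i + dv e)
    have h4 := hS (PP w (i + 1) + dv e)
    simp only
    linarith
  · have h2 : ∑ p ∈ adm w, (G (ins w p.1 p.2) - G w) ≤ ∑ p ∈ (range w.length) ×ˢ (univ : Finset Dir),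
        (4 * S (fun y => nd (PP w p.1 - y)) w +
          4 * S (fun y => nd (PP w (p.1 + 1) - y)) w + (8 * (w.length + 1) + 2)) := by
      refine (Finset.sum_le_sum hadm).trans ?_
      refine Finset.sum_le_sum_of_subset_of_nonneg ?_ ?_
      · unfold adm
        exact Finset.filter_subset _ _
      · intro p _ _
        have h3 := hS (PP w p.1)
        have h4 := hS (PP w (p.1 + 1))
        positivity
    rw [Finset.sum_product] at h2
    simp only [Finset.sum_const] at h2
    have hc : (univ : Finset Dir).card = 4 := rfl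
    rw [hc] at h2
    simp only [nsmul_eq_mul] at h2
    rw [← Finset.mul_sum, Finset.sum_add_distrib, Finset.sum_add_distrib, ← Finset.mul_sum,
      ← Finset.mul_sum, Finset.sum_const, Finset.card_range, nsmul_eq_mul] at h2
    have h3 : ∑ i ∈ range w.length, S (fun y => nd (PP w i - y)) w ≤ G w := by
      unfold G
      rw [S, Finset.sum_range_succ]
      linarith [hS (PP w w.length)]
    have h4 : ∑ i ∈ range w.length, S (fun y => nd (PP w (i + 1) - y)) w ≤ G w := by
      unfold G
      rw [S, Finset.sum_range_succ']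
      linarith [hS (PP w 0)]
    have h5 := le_G hw
    push_cast at h2
    nlinarith

end

end Pool.Agent.X315.PG
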