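import Pool.Agent.X315.PolyNice

/-!
# The joint law of the width, the height, the area and the radius of gyration
-/

set_option autoImplicit false
set_option linter.unusedVariables false
set_option linter.unusedSectionVars false

namespace Pool.Agent.W387.Q.PJ

open Finset Pool.Agent.H976R2 Pool.Agent.H924P Pool.Agent.H739K Filter Topology MeasureTheory
open Pool.Agent.X315.PG Pool.Agent.X315.PN
open scoped Classical

noncomputable section

/-- width of the polygon of a word -/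
def wd (w : List Dir) : ℕ := width (w.length + 1) (lp (w.length + 1) w)

/-- height of the polygon of a word -/
def ht (w : List Dir) : ℕ := height (w.length + 1) (lp (w.length + 1) w)

lemma bx_def (w : List Dir) : bx w = wd w + ht w := rfl

lemma mono (w : List Dir) (i : ℕ) (e : Dir) (hi : i < w.length) :
    wd w ≤ wd (ins w i e) ∧ ht w ≤ ht (ins w i e) := by
  obtain ⟨Mx, mx, My, my, hb, h1, h2, h3, h4⟩ := BOXx.exists_box w
  obtain ⟨Mx', mx', My', my', hb', h1', h2', h3', h4'⟩ := BOXx.exists_box (ins w i e)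
  have hv := Lip.vis_ins w i e hi
  have up : ∀ p, vis w p → vis (ins w i e) p := fun p hp => (hv p).mpr (Or.inl hp)
  have a1 := BOXx.width_of w Mx mx (fun p hp => ⟨(hb p hp).1, (hb p hp).2.1⟩) h1 h2
  have a2 := BOXx.height_of w My my (fun p hp => ⟨(hb p hp).2.2.1, (hb p hp).2.2.2⟩) h3 h4
  have a3 := BOXx.width_of (ins w i e) Mx' mx' (fun p hp => ⟨(hb' p hp).1, (hb' p hp).2.1⟩) h1' h2'
  have a4 := BOXx.height_of (ins w i e) My' my'
    (fun p hp => ⟨(hb' p hp).2.2.1, (hb' p hp).2.2.2⟩) h3' h4'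
  obtain ⟨p1, hp1, e1⟩ := h1
  obtain ⟨p2, hp2, e2⟩ := h2
  obtain ⟨p3, hp3, e3⟩ := h3
  obtain ⟨p4, hp4, e4⟩ := h4
  have b1 := hb' _ (up _ hp1)
  have b2 := hb' _ (up _ hp2)
  have b3 := hb' _ (up _ hp3)
  have b4 := hb' _ (up _ hp4)
  unfold wd ht
  omega

/-! ## averages over the words of polygons -/

/-- the average -/
def av (N : ℕ) (φ : List Dir → ℝ) : ℝ := mm φ (2 * N - 1) / ((KP (2 * N - 1)).card : ℝ)

lemma av_add (N : ℕ) (φ ψ : List Dir → ℝ) : av N (fun w => φ w + ψ w) = av N φ + av N ψ := by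
  unfold av mm
  rw [Finset.sum_add_distrib, add_div]

lemma av_sub (N : ℕ) (φ ψ : List Dir → ℝ) : av N (fun w => φ w - ψ w) = av N φ - av N ψ := by
  unfold av mm
  rw [Finset.sum_sub_distrib, sub_div]

lemma av_mul (N : ℕ) (c : ℝ) (φ : List Dir → ℝ) : av N (fun w => c * φ w) = c * av N φ := by
  unfold av mm
  rw [← Finset.mul_sum, mul_div_assoc]

lemma av_div (N : ℕ) (c : ℝ) (φ : List Dir → ℝ) : av N (fun w => φ w / c) = av N φ / c := by
  unfold av mm
  rw [← Finset.sum_div, div_div, div_div, mul_comm c]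

lemma av_const {N : ℕ} (hN : 2 ≤ N) (c : ℝ) : av N (fun _ => c) = c := by
  have hp := card_KP_pos hN
  unfold av mm
  rw [Finset.sum_const, nsmul_eq_mul, mul_div_assoc, mul_div_cancel₀ _ hp.ne']

lemma av_le {N : ℕ} {φ ψ : List Dir → ℝ} (h : ∀ w ∈ KP (2 * N - 1), φ w ≤ ψ w) :
    av N φ ≤ av N ψ := by
  unfold av mm
  gcongr with w hw
  exact h w hw

lemma av_congr {N : ℕ} {φ ψ : List Dir → ℝ} (h : ∀ w ∈ KP (2 * N - 1), φ w = ψ w) :
    av N φ = av N ψ := by
  unfold av mm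
  rw [Finset.sum_congr rfl h]

lemma av_abs {N : ℕ} {φ ψ : List Dir → ℝ} (h : ∀ w ∈ KP (2 * N - 1), |φ w| ≤ ψ w) :
    |av N φ| ≤ av N ψ := by
  rw [abs_le]
  constructor
  · have h1 : av N (fun w => (-1) * ψ w) ≤ av N φ := av_le fun w hw => by
      have := (abs_le.mp (h w hw)).1
      linarith
    rw [av_mul] at h1
    linarith
  · exact av_le fun w hw => (abs_le.mp (h w hw)).2

lemma wd_eq {N : ℕ} (hN : 2 ≤ N) {w : List Dir} (h : w ∈ KP (2 * N - 1)) :
    wd w = width (2 * N) (lp (2 * N) w) ∧ ht w = height (2 * N) (lp (2 * N) w) := by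
  have hl := F3x.len_of_KP h
  have e : w.length + 1 = 2 * N := by omega
  unfold wd ht
  rw [e]
  exact ⟨rfl, rfl⟩

lemma me_av {N : ℕ} (hN : 2 ≤ N) (F : (ZMod (2 * N) → ℤ × ℤ) → ℝ) :
    me N F = av N (fun w => F (lp (2 * N) w)) := by
  rw [F4x.me_eq CONV_proof hN]
  rfl

/-! ## the radius of gyration -/

/-- the square of the radius of gyration of the vertices -/
def gyr (m : ℕ) (f : ZMod m → ℤ × ℤ) : ℝ :=
  (∑ᶠ i, ∑ᶠ j, ((((f i).1 - (f j).1 : ℤ) : ℝ) ^ 2 + (((f i).2 - (f j).2 : ℤ) : ℝ) ^ 2)) /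
    (2 * (m : ℝ) ^ 2)

lemma sum_lp {m : ℕ} {w : List Dir} (hm : w.length + 1 = m) (h : ℤ × ℤ → ℝ) :
    ∑ᶠ i, h (lp m w i) = S h w := by
  subst hm
  rw [finsum_eq_sum_of_fintype]
  unfold S
  exact Fin.sum_univ_eq_sum_range (fun k => h (Lip.PP w k)) (w.length + 1)

lemma gyr_lp {m : ℕ} {w : List Dir} (hm : w.length + 1 = m) :
    gyr m (lp m w) = G w / (2 * (m : ℝ) ^ 2) := by
  unfold gyr G
  congr 1
  rw [← sum_lp hm]
  refine finsum_congr fun i => ?_
  rw [← sum_lp hm]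
  rfl

lemma gyr_eq {N : ℕ} (hN : 2 ≤ N) {w : List Dir} (h : w ∈ KP (2 * N - 1)) :
    gyr (2 * N) (lp (2 * N) w) = G w / (8 * (N : ℝ) ^ 2) := by
  have hl := F3x.len_of_KP h
  rw [gyr_lp (by omega)]
  congr 1
  push_cast
  ring

/-- mean square radius of gyration -/
def MR (N : ℕ) : ℝ := me N (fun f => gyr (2 * N) f)

lemma MR_eq {N : ℕ} (hN : 2 ≤ N) : MR N = av N G / (8 * (N : ℝ) ^ 2) := by
  unfold MR
  rw [me_av hN, ← av_div]
  exact av_congr fun w hw => gyr_eq hN hw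

lemma MA_av {N : ℕ} (hN : 2 ≤ N) : MA N = av N (fun w => (ar w : ℝ)) := by
  unfold MA
  rw [me_av hN]
  exact av_congr fun w hw => by rw [F4x.ar_eq hN hw]

lemma MW_av {N : ℕ} (hN : 2 ≤ N) : MW N = av N (fun w => (wd w : ℝ)) := by
  unfold MW
  rw [me_av hN]
  exact av_congr fun w hw => by rw [(wd_eq hN hw).1]

lemma me_height {N : ℕ} (hN : 2 ≤ N) : me N (fun f => (height (2 * N) f : ℝ)) = MW N := by
  unfold MW me
  congr 1
  have := SWAP_proof (2 * N) (by omega) (fun f => (width (2 * N) f : ℝ))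
  rw [← this]
  rfl

lemma MH_av {N : ℕ} (hN : 2 ≤ N) : MW N = av N (fun w => (ht w : ℝ)) := by
  rw [← me_height hN, me_av hN]
  exact av_congr fun w hw => by rw [(wd_eq hN hw).2]

lemma bx_av {N : ℕ} (hN : 2 ≤ N) : av N (fun w => (bx w : ℝ)) = 2 * MW N := by
  have h1 : av N (fun w => (bx w : ℝ)) = av N (fun w => (wd w : ℝ) + (ht w : ℝ)) :=
    av_congr fun w _ => by rw [bx_def]; push_cast; ring
  rw [h1, av_add, ← MW_av hN, ← MH_av hN]
  ring

lemma one_le_av {N : ℕ} (hN : 2 ≤ N) {φ : List Dir → ℝ} {c : ℝ}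
    (h : ∀ w : List Dir, 3 ≤ w.length → Saw w → sq w = 1 → c ≤ φ w) : c ≤ av N φ := by
  rw [← av_const hN c]
  refine av_le fun w hw => ?_
  have hl := F3x.len_of_KP hw
  have hk := hw
  unfold KP at hk
  rw [Finset.mem_filter] at hk
  exact h w (by omega) (mem_SW.mp hk.1).2 hk.2

lemma MW_half {N : ℕ} (hN : 2 ≤ N) : 1 / 2 ≤ MW N := by
  have h1 : 1 ≤ av N (fun w => (bx w : ℝ)) := one_le_av hN fun w h1 h2 h3 => by
    exact_mod_cast F3x.bx_pos w (by omega)
  rw [bx_av hN] at h1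
  linarith

lemma G_one {N : ℕ} (hN : 2 ≤ N) : 1 ≤ av N G := one_le_av hN fun w h1 h2 h3 =>
  (nice_G h1).one_le w le_rfl (by omega) h2 h3

/-- the weight -/
def ph (g : ℝ × ℝ × ℝ × ℝ → ℝ) (a b s : ℝ) : List Dir → ℝ :=
  fun w => 2 + (bx w : ℝ) / b + G w / s +
    g ((wd w : ℝ) / b, (ht w : ℝ) / b, (ar w : ℝ) / a, G w / s)

lemma nice {N : ℕ} (hN : 2 ≤ N) {a b s : ℝ} (haN : (N : ℝ) / 2 ≤ a) (hb : 1 / 2 ≤ b) (hs1 : 1 ≤ s)
    {g : ℝ × ℝ × ℝ × ℝ → ℝ} (hg : ∀ x y, |g x - g y| ≤ dist x y) (hg1 : ∀ x, |g x| ≤ 1) (m : ℕ)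
    (hm : 3 ≤ m) (hmN : m ≤ 4 * N) : NiceP 208 20 4 m (ph g a b s) where
  one_le := by
    intro w _ _ _ _
    have := (abs_le.mp (hg1 ((wd w : ℝ) / b, (ht w : ℝ) / b, (ar w : ℝ) / a, G w / s))).1
    have h2 : 0 ≤ (bx w : ℝ) / b := div_nonneg (Nat.cast_nonneg _) (by linarith)
    have h3 : 0 ≤ G w / s := div_nonneg (G_nonneg w) (by linarith)
    unfold ph
    linarith
  le := by
    intro w h1w hw hs hq
    have h1 := (abs_le.mp (hg1 ((wd w : ℝ) / b, (ht w : ℝ) / b, (ar w : ℝ) / a, G w / s))).2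
    have h5 : (3 : ℝ) ≤ m := by exact_mod_cast hm
    have h3 := (nice_bx hm).le w h1w hw hs hq
    have h4 := (nice_G hm).le w h1w hw hs hq
    rw [pow_one] at h3
    have h2 : (bx w : ℝ) / b ≤ 8 * (m + 5) := by
      rw [div_le_iff₀ (by linarith)]
      nlinarith
    have h6 : G w / s ≤ 8 * ((m : ℝ) + 5) ^ 4 := (div_le_self (G_nonneg w) hs1).trans h4
    have h7 : (m : ℝ) + 5 ≤ ((m : ℝ) + 5) ^ 4 := by
      have : (1 : ℝ) ≤ (m : ℝ) + 5 := by linarith
      calc (m : ℝ) + 5 = ((m : ℝ) + 5) ^ 1 := (pow_one _).symm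
        _ ≤ _ := pow_le_pow_right₀ this (by norm_num)
    unfold ph
    linarith
  lip := by
    intro w hw1 hw2 hs hq
    have hN' : (2 : ℝ) ≤ N := by exact_mod_cast hN
    have ha0 : 0 < a := by linarith
    have hb0 : 0 < b := by linarith
    have hs0 : 0 < s := by linarith
    obtain ⟨-, hbox⟩ := BOX_proof w (by omega) hs hq
    obtain ⟨hG1, hG2⟩ := G_lip hs (by omega)
    have h1 : ∀ p ∈ adm w, |ph g a b s (ins w p.1 p.2) - ph g a b s w| ≤
        2 / b * ((bx (ins w p.1 p.2) : ℝ) - bx w) + 2 / s * (G (ins w p.1 p.2) - G w) + 2 / N := by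
      rintro ⟨i, e⟩ hp
      have hi : i < w.length := ((Lip.mem_adm hs i e).1 hp).1
      obtain ⟨h2, h3⟩ := AREA_proof w i e (by omega) hs hq hp
      obtain ⟨h4, h5⟩ := mono w i e hi
      have hG := hG1 _ hp
      simp only at hG
      have h2' : (ar (ins w i e) : ℝ) ≤ ar w + 1 := by exact_mod_cast h2
      have h3' : (ar w : ℝ) ≤ ar (ins w i e) + 1 := by exact_mod_cast h3
      have h4' : (wd w : ℝ) ≤ wd (ins w i e) := by exact_mod_cast h4
      have h5' : (ht w : ℝ) ≤ ht (ins w i e) := by exact_mod_cast h5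
      have hbx : (bx (ins w i e) : ℝ) - bx w = ((wd (ins w i e) : ℝ) - wd w) +
          ((ht (ins w i e) : ℝ) - ht w) := by
        rw [bx_def, bx_def]
        push_cast
        ring
      have r1 : 0 ≤ 1 / b * ((wd (ins w i e) : ℝ) - wd w) :=
        mul_nonneg (by positivity) (by linarith)
      have r2 : 0 ≤ 1 / b * ((ht (ins w i e) : ℝ) - ht w) :=
        mul_nonneg (by positivity) (by linarith)
      have r3 : (0 : ℝ) ≤ 2 / N := by positivity
      have r4 : 0 ≤ 1 / s * (G (ins w i e) - G w) :=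
        mul_nonneg (by positivity) (by linarith)
      have hd : dist (((wd (ins w i e) : ℝ) / b, (ht (ins w i e) : ℝ) / b,
          (ar (ins w i e) : ℝ) / a, G (ins w i e) / s) : ℝ × ℝ × ℝ × ℝ)
          ((wd w : ℝ) / b, (ht w : ℝ) / b, (ar w : ℝ) / a, G w / s) ≤
          1 / b * ((bx (ins w i e) : ℝ) - bx w) + 1 / s * (G (ins w i e) - G w) + 2 / N := by
        rw [hbx, mul_add, Prod.dist_eq, Prod.dist_eq, Prod.dist_eq]
        refine max_le ?_ (max_le ?_ (max_le ?_ ?_))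
        · simp only [Real.dist_eq]
          rw [← sub_div, abs_div, abs_of_pos hb0, abs_of_nonneg (by linarith)]
          have : ((wd (ins w i e) : ℝ) - wd w) / b = 1 / b * ((wd (ins w i e) : ℝ) - wd w) := by
            ring
          linarith
        · simp only [Real.dist_eq]
          rw [← sub_div, abs_div, abs_of_pos hb0, abs_of_nonneg (by linarith)]
          have : ((ht (ins w i e) : ℝ) - ht w) / b = 1 / b * ((ht (ins w i e) : ℝ) - ht w) := by
            ring
          linarith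
        · simp only [Real.dist_eq]
          rw [← sub_div, abs_div, abs_of_pos ha0]
          have h6 : |(ar (ins w i e) : ℝ) - ar w| ≤ 1 := by
            rw [abs_le]; constructor <;> linarith
          have h7 : |(ar (ins w i e) : ℝ) - ar w| / a ≤ 2 / N := by
            rw [div_le_div_iff₀ ha0 (by linarith)]
            nlinarith [abs_nonneg ((ar (ins w i e) : ℝ) - ar w)]
          linarith
        · simp only [Real.dist_eq]
          rw [← sub_div, abs_div, abs_of_pos hs0, abs_of_nonneg (by linarith)]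
          have : (G (ins w i e) - G w) / s = 1 / s * (G (ins w i e) - G w) := by ring
          linarith
      have h8 : ph g a b s (ins w i e) - ph g a b s w = 1 / b * ((bx (ins w i e) : ℝ) - bx w) +
          1 / s * (G (ins w i e) - G w) +
          (g ((wd (ins w i e) : ℝ) / b, (ht (ins w i e) : ℝ) / b, (ar (ins w i e) : ℝ) / a,
            G (ins w i e) / s) - g ((wd w : ℝ) / b, (ht w : ℝ) / b, (ar w : ℝ) / a, G w / s)) := by
        unfold ph
        ring
      show |ph g a b s (ins w i e) - ph g a b s w| ≤ _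
      rw [h8]
      have h9 : 0 ≤ 1 / b * ((bx (ins w i e) : ℝ) - bx w) := by
        rw [hbx]
        exact mul_nonneg (by positivity) (by linarith)
      refine (abs_add_le _ _).trans ?_
      rw [abs_of_nonneg (by linarith)]
      have h10 := (hg ((wd (ins w i e) : ℝ) / b, (ht (ins w i e) : ℝ) / b,
        (ar (ins w i e) : ℝ) / a, G (ins w i e) / s)
        ((wd w : ℝ) / b, (ht w : ℝ) / b, (ar w : ℝ) / a, G w / s)).trans hd
      have h11 : 2 / b * ((bx (ins w i e) : ℝ) - bx w) =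
          1 / b * ((bx (ins w i e) : ℝ) - bx w) + 1 / b * ((bx (ins w i e) : ℝ) - bx w) := by ring
      have h12 : 2 / s * (G (ins w i e) - G w) =
          1 / s * (G (ins w i e) - G w) + 1 / s * (G (ins w i e) - G w) := by ring
      show _ ≤ 2 / b * ((bx (ins w i e) : ℝ) - bx w) + 2 / s * (G (ins w i e) - G w) + 2 / N
      rw [h11, h12]
      linarith
    have h2 := Finset.sum_le_sum h1
    rw [Finset.sum_add_distrib, Finset.sum_add_distrib, ← Finset.mul_sum, ← Finset.mul_sum,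
      Finset.sum_const, nsmul_eq_mul] at h2
    have h3 : ((adm w).card : ℝ) ≤ 4 * (4 * N + 2) := by
      have h4 : (adm w).card ≤ 4 * (4 * N + 2) := (F4x.card_adm w).trans (by omega)
      exact_mod_cast h4
    have h4 : ((adm w).card : ℝ) * (2 / N) ≤ 40 := by
      have h5 : (0 : ℝ) < 2 / N := by positivity
      have h6 : (4 * (4 * (N : ℝ) + 2)) * (2 / N) ≤ 40 := by
        rw [mul_div_assoc', div_le_iff₀ (by linarith)]
        nlinarith
      exact (mul_le_mul_of_nonneg_right h3 h5.le).trans h6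
    have h6 : 2 / b * ∑ p ∈ adm w, ((bx (ins w p.1 p.2) : ℝ) - bx w) ≤ 12 * ((bx w : ℝ) / b) := by
      calc 2 / b * ∑ p ∈ adm w, ((bx (ins w p.1 p.2) : ℝ) - bx w) ≤ 2 / b * (6 * bx w) :=
            mul_le_mul_of_nonneg_left hbox (by positivity)
        _ = 12 * ((bx w : ℝ) / b) := by ring
    have h6' : 2 / s * ∑ p ∈ adm w, (G (ins w p.1 p.2) - G w) ≤ 208 * (G w / s) := by
      calc 2 / s * ∑ p ∈ adm w, (G (ins w p.1 p.2) - G w) ≤ 2 / s * (104 * G w) :=
            mul_le_mul_of_nonneg_left hG2 (by positivity)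
        _ = 208 * (G w / s) := by ring
    have h7 : 0 ≤ (bx w : ℝ) / b := by positivity
    have h7' : 0 ≤ G w / s := div_nonneg (G_nonneg w) hs0.le
    have h5 : 1 + (bx w : ℝ) / b + G w / s ≤ ph g a b s w := by
      have := (abs_le.mp (hg1 ((wd w : ℝ) / b, (ht w : ℝ) / b, (ar w : ℝ) / a, G w / s))).1
      unfold ph
      linarith
    linarith

/-- the mean of a function of the width, the height, the area and the gyration -/
def J4 (N : ℕ) (g : ℝ × ℝ × ℝ × ℝ → ℝ) (a b s : ℝ) : ℝ :=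
  av N (fun w => g ((wd w : ℝ) / b, (ht w : ℝ) / b, (ar w : ℝ) / a, G w / s))

lemma mean_ph {N : ℕ} (hN : 2 ≤ N) (g : ℝ × ℝ × ℝ × ℝ → ℝ) (a b s : ℝ) :
    av N (ph g a b s) = 2 + 2 * MW N / b + av N G / s + J4 N g a b s := by
  unfold ph J4
  rw [av_add, av_add, av_add, av_const hN, av_div, av_div, bx_av hN]

variable [X : Ex]

lemma ratio {q : ℝ} (hq : 0 ≤ q) (p : ℕ) {L : ℝ} (hL : 0 ≤ L) : ∃ C : ℝ,
    ∀ (N : ℕ) (φ : List Dir → ℝ), 2 ≤ N →
    (∀ m : ℕ, 3 ≤ m → m ≤ 4 * N → N ≤ m + 1 → NiceP L q p m φ) →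
    |av (N + 1) φ / av N φ - 1| ≤ C * rN N := by
  obtain ⟨C, hC⟩ := MOM.pf0 q hq p L hL
  refine ⟨C, fun N φ hN h => ?_⟩
  have h1 := hC N φ hN h
  unfold av
  have e : 2 * (N + 1) - 1 = 2 * N + 1 := by omega
  rw [e]
  exact h1

lemma G_ratio : ∃ C : ℝ, ∀ N : ℕ, 2 ≤ N → |av (N + 1) G / av N G - 1| ≤ C * rN N := by
  obtain ⟨C, hC⟩ := ratio (show (0 : ℝ) ≤ 8 by norm_num) 4 (show (0 : ℝ) ≤ 104 by norm_num)
  exact ⟨C, fun N hN => hC N G hN fun m hm _ _ => nice_G hm⟩

/-- **the joint laws merge** -/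
theorem joint : ∃ C : ℝ, ∀ N : ℕ, 2 ≤ N → ∀ g : ℝ × ℝ × ℝ × ℝ → ℝ,
    (∀ x y, |g x - g y| ≤ dist x y) → (∀ x, |g x| ≤ 1) →
    |J4 (N + 1) g (MA (N + 1)) (MW (N + 1)) (av (N + 1) G) - J4 N g (MA N) (MW N) (av N G)| ≤
      C * rN N := by
  obtain ⟨C, hC⟩ := ratio (show (0 : ℝ) ≤ 20 by norm_num) 4 (show (0 : ℝ) ≤ 208 by norm_num)
  obtain ⟨C2, hC2⟩ := f2
  obtain ⟨C3, hC3⟩ := f3
  obtain ⟨C4, hC4⟩ := G_ratio
  refine ⟨6 * C + C2 + 4 * C3 + 2 * C4, fun N hN g hg hg1 => ?_⟩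
  have haN := f2a N hN
  have haN1 := f2a (N + 1) (by omega)
  have hbN := MW_half hN
  have hbN1 := MW_half (N := N + 1) (by omega)
  have hsN := G_one hN
  have hsN1 := G_one (N := N + 1) (by omega)
  have hN' : (2 : ℝ) ≤ N := by exact_mod_cast hN
  have h2 := hC2 N hN
  have h3 := hC3 N hN
  have h4 := hC4 N hN
  have h1 := hC N (ph g (MA N) (MW N) (av N G)) hN
    (fun m h3 h4 _ => nice hN haN hbN hsN hg hg1 m h3 h4)
  rw [mean_ph hN, mean_ph (N := N + 1) (by omega)] at h1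
  set a := MA N with hadef
  set a' := MA (N + 1) with ha'def
  set b := MW N with hbdef
  set b' := MW (N + 1) with hb'def
  set s := av N G with hsdef
  set s' := av (N + 1) G with hs'def
  have ha0 : 0 < a := by linarith
  have ha'0 : 0 < a' := by push_cast at haN1; linarith
  have hb0 : 0 < b := by linarith
  have hb'0 : 0 < b' := by linarith
  have hs0 : 0 < s := by linarith
  have hs'0 : 0 < s' := by linarith
  set x := J4 N g a b s with hx
  set y := J4 (N + 1) g a b s with hy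
  have hx1 : |x| ≤ 1 := by
    have := av_abs (N := N) (φ := fun w => g ((wd w : ℝ) / b, (ht w : ℝ) / b, (ar w : ℝ) / a,
      G w / s)) (ψ := fun _ => 1) (fun w _ => hg1 _)
    rwa [av_const hN] at this
  have hx2 := abs_le.mp hx1
  have e0 : 2 + 2 * b / b + s / s + x = 5 + x := by
    field_simp
    ring
  rw [e0] at h1
  have hpos : 0 < 5 + x := by linarith [hx2.1]
  have hC0 : 0 ≤ C * rN N := (abs_nonneg _).trans h1
  have h5 : |y - x| ≤ 6 * C * rN N + (2 * (C3 * rN N) + C4 * rN N) := by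
    have h5 : (2 + 2 * b' / b + s' / s + y) / (5 + x) - 1 =
        (y - x + (2 * (b' / b - 1) + (s' / s - 1))) / (5 + x) := by
      field_simp
      ring
    rw [h5, abs_div, abs_of_pos hpos, div_le_iff₀ hpos] at h1
    have h6 : |y - x| ≤ |y - x + (2 * (b' / b - 1) + (s' / s - 1))| +
        |2 * (b' / b - 1) + (s' / s - 1)| := by
      have : y - x = (y - x + (2 * (b' / b - 1) + (s' / s - 1))) -
        (2 * (b' / b - 1) + (s' / s - 1)) := by ring
      calc |y - x| = |(y - x + (2 * (b' / b - 1) + (s' / s - 1))) -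
            (2 * (b' / b - 1) + (s' / s - 1))| := by rw [← this]
        _ ≤ _ := abs_sub _ _
    have h7 : |2 * (b' / b - 1) + (s' / s - 1)| ≤ 2 * (C3 * rN N) + C4 * rN N := by
      refine (abs_add_le _ _).trans ?_
      rw [abs_mul, abs_two]
      linarith
    nlinarith [hx2.2]
  have h6 : |J4 (N + 1) g a' b' s' - y| ≤ C2 * rN N + 2 * (C3 * rN N) + C4 * rN N := by
    rw [hy]
    unfold J4
    rw [← av_sub]
    have hN1 : 2 ≤ N + 1 := by omega
    have hmF : av (N + 1) (fun w => |b' / b - 1| / b' * (wd w : ℝ) +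
        (|b' / b - 1| / b' * (ht w : ℝ) + (|a' / a - 1| / a' * (ar w : ℝ) +
          |s' / s - 1| / s' * G w))) =
        |b' / b - 1| + (|b' / b - 1| + (|a' / a - 1| + |s' / s - 1|)) := by
      rw [av_add, av_add, av_add, av_mul, av_mul, av_mul, av_mul, ← MW_av hN1, ← MH_av hN1,
        ← MA_av hN1, div_mul_cancel₀ _ hb'0.ne', div_mul_cancel₀ _ ha'0.ne',
        div_mul_cancel₀ _ hs'0.ne']
    refine le_trans (av_abs (ψ := fun w => |b' / b - 1| / b' * (wd w : ℝ) +
        (|b' / b - 1| / b' * (ht w : ℝ) + (|a' / a - 1| / a' * (ar w : ℝ) +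
          |s' / s - 1| / s' * G w))) fun w _ => ?_) ?_
    · refine (hg _ _).trans ?_
      have hs : ∀ (x s s' : ℝ), 0 ≤ x → 0 < s → 0 < s' →
          |x / s' - x / s| = |s' / s - 1| / s' * x := by
        intro x s s' hx hs hs'
        have : x / s' - x / s = -((x / s') * (s' / s - 1)) := by
          field_simp
          ring
        rw [this, abs_neg, abs_mul, abs_of_nonneg (by positivity)]
        ring
      have hG := G_nonneg w
      rw [Prod.dist_eq, Prod.dist_eq, Prod.dist_eq]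
      simp only [Real.dist_eq]
      rw [hs _ b b' (Nat.cast_nonneg _) hb0 hb'0, hs _ b b' (Nat.cast_nonneg _) hb0 hb'0,
        hs _ a a' (Nat.cast_nonneg _) ha0 ha'0, hs _ s s' hG hs0 hs'0]
      have r1 : 0 ≤ |b' / b - 1| / b' * (wd w : ℝ) := by positivity
      have r2 : 0 ≤ |b' / b - 1| / b' * (ht w : ℝ) := by positivity
      have r3 : 0 ≤ |a' / a - 1| / a' * (ar w : ℝ) := by positivity
      have r4 : 0 ≤ |s' / s - 1| / s' * G w := by positivity
      refine max_le (by linarith) (max_le (by linarith) (max_le (by linarith) (by linarith)))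
    · rw [hmF]
      linarith
  calc |J4 (N + 1) g a' b' s' - x| = |(J4 (N + 1) g a' b' s' - y) + (y - x)| := by congr 1; ring
    _ ≤ (C2 * rN N + 2 * (C3 * rN N) + C4 * rN N) +
        (6 * C * rN N + (2 * (C3 * rN N) + C4 * rN N)) :=
        (abs_add_le _ _).trans (add_le_add h6 h5)
    _ = (6 * C + C2 + 4 * C3 + 2 * C4) * rN N := by ring

end

end Pool.Agent.W387.Q.PJ
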