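import Pool.Agent.X315.PolyWeak

/-!
# Mixed moments of the area, the width and the radius of gyration
-/

set_option autoImplicit false
set_option linter.unusedVariables false
set_option linter.unusedSectionVars false

namespace Pool.Agent.W387.Q.PM

open Finset Pool.Agent.H976R2 Pool.Agent.H924P Pool.Agent.H739K Filter Topology MeasureTheory
open Pool.Agent.X315.PG Pool.Agent.X315.PN Pool.Agent.W387.Q.PJ
open scoped Classical

noncomputable section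

/-! ## the weight of the width -/

lemma wd_le_bx (w : List Dir) : (wd w : ℝ) ≤ bx w := by
  rw [bx_def]
  push_cast
  linarith [(Nat.cast_nonneg (ht w) : (0 : ℝ) ≤ ht w)]

lemma nice_wb {m : ℕ} (hm : 3 ≤ m) (b : ℕ) :
    NiceP (6 * b * 7 ^ b + 7 ^ b) (2 * 4 ^ b) b m (fun w => (wd w : ℝ) ^ b + (bx w : ℝ) ^ b) := by
  have hP := nice_pow (nice_bx hm) b
  refine ⟨fun w h1 h2 hs hq => ?_, fun w h1 h2 hs hq => ?_, fun w h1 h2 hs hq => ?_⟩
  · have h3 : (1 : ℝ) ≤ (bx w : ℝ) ^ b := hP.one_le w h1 h2 hs hq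
    have h4 : (0 : ℝ) ≤ (wd w : ℝ) ^ b := by positivity
    linarith
  · have h3 := (nice_bx hm).le w h1 h2 hs hq
    rw [pow_one] at h3
    have h4 : (wd w : ℝ) ^ b ≤ (4 * ((m : ℝ) + 5)) ^ b :=
      pow_le_pow_left₀ (Nat.cast_nonneg _) ((wd_le_bx w).trans h3) b
    have h5 : (bx w : ℝ) ^ b ≤ (4 * ((m : ℝ) + 5)) ^ b :=
      pow_le_pow_left₀ (Nat.cast_nonneg _) h3 b
    rw [mul_pow] at h4 h5
    calc (wd w : ℝ) ^ b + (bx w : ℝ) ^ b ≤ 4 ^ b * ((m : ℝ) + 5) ^ b + 4 ^ b * ((m : ℝ) + 5) ^ b :=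
          add_le_add h4 h5
      _ = _ := by ring
  · have h3 : ∑ p ∈ adm w, |(bx (ins w p.1 p.2) : ℝ) ^ b - (bx w : ℝ) ^ b| ≤
        ((1 + 6) ^ b - 1) * (bx w : ℝ) ^ b := hP.lip w h1 h2 hs hq
    obtain ⟨hB1, hB2⟩ := BOX_proof w (by omega) hs hq
    have hbx0 : (0 : ℝ) ≤ bx w := Nat.cast_nonneg _
    have hnn : ∀ p ∈ adm w, (0 : ℝ) ≤ (bx (ins w p.1 p.2) : ℝ) - bx w := by
      intro p hp
      have : (bx w : ℝ) ≤ bx (ins w p.1 p.2) := by exact_mod_cast hB1 p hp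
      linarith
    have hsing : ∀ p ∈ adm w, (bx (ins w p.1 p.2) : ℝ) - bx w ≤ 6 * (bx w : ℝ) := by
      intro p hp
      exact (Finset.single_le_sum hnn hp).trans hB2
    have key : ∀ p ∈ adm w, |(wd (ins w p.1 p.2) : ℝ) ^ b - (wd w : ℝ) ^ b| ≤
        (b * (7 * (bx w : ℝ)) ^ (b - 1)) * ((bx (ins w p.1 p.2) : ℝ) - bx w) := by
      rintro ⟨i, e⟩ hp
      have hi : i < w.length := ((Lip.mem_adm hs i e).1 hp).1
      obtain ⟨h4, h5⟩ := mono w i e hi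
      have h4' : (wd w : ℝ) ≤ wd (ins w i e) := by exact_mod_cast h4
      have h5' : (ht w : ℝ) ≤ ht (ins w i e) := by exact_mod_cast h5
      have h6 := hsing _ hp
      have h7 := hnn _ hp
      simp only at h6 h7 ⊢
      have c1 := abs_pow_sub_pow_le (wd (ins w i e) : ℝ) (wd w : ℝ) b
      have c2 : |(wd (ins w i e) : ℝ) - wd w| ≤ (bx (ins w i e) : ℝ) - bx w := by
        rw [abs_of_nonneg (by linarith), bx_def, bx_def]
        push_cast
        linarith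
      have c3 : max |(wd (ins w i e) : ℝ)| |(wd w : ℝ)| ≤ 7 * (bx w : ℝ) := by
        rw [abs_of_nonneg (Nat.cast_nonneg _), abs_of_nonneg (Nat.cast_nonneg _)]
        have := wd_le_bx w
        have := wd_le_bx (ins w i e)
        apply max_le <;> linarith
      have c4 : (0 : ℝ) ≤ max |(wd (ins w i e) : ℝ)| |(wd w : ℝ)| :=
        le_max_of_le_left (abs_nonneg _)
      have c5 : max |(wd (ins w i e) : ℝ)| |(wd w : ℝ)| ^ (b - 1) ≤ (7 * (bx w : ℝ)) ^ (b - 1) :=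
        pow_le_pow_left₀ c4 c3 _
      have c6 : (0 : ℝ) ≤ b := Nat.cast_nonneg b
      generalize (wd (ins w i e) : ℝ) = A at *
      generalize (wd w : ℝ) = B at *
      generalize (bx (ins w i e) : ℝ) = C at *
      generalize (bx w : ℝ) = D at *
      refine c1.trans ?_
      calc |A - B| * b * max |A| |B| ^ (b - 1)
          ≤ (C - D) * b * (7 * D) ^ (b - 1) :=
            mul_le_mul (mul_le_mul_of_nonneg_right c2 c6) c5
              (pow_nonneg c4 _) (mul_nonneg h7 c6)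
        _ = _ := by ring
    have h4 := Finset.sum_le_sum key
    rw [← Finset.mul_sum] at h4
    have h5 : (b * (7 * (bx w : ℝ)) ^ (b - 1)) *
        ∑ p ∈ adm w, ((bx (ins w p.1 p.2) : ℝ) - bx w) ≤ 6 * b * 7 ^ b * (bx w : ℝ) ^ b := by
      calc (b * (7 * (bx w : ℝ)) ^ (b - 1)) * ∑ p ∈ adm w, ((bx (ins w p.1 p.2) : ℝ) - bx w)
          ≤ (b * (7 * (bx w : ℝ)) ^ (b - 1)) * (6 * bx w) :=
            mul_le_mul_of_nonneg_left hB2 (by positivity)
        _ ≤ 6 * b * 7 ^ b * (bx w : ℝ) ^ b := by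
            rcases Nat.eq_zero_or_pos b with rfl | hb
            · simp
            · obtain ⟨j, rfl⟩ : ∃ j, b = j + 1 := ⟨b - 1, by omega⟩
              rw [Nat.add_sub_cancel, mul_pow]
              have e1 : ((j + 1 : ℕ) : ℝ) * (7 ^ j * (bx w : ℝ) ^ j) * (6 * bx w) =
                  6 * ((j + 1 : ℕ) : ℝ) * 7 ^ j * (bx w : ℝ) ^ (j + 1) := by ring
              rw [e1]
              have e2 : (7 : ℝ) ^ j ≤ 7 ^ (j + 1) := pow_le_pow_right₀ (by norm_num) (by omega)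
              gcongr
    have e : ∀ p ∈ adm w, |((wd (ins w p.1 p.2) : ℝ) ^ b + (bx (ins w p.1 p.2) : ℝ) ^ b) -
        ((wd w : ℝ) ^ b + (bx w : ℝ) ^ b)| ≤
        |(wd (ins w p.1 p.2) : ℝ) ^ b - (wd w : ℝ) ^ b| +
          |(bx (ins w p.1 p.2) : ℝ) ^ b - (bx w : ℝ) ^ b| := by
      intro p _
      have e0 : ((wd (ins w p.1 p.2) : ℝ) ^ b + (bx (ins w p.1 p.2) : ℝ) ^ b) -
        ((wd w : ℝ) ^ b + (bx w : ℝ) ^ b) = ((wd (ins w p.1 p.2) : ℝ) ^ b - (wd w : ℝ) ^ b) +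
          ((bx (ins w p.1 p.2) : ℝ) ^ b - (bx w : ℝ) ^ b) := by ring
      rw [e0]
      exact abs_add_le _ _
    have h6 := Finset.sum_le_sum e
    rw [Finset.sum_add_distrib] at h6
    refine h6.trans ?_
    have h7 : (0 : ℝ) ≤ (wd w : ℝ) ^ b := by positivity
    have h8 : (0 : ℝ) ≤ (bx w : ℝ) ^ b := by positivity
    have h9 : (0 : ℝ) ≤ 6 * b * 7 ^ b + 7 ^ b := by positivity
    have h10 : ((1 : ℝ) + 6) ^ b = 7 ^ b := by norm_num
    rw [h10] at h3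
    nlinarith [mul_nonneg h9 h7]

/-! ## the weights -/

/-- the monomial -/
def mon (a b d : ℕ) : List Dir → ℝ := fun w => (ar w : ℝ) ^ a * (wd w : ℝ) ^ b * G w ^ d

/-- the first nice weight -/
def f1 (a b d : ℕ) : List Dir → ℝ :=
  fun w => ((ar w : ℝ) ^ a * G w ^ d) * ((wd w : ℝ) ^ b + (bx w : ℝ) ^ b)

/-- the second nice weight -/
def f2w (a b d : ℕ) : List Dir → ℝ := fun w => ((ar w : ℝ) ^ a * G w ^ d) * (bx w : ℝ) ^ b

lemma nice_f1 (a b d : ℕ) : ∃ (L q : ℝ) (p : ℕ), 0 ≤ L ∧ 0 ≤ q ∧ ∀ m : ℕ, 3 ≤ m →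
    NiceP L q p m (f1 a b d) := by
  refine ⟨_, _, _, ?_, ?_, fun m hm =>
    nice_mul (nice_mul (nice_pow (nice_ar hm) a) (nice_pow (nice_G hm) d)) (nice_wb hm b)⟩
  · have h1 : (1 : ℝ) ≤ (1 + 8) ^ a := one_le_pow₀ (by norm_num)
    have h2 : (1 : ℝ) ≤ (1 + 104) ^ d := one_le_pow₀ (by norm_num)
    have h3 : (0 : ℝ) ≤ 6 * b * 7 ^ b + 7 ^ b := by positivity
    have h4 : (1 : ℝ) ≤ (1 + 8) ^ a * (1 + 104) ^ d := one_le_mul_of_one_le_of_one_le h1 h2
    have e1 : (1 + ((1 + ((1 + (8 : ℝ)) ^ a - 1)) * (1 + ((1 + 104) ^ d - 1)) - 1)) =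
        (1 + 8) ^ a * (1 + 104) ^ d := by ring
    rw [e1]
    nlinarith
  · positivity

lemma nice_f2 (a b d : ℕ) : ∃ (L q : ℝ) (p : ℕ), 0 ≤ L ∧ 0 ≤ q ∧ ∀ m : ℕ, 3 ≤ m →
    NiceP L q p m (f2w a b d) := by
  refine ⟨_, _, _, ?_, ?_, fun m hm =>
    nice_mul (nice_mul (nice_pow (nice_ar hm) a) (nice_pow (nice_G hm) d))
      (nice_pow (nice_bx hm) b)⟩
  · have h1 : (1 : ℝ) ≤ (1 + 8) ^ a := one_le_pow₀ (by norm_num)
    have h2 : (1 : ℝ) ≤ (1 + 104) ^ d := one_le_pow₀ (by norm_num)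
    have h3 : (1 : ℝ) ≤ (1 + 6) ^ b := one_le_pow₀ (by norm_num)
    have h4 : (1 : ℝ) ≤ (1 + 8) ^ a * (1 + 104) ^ d := one_le_mul_of_one_le_of_one_le h1 h2
    have h5 : (1 : ℝ) ≤ (1 + 8) ^ a * (1 + 104) ^ d * (1 + 6) ^ b :=
      one_le_mul_of_one_le_of_one_le h4 h3
    have e1 : (1 + ((1 + ((1 + (8 : ℝ)) ^ a - 1)) * (1 + ((1 + 104) ^ d - 1)) - 1)) *
        (1 + ((1 + 6) ^ b - 1)) - 1 =
        (1 + 8) ^ a * (1 + 104) ^ d * (1 + 6) ^ b - 1 := by ring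
    rw [e1]
    linarith
  · positivity

/-! ## exchange of the coordinates -/

lemma gyr_sw {m : ℕ} (f : ZMod m → ℤ × ℤ) : gyr m (X315.PS.sw f) = gyr m f := by
  unfold gyr X315.PS.sw
  congr 1
  refine finsum_congr fun i => finsum_congr fun j => ?_
  simp only
  ring

lemma swap_av {N : ℕ} (hN : 2 ≤ N) (a b d : ℕ) :
    av N (fun w => (ar w : ℝ) ^ a * (ht w : ℝ) ^ b * G w ^ d) = av N (mon a b d) := by
  have hN' : (0 : ℝ) < N := by
    have : 0 < N := by omega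
    exact_mod_cast this
  have hc : (0 : ℝ) < 8 * (N : ℝ) ^ 2 := by positivity
  set F : (ZMod (2 * N) → ℤ × ℤ) → ℝ := fun f =>
    (area (2 * N) f : ℝ) ^ a * (width (2 * N) f : ℝ) ^ b * gyr (2 * N) f ^ d with hF
  have h1 : me N (fun f => F (fun k => ((f k).2, (f k).1))) = me N F := by
    unfold me
    congr 1
    exact SWAP_proof (2 * N) (by omega) F
  rw [me_av hN, me_av hN] at h1
  have h2 : av N (fun w => F (fun k => ((lp (2 * N) w k).2, (lp (2 * N) w k).1))) =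
      av N (fun w => ((ar w : ℝ) ^ a * (ht w : ℝ) ^ b * G w ^ d) / (8 * (N : ℝ) ^ 2) ^ d) := by
    refine av_congr fun w hw => ?_
    have hl := (CONV_proof N hN).2.2 w hw
    have : NeZero (2 * N) := ⟨by omega⟩
    have e1 : area (2 * N) (fun k => ((lp (2 * N) w k).2, (lp (2 * N) w k).1)) = ar w := by
      have := X315.PS.area_sw (lp (2 * N) w) hl.2.2
      rw [F4x.ar_eq hN hw, ← this]
      rfl
    have e2 : width (2 * N) (fun k => ((lp (2 * N) w k).2, (lp (2 * N) w k).1)) = ht w := by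
      rw [(wd_eq hN hw).2]
      rfl
    have e3 : gyr (2 * N) (fun k => ((lp (2 * N) w k).2, (lp (2 * N) w k).1)) =
        G w / (8 * (N : ℝ) ^ 2) := by
      rw [← gyr_eq hN hw, ← gyr_sw (lp (2 * N) w)]
      rfl
    simp only [hF]
    rw [e1, e2, e3, div_pow]
    ring
  have h3 : av N (fun w => F (lp (2 * N) w)) =
      av N (fun w => mon a b d w / (8 * (N : ℝ) ^ 2) ^ d) := by
    refine av_congr fun w hw => ?_
    simp only [hF]
    unfold mon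
    rw [← F4x.ar_eq hN hw, ← (wd_eq hN hw).1, gyr_eq hN hw, div_pow]
    ring
  rw [h2, h3, av_div, av_div] at h1
  have h4 : (8 * (N : ℝ) ^ 2) ^ d ≠ 0 := (pow_pos hc d).ne'
  exact (div_left_inj' h4).mp h1

lemma f2_le {N : ℕ} (hN : 2 ≤ N) (a b d : ℕ) :
    av N (f2w a b d) ≤ 2 ^ (b + 1) * av N (mon a b d) := by
  have h1 : av N (f2w a b d) ≤ av N (fun w => 2 ^ b * (mon a b d w +
      (ar w : ℝ) ^ a * (ht w : ℝ) ^ b * G w ^ d)) := by
    refine av_le fun w hw => ?_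
    have hG := G_nonneg w
    have h2 : (bx w : ℝ) ^ b ≤ 2 ^ b * ((wd w : ℝ) ^ b + (ht w : ℝ) ^ b) := by
      rw [bx_def]
      push_cast
      have h3 := add_pow_le (Nat.cast_nonneg (wd w) : (0 : ℝ) ≤ wd w)
        (Nat.cast_nonneg (ht w) : (0 : ℝ) ≤ ht w) b
      have h4 : (2 : ℝ) ^ (b - 1) ≤ 2 ^ b := pow_le_pow_right₀ (by norm_num) (by omega)
      refine h3.trans (mul_le_mul_of_nonneg_right h4 (by positivity))
    unfold f2w mon
    calc (ar w : ℝ) ^ a * G w ^ d * (bx w : ℝ) ^ b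
        ≤ (ar w : ℝ) ^ a * G w ^ d * (2 ^ b * ((wd w : ℝ) ^ b + (ht w : ℝ) ^ b)) :=
          mul_le_mul_of_nonneg_left h2 (by positivity)
      _ = _ := by ring
  rw [av_mul, av_add, swap_av hN] at h1
  refine h1.trans (le_of_eq ?_)
  rw [pow_succ]
  ring

lemma f1_eq (N : ℕ) (a b d : ℕ) :
    av N (f1 a b d) = av N (mon a b d) + av N (f2w a b d) := by
  rw [← av_add]
  refine av_congr fun w _ => ?_
  unfold f1 f2w mon
  ring

lemma f2_pos {N : ℕ} (hN : 2 ≤ N) (a b d : ℕ) : 1 ≤ av N (f2w a b d) := by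
  obtain ⟨L, q, p, -, -, h⟩ := nice_f2 a b d
  exact one_le_av hN fun w h1 h2 h3 => (h _ h1).one_le w le_rfl (by omega) h2 h3

lemma mon_pos {N : ℕ} (hN : 2 ≤ N) (a b d : ℕ) : 0 < av N (mon a b d) := by
  have h1 := f2_pos hN a b d
  have h2 := f2_le hN a b d
  by_contra hcon
  push Not at hcon
  have h3 : (0 : ℝ) < 2 ^ (b + 1) := by positivity
  nlinarith

variable [X : Ex]

theorem mon_ratio (a b d : ℕ) : ∃ C : ℝ, ∀ N : ℕ, 2 ≤ N →
    |av (N + 1) (mon a b d) / av N (mon a b d) - 1| ≤ C * rN N := by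
  obtain ⟨L1, q1, p1, hL1, hq1, h1⟩ := nice_f1 a b d
  obtain ⟨L2, q2, p2, hL2, hq2, h2⟩ := nice_f2 a b d
  obtain ⟨C1, hC1⟩ := ratio hq1 p1 hL1
  obtain ⟨C2, hC2⟩ := ratio hq2 p2 hL2
  refine ⟨|C1| * (1 + 2 ^ (b + 1)) + |C2| * 2 ^ (b + 1), fun N hN => ?_⟩
  have g1 := hC1 N (f1 a b d) hN fun m hm _ _ => h1 m hm
  have g2 := hC2 N (f2w a b d) hN fun m hm _ _ => h2 m hm
  have hr := rN_nonneg N
  have g1' := g1.trans (mul_le_mul_of_nonneg_right (le_abs_self C1) hr)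
  have g2' := g2.trans (mul_le_mul_of_nonneg_right (le_abs_self C2) hr)
  have hM := mon_pos hN a b d
  have hF := f2_pos hN a b d
  have hK := f2_le hN a b d
  rw [f1_eq, f1_eq] at g1'
  set M := av N (mon a b d) with hMd
  set M' := av (N + 1) (mon a b d) with hM'd
  set F := av N (f2w a b d) with hFd
  set F' := av (N + 1) (f2w a b d) with hF'd
  have e : M' / M - 1 = (M + F) / M * ((M' + F') / (M + F) - 1) - F / M * (F' / F - 1) := by
    have h3 : M + F ≠ 0 := by linarith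
    have h4 : F ≠ 0 := by linarith
    field_simp
    ring
  have h5 : (M + F) / M ≤ 1 + 2 ^ (b + 1) := by
    rw [div_le_iff₀ hM]
    linarith
  have h6 : F / M ≤ 2 ^ (b + 1) := by
    rw [div_le_iff₀ hM]
    exact hK
  have h7 : 0 ≤ F / M := div_nonneg (by linarith) hM.le
  have h8 : 0 ≤ (M + F) / M := div_nonneg (by linarith) hM.le
  rw [e]
  refine (abs_sub _ _).trans ?_
  rw [abs_mul, abs_mul, abs_of_nonneg h7, abs_of_nonneg h8]
  calc (M + F) / M * |(M' + F') / (M + F) - 1| + F / M * |F' / F - 1|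
      ≤ (1 + 2 ^ (b + 1)) * (|C1| * rN N) + 2 ^ (b + 1) * (|C2| * rN N) := by
        apply add_le_add
        · exact mul_le_mul h5 g1' (abs_nonneg _) (by positivity)
        · exact mul_le_mul h6 g2' (abs_nonneg _) (by positivity)
    _ = _ := by ring

/-- the mixed moment in terms of loops -/
def MM (a b d : ℕ) (N : ℕ) : ℝ := me N (fun f =>
  (area (2 * N) f : ℝ) ^ a * (width (2 * N) f : ℝ) ^ b * gyr (2 * N) f ^ d)

lemma MM_eq {N : ℕ} (hN : 2 ≤ N) (a b d : ℕ) :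
    MM a b d N = av N (mon a b d) / (8 * (N : ℝ) ^ 2) ^ d := by
  unfold MM
  rw [me_av hN, ← av_div]
  refine av_congr fun w hw => ?_
  unfold mon
  rw [← F4x.ar_eq hN hw, ← (wd_eq hN hw).1, gyr_eq hN hw, div_pow]
  ring

lemma MM_pos {N : ℕ} (hN : 2 ≤ N) (a b d : ℕ) : 0 < MM a b d N := by
  rw [MM_eq hN]
  have hN' : (0 : ℝ) < N := by
    have : 0 < N := by omega
    exact_mod_cast this
  exact div_pos (mon_pos hN a b d) (by positivity)

theorem MM_ratio (a b d : ℕ) : ∃ C : ℝ, ∀ N : ℕ, 2 ≤ N →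
    |MM a b d (N + 1) / MM a b d N - 1| ≤ C * rN N := by
  obtain ⟨C, hC⟩ := mon_ratio a b d
  obtain ⟨c9, hc90, hcc⟩ := one_div_le_rN
  refine ⟨|C| + 2 * d * c9, fun N hN => ?_⟩
  have h1 := (hC N hN).trans (mul_le_mul_of_nonneg_right (le_abs_self C) (rN_nonneg N))
  have hN' : (0 : ℝ) < N := by
    have : 0 < N := by omega
    exact_mod_cast this
  rw [MM_eq hN, MM_eq (N := N + 1) (by omega)]
  have hM := mon_pos hN a b d
  set M := av N (mon a b d) with hMd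
  set M' := av (N + 1) (mon a b d) with hM'd
  set t : ℝ := (1 - 1 / ((N : ℝ) + 1)) ^ (2 * d) with ht
  have e : M' / (8 * ((N + 1 : ℕ) : ℝ) ^ 2) ^ d / (M / (8 * (N : ℝ) ^ 2) ^ d) - 1 =
      (M' / M - 1) * t + (t - 1) := by
    have e1 : t = (8 * (N : ℝ) ^ 2) ^ d / (8 * ((N + 1 : ℕ) : ℝ) ^ 2) ^ d := by
      rw [ht, ← div_pow, pow_mul]
      congr 1
      push_cast
      field_simp
      ring
    rw [e1]
    have h3 : (8 * (N : ℝ) ^ 2) ^ d ≠ 0 := by positivity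
    have h4 : (8 * ((N + 1 : ℕ) : ℝ) ^ 2) ^ d ≠ 0 := by positivity
    field_simp
    ring
  have hb : (0 : ℝ) ≤ 1 - 1 / ((N : ℝ) + 1) := by
    rw [sub_nonneg, div_le_one (by linarith)]
    linarith
  have hb1 : 1 - 1 / ((N : ℝ) + 1) ≤ 1 := by
    have : 0 ≤ 1 / ((N : ℝ) + 1) := by positivity
    linarith
  have ht0 : 0 ≤ t := by rw [ht]; positivity
  have ht1 : t ≤ 1 := pow_le_one₀ hb hb1
  have ht2 : 1 - 2 * d * (1 / (N : ℝ)) ≤ t := by
    have h2 := one_add_mul_le_pow (a := -(1 / ((N : ℝ) + 1))) (by linarith) (2 * d)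
    have h3 : 1 / ((N : ℝ) + 1) ≤ 1 / (N : ℝ) := by
      apply one_div_le_one_div_of_le hN'
      linarith
    have h4 : (1 + -(1 / ((N : ℝ) + 1))) ^ (2 * d) = t := by rw [ht]; congr 1
    rw [h4] at h2
    push_cast at h2
    have h5 : (2 * (d : ℝ)) * (1 / ((N : ℝ) + 1)) ≤ 2 * d * (1 / (N : ℝ)) :=
      mul_le_mul_of_nonneg_left h3 (by positivity)
    linarith
  rw [e]
  refine (abs_add_le _ _).trans ?_
  rw [abs_mul, abs_of_nonneg ht0, abs_of_nonpos (show t - 1 ≤ 0 by linarith)]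
  have h5 : |M' / M - 1| * t ≤ |C| * rN N := by
    calc |M' / M - 1| * t ≤ |M' / M - 1| * 1 := mul_le_mul_of_nonneg_left ht1 (abs_nonneg _)
      _ ≤ _ := by rw [mul_one]; exact h1
  have h6 : 2 * d * (1 / (N : ℝ)) ≤ 2 * d * (c9 * rN N) :=
    mul_le_mul_of_nonneg_left (hcc N hN) (by positivity)
  calc |M' / M - 1| * t + -(t - 1) ≤ |C| * rN N + 2 * d * (c9 * rN N) := by linarith
    _ = _ := by ring

/-! ## products of powers -/

/-- the product of real powers of mixed moments and of `n` -/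
def QQ {ι : Type} [Fintype ι] (e : ι → ℕ × ℕ × ℕ) (x : ι → ℝ) (θ : ℝ) (n : ℕ) : ℝ :=
  (n : ℝ) ^ θ * ∏ i, MM (e i).1 (e i).2.1 (e i).2.2 n ^ x i

lemma QQ_pos {ι : Type} [Fintype ι] (e : ι → ℕ × ℕ × ℕ) (x : ι → ℝ) (θ : ℝ) {n : ℕ}
    (hn : 2 ≤ n) : 0 < QQ e x θ n := by
  have hN' : (0 : ℝ) < n := by
    have : 0 < n := by omega
    exact_mod_cast this
  unfold QQ
  exact mul_pos (Real.rpow_pos_of_pos hN' _)
    (Finset.prod_pos fun i _ => Real.rpow_pos_of_pos (MM_pos hn _ _ _) _)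

lemma log_QQ {ι : Type} [Fintype ι] (e : ι → ℕ × ℕ × ℕ) (x : ι → ℝ) (θ : ℝ) {n : ℕ}
    (hn : 2 ≤ n) : Real.log (QQ e x θ n) = θ * Real.log n +
      ∑ i, x i * Real.log (MM (e i).1 (e i).2.1 (e i).2.2 n) := by
  have hN' : (0 : ℝ) < n := by
    have : 0 < n := by omega
    exact_mod_cast this
  unfold QQ
  rw [Real.log_mul (Real.rpow_pos_of_pos hN' _).ne'
    (Finset.prod_pos fun i _ => Real.rpow_pos_of_pos (MM_pos hn _ _ _) _).ne',
    Real.log_rpow hN', Real.log_prod fun i _ => (Real.rpow_pos_of_pos (MM_pos hn _ _ _) _).ne']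
  congr 1
  exact Finset.sum_congr rfl fun i _ => Real.log_rpow (MM_pos hn _ _ _) _

lemma log_step_n : ∃ C : ℝ, 0 ≤ C ∧ ∀ n : ℕ, 2 ≤ n →
    |Real.log ((n + 1 : ℕ) : ℝ) - Real.log n| ≤ C * rN n := by
  obtain ⟨c9, hc90, hcc⟩ := one_div_le_rN
  refine ⟨c9, hc90, fun n hn => ?_⟩
  have hN' : (0 : ℝ) < n := by
    have : 0 < n := by omega
    exact_mod_cast this
  have h1 : 0 ≤ Real.log ((n + 1 : ℕ) : ℝ) - Real.log n := by
    rw [sub_nonneg]
    apply Real.log_le_log hN'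
    push_cast
    linarith
  rw [abs_of_nonneg h1]
  refine le_trans ?_ (hcc n hn)
  rw [← Real.log_div (by positivity) hN'.ne']
  have h2 : ((n + 1 : ℕ) : ℝ) / n = 1 + 1 / n := by
    push_cast
    field_simp
  rw [h2]
  have h3 := Real.log_le_sub_one_of_pos (show (0 : ℝ) < 1 + 1 / n by positivity)
  linarith

lemma MM_step (a b d : ℕ) : ∃ C : ℝ, 0 ≤ C ∧ ∀ᶠ n : ℕ in atTop,
    |Real.log (MM a b d (n + 1)) - Real.log (MM a b d n)| ≤ C * rN n := by
  obtain ⟨C, hC⟩ := MM_ratio a b d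
  refine ⟨2 * |C|, by positivity, ?_⟩
  exact log_step (MM a b d) |C| (abs_nonneg C) (fun n hn => MM_pos hn a b d) fun n hn =>
    (hC n hn).trans (mul_le_mul_of_nonneg_right (le_abs_self C) (rN_nonneg n))

theorem QQ_step {ι : Type} [Fintype ι] (e : ι → ℕ × ℕ × ℕ) (x : ι → ℝ) (θ : ℝ) :
    ∃ C : ℝ, 0 ≤ C ∧ ∀ᶠ n : ℕ in atTop,
      |Real.log (QQ e x θ (n + 1)) - Real.log (QQ e x θ n)| ≤ C * rN n := by
  obtain ⟨C0, hC0, h0⟩ := log_step_n
  have h1 : ∀ i, ∃ C : ℝ, 0 ≤ C ∧ ∀ᶠ n : ℕ in atTop,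
      |Real.log (MM (e i).1 (e i).2.1 (e i).2.2 (n + 1)) -
        Real.log (MM (e i).1 (e i).2.1 (e i).2.2 n)| ≤ C * rN n := fun i => MM_step _ _ _
  choose C hC hCs using h1
  refine ⟨|θ| * C0 + ∑ i, |x i| * C i, add_nonneg (by positivity)
    (Finset.sum_nonneg fun i _ => mul_nonneg (abs_nonneg _) (hC i)), ?_⟩
  filter_upwards [eventually_ge_atTop 2, eventually_all.mpr hCs] with n hn hall
  rw [log_QQ e x θ hn, log_QQ e x θ (by omega : 2 ≤ n + 1)]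
  have e1 : θ * Real.log ((n + 1 : ℕ) : ℝ) +
      ∑ i, x i * Real.log (MM (e i).1 (e i).2.1 (e i).2.2 (n + 1)) -
      (θ * Real.log n + ∑ i, x i * Real.log (MM (e i).1 (e i).2.1 (e i).2.2 n)) =
      θ * (Real.log ((n + 1 : ℕ) : ℝ) - Real.log n) +
        ∑ i, x i * (Real.log (MM (e i).1 (e i).2.1 (e i).2.2 (n + 1)) -
          Real.log (MM (e i).1 (e i).2.1 (e i).2.2 n)) := by
    simp only [mul_sub, Finset.sum_sub_distrib]
    ring
  rw [e1, add_mul, Finset.sum_mul]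
  refine (abs_add_le _ _).trans (add_le_add ?_ ?_)
  · rw [abs_mul, mul_assoc]
    exact mul_le_mul_of_nonneg_left (h0 n hn) (abs_nonneg _)
  · refine (Finset.abs_sum_le_sum_abs _ _).trans (Finset.sum_le_sum fun i _ => ?_)
    rw [abs_mul, mul_assoc]
    exact mul_le_mul_of_nonneg_left (hall i) (abs_nonneg _)

theorem QQ_sparse {ι : Type} [Fintype ι] (e : ι → ℕ × ℕ × ℕ) (x : ι → ℝ) (θ : ℝ)
    (s : ℕ → ℕ) (hs : Tendsto s atTop atTop)
    (hgap : Tendsto (fun k => ((s (k + 1) : ℝ) - s k) * rN (s k)) atTop (𝓝 0)) (c : ℝ)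
    (hc0 : 0 < c) (hc : Tendsto (fun k => QQ e x θ (s k)) atTop (𝓝 c)) :
    Tendsto (QQ e x θ) atTop (𝓝 c) := by
  obtain ⟨C, hC, hst⟩ := QQ_step e x θ
  have h2 : Tendsto (fun k => Real.log (QQ e x θ (s k))) atTop (𝓝 (Real.log c)) :=
    (Real.continuousAt_log hc0.ne').tendsto.comp hc
  have h3 := add_gen (fun n => Real.log (QQ e x θ n)) C hC hst s hs hgap (Real.log c) h2
  have h4 := (Real.continuous_exp.tendsto (Real.log c)).comp h3
  rw [Real.exp_log hc0] at h4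
  refine h4.congr' ?_
  filter_upwards [eventually_ge_atTop 2] with n hn
  exact Real.exp_log (QQ_pos e x θ hn)

end

end Pool.Agent.W387.Q.PM
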