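import Pool.Agent.X315.PolyGyr
import Pool.Agent.W387.Q.AreaLaw
import Pool.Agent.W387.Q.Mom

/-!
# Algebra of nice weights
-/

set_option autoImplicit false
set_option linter.unusedVariables false

namespace Pool.Agent.X315.PN

open Finset Pool.Agent.H976R2 Pool.Agent.H924P Pool.Agent.H739K Pool.Agent.X315.PG
open scoped Classical

noncomputable section

lemma nice_mono {L q L' q' : ℝ} {p p' m : ℕ} {φ : List Dir → ℝ} (h : NiceP L q p m φ)
    (hL : L ≤ L') (hq : q ≤ q') (hq0 : 0 ≤ q') (hp : p ≤ p') : NiceP L' q' p' m φ := by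
  refine ⟨h.one_le, fun w h1 h2 hs hq1 => ?_, fun w h1 h2 hs hq1 => ?_⟩
  · refine (h.le w h1 h2 hs hq1).trans ?_
    have h5 : (1 : ℝ) ≤ (m : ℝ) + 5 := by
      have : (0 : ℝ) ≤ m := Nat.cast_nonneg _
      linarith
    have h6 := pow_le_pow_right₀ h5 hp
    have h7 : 0 ≤ ((m : ℝ) + 5) ^ p := by positivity
    calc q * ((m : ℝ) + 5) ^ p ≤ q' * ((m : ℝ) + 5) ^ p := mul_le_mul_of_nonneg_right hq h7
      _ ≤ _ := mul_le_mul_of_nonneg_left h6 hq0
  · refine (h.lip w h1 h2 hs hq1).trans ?_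
    exact mul_le_mul_of_nonneg_right hL (by linarith [h.one_le w h1 (by omega) hs hq1])

lemma nice_mul {L1 q1 L2 q2 : ℝ} {p1 p2 m : ℕ} {φ ψ : List Dir → ℝ} (h : NiceP L1 q1 p1 m φ)
    (h' : NiceP L2 q2 p2 m ψ) :
    NiceP ((1 + L1) * (1 + L2) - 1) (q1 * q2) (p1 + p2) m (fun w => φ w * ψ w) := by
  refine ⟨fun w h1 h2 hs hq => ?_, fun w h1 h2 hs hq => ?_, fun w h1 h2 hs hq => ?_⟩
  · have a := h.one_le w h1 h2 hs hq
    have b := h'.one_le w h1 h2 hs hq
    nlinarith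
  · have a0 := h.one_le w h1 h2 hs hq
    have b0 := h'.one_le w h1 h2 hs hq
    have a := h.le w h1 h2 hs hq
    have b := h'.le w h1 h2 hs hq
    calc φ w * ψ w ≤ (q1 * ((m : ℝ) + 5) ^ p1) * (q2 * ((m : ℝ) + 5) ^ p2) :=
          mul_le_mul a b (by linarith) (by linarith)
      _ = _ := by rw [pow_add]; ring
  · have a0 := h.one_le w h1 (by omega) hs hq
    have b0 := h'.one_le w h1 (by omega) hs hq
    have a := h.lip w h1 h2 hs hq
    have b := h'.lip w h1 h2 hs hq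
    have hL2 : ∀ p ∈ adm w, |ψ (ins w p.1 p.2) - ψ w| ≤ L2 * ψ w := fun p hp =>
      (Finset.single_le_sum (f := fun p => |ψ (ins w p.1 p.2) - ψ w|)
        (fun _ _ => abs_nonneg _) hp).trans b
    have key : ∀ p ∈ adm w, |φ (ins w p.1 p.2) * ψ (ins w p.1 p.2) - φ w * ψ w| ≤
        (1 + L2) * ψ w * |φ (ins w p.1 p.2) - φ w| + φ w * |ψ (ins w p.1 p.2) - ψ w| := by
      intro p hp
      have e : φ (ins w p.1 p.2) * ψ (ins w p.1 p.2) - φ w * ψ w =
          (φ (ins w p.1 p.2) - φ w) * ψ (ins w p.1 p.2) +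
            φ w * (ψ (ins w p.1 p.2) - ψ w) := by ring
      rw [e]
      refine (abs_add_le _ _).trans ?_
      rw [abs_mul, abs_mul, abs_of_nonneg (show 0 ≤ φ w by linarith)]
      have h3 := hL2 p hp
      have h4 : |ψ (ins w p.1 p.2)| ≤ (1 + L2) * ψ w := by
        have : ψ (ins w p.1 p.2) = ψ w + (ψ (ins w p.1 p.2) - ψ w) := by ring
        rw [this]
        refine (abs_add_le _ _).trans ?_
        rw [abs_of_nonneg (show 0 ≤ ψ w by linarith)]
        linarith
      have h5 := mul_le_mul_of_nonneg_left h4 (abs_nonneg (φ (ins w p.1 p.2) - φ w))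
      linarith
    have h3 := Finset.sum_le_sum key
    rw [Finset.sum_add_distrib, ← Finset.mul_sum, ← Finset.mul_sum] at h3
    have hL20 : 0 ≤ L2 * ψ w := (Finset.sum_nonneg fun _ _ => abs_nonneg _).trans b
    have h4 : (1 + L2) * ψ w * ∑ p ∈ adm w, |φ (ins w p.1 p.2) - φ w| ≤
        (1 + L2) * ψ w * (L1 * φ w) := mul_le_mul_of_nonneg_left a (by nlinarith)
    have h5 : φ w * ∑ p ∈ adm w, |ψ (ins w p.1 p.2) - ψ w| ≤ φ w * (L2 * ψ w) :=
      mul_le_mul_of_nonneg_left b (by linarith)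
    refine h3.trans ((add_le_add h4 h5).trans (le_of_eq ?_))
    ring

lemma nice_pow {L q : ℝ} {p m : ℕ} {φ : List Dir → ℝ} (h : NiceP L q p m φ) (k : ℕ) :
    NiceP ((1 + L) ^ k - 1) (q ^ k) (p * k) m (fun w => φ w ^ k) := by
  induction k with
  | zero =>
    refine ⟨fun w _ _ _ _ => by simp, fun w _ _ _ _ => by simp, fun w _ _ _ _ => by simp⟩
  | succ k ih =>
    have h1 := nice_mul ih h
    have e1 : (1 + ((1 + L) ^ k - 1)) * (1 + L) - 1 = (1 + L) ^ (k + 1) - 1 := by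
      rw [pow_succ]; ring
    have e2 : p * k + p = p * (k + 1) := by ring
    rw [e1, e2, ← pow_succ] at h1
    simpa only [← pow_succ] using h1

lemma nice_add {L q1 q2 : ℝ} {p m : ℕ} {φ ψ : List Dir → ℝ} (h : NiceP L q1 p m φ)
    (h' : NiceP L q2 p m ψ) : NiceP L (q1 + q2) p m (fun w => φ w + ψ w) := by
  refine ⟨fun w h1 h2 hs hq => ?_, fun w h1 h2 hs hq => ?_, fun w h1 h2 hs hq => ?_⟩
  · have a := h.one_le w h1 h2 hs hq
    have b := h'.one_le w h1 h2 hs hq
    linarith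
  · have a := h.le w h1 h2 hs hq
    have b := h'.le w h1 h2 hs hq
    rw [add_mul]
    exact add_le_add a b
  · have a := h.lip w h1 h2 hs hq
    have b := h'.lip w h1 h2 hs hq
    rw [mul_add]
    refine le_trans ?_ (add_le_add a b)
    rw [← Finset.sum_add_distrib]
    refine Finset.sum_le_sum fun p _ => ?_
    have e : φ (ins w p.1 p.2) + ψ (ins w p.1 p.2) - (φ w + ψ w) =
        (φ (ins w p.1 p.2) - φ w) + (ψ (ins w p.1 p.2) - ψ w) := by ring
    rw [e]
    exact abs_add_le _ _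

/-! ## the area -/

lemma ar_le {w : List Dir} (h3 : 3 ≤ w.length) (hs : Saw w) (hq : sq w = 1) :
    (ar w : ℝ) ≤ 4 * ((w.length : ℝ) + 1) ^ 2 := by
  have hl := F2aux.loop_of CONV_proof h3 hs hq
  have h4 : ar w ≤ (2 * (w.length + 1)) ^ 2 := by
    have : NeZero (w.length + 1) := ⟨by omega⟩
    exact all_area hl
  have h5 : (ar w : ℝ) ≤ (2 * ((w.length : ℝ) + 1)) ^ 2 := by exact_mod_cast h4
  nlinarith

lemma le_ar {w : List Dir} (h3 : 3 ≤ w.length) (hs : Saw w) (hq : sq w = 1) :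
    (w.length : ℝ) + 1 ≤ 4 * ar w := by
  have hl := F2aux.loop_of CONV_proof h3 hs hq
  have h4 := X315.PS.le_four_area (by omega) hl
  exact_mod_cast h4

lemma nice_ar {m : ℕ} (hm : 3 ≤ m) : NiceP 8 4 2 m (fun w => (ar w : ℝ)) := by
  refine ⟨fun w h1 h2 hs hq => ?_, fun w h1 h2 hs hq => ?_, fun w h1 h2 hs hq => ?_⟩
  · have h3 := le_ar (hm.trans h1) hs hq
    have h4 : (3 : ℝ) ≤ w.length := by exact_mod_cast hm.trans h1
    linarith
  · have h3 := ar_le (hm.trans h1) hs hq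
    have h4 : (w.length : ℝ) ≤ (m : ℝ) + 4 := by exact_mod_cast h2
    have h5 : (0 : ℝ) ≤ w.length := Nat.cast_nonneg _
    exact h3.trans (mul_le_mul_of_nonneg_left
      (pow_le_pow_left₀ (by positivity) (by linarith) 2) (by norm_num))
  · have h3 := le_ar (hm.trans h1) hs hq
    have h5 : ∀ p ∈ adm w, |(ar (ins w p.1 p.2) : ℝ) - ar w| ≤ 1 := by
      rintro ⟨i, e⟩ hp
      obtain ⟨a1, a2⟩ := AREA_proof w i e (hm.trans h1) hs hq hp
      have b1 : (ar (ins w i e) : ℝ) ≤ ar w + 1 := by exact_mod_cast a1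
      have b2 : (ar w : ℝ) ≤ ar (ins w i e) + 1 := by exact_mod_cast a2
      rw [abs_le]
      constructor <;> simp only <;> linarith
    refine (Finset.sum_le_sum h5).trans ?_
    rw [Finset.sum_const, nsmul_eq_mul, mul_one]
    have h4 : ((adm w).card : ℝ) ≤ 2 * w.length := by exact_mod_cast AA_le w
    linarith

/-! ## the box -/

lemma nice_bx {m : ℕ} (hm : 3 ≤ m) : NiceP 6 4 1 m (fun w => (bx w : ℝ)) := by
  refine ⟨fun w h1 h2 hs hq => ?_, fun w h1 h2 hs hq => ?_, fun w h1 h2 hs hq => ?_⟩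
  · exact_mod_cast F3x.bx_pos w (by omega)
  · have h3 : (bx w : ℝ) ≤ 4 * w.length := by exact_mod_cast F3x.bx_le w
    have h4 : (w.length : ℝ) ≤ (m : ℝ) + 4 := by exact_mod_cast h2
    rw [pow_one]
    linarith
  · obtain ⟨hb1, hb2⟩ := BOX_proof w (by omega) hs hq
    refine le_trans (le_of_eq ?_) hb2
    refine Finset.sum_congr rfl fun p hp => ?_
    have : (bx w : ℝ) ≤ bx (ins w p.1 p.2) := by exact_mod_cast hb1 p hp
    exact abs_of_nonneg (by linarith)

/-! ## the gyration -/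

lemma nice_G {m : ℕ} (hm : 3 ≤ m) : NiceP 104 8 4 m G := by
  refine ⟨fun w h1 h2 hs hq => ?_, fun w h1 h2 hs hq => ?_, fun w h1 h2 hs hq => ?_⟩
  · have h3 := le_G hs
    have h4 : (3 : ℝ) ≤ w.length := by exact_mod_cast hm.trans h1
    nlinarith
  · have h3 := G_le w
    have h4 : (w.length : ℝ) ≤ (m : ℝ) + 4 := by exact_mod_cast h2
    have h5 : (0 : ℝ) ≤ w.length := Nat.cast_nonneg _
    exact h3.trans (mul_le_mul_of_nonneg_left
      (pow_le_pow_left₀ (by positivity) (by linarith) 4) (by norm_num))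
  · obtain ⟨hb1, hb2⟩ := G_lip hs (by omega)
    refine le_trans (le_of_eq ?_) hb2
    refine Finset.sum_congr rfl fun p hp => ?_
    exact abs_of_nonneg (by linarith [hb1 p hp])

end

end Pool.Agent.X315.PN
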