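import Pool.Agent.H739K.SWAP
import Pool.Agent.H739K.All1

/-!
# The area of a lattice polygon does not change when the coordinates are exchanged
-/

set_option autoImplicit false
set_option linter.unusedVariables false

namespace Pool.Agent.X315.PS

open Finset Pool.Agent.H976R2 Pool.Agent.H924P Pool.Agent.H739K

noncomputable section

/-- exchange of the coordinates -/
def sw {m : ℕ} (f : ZMod m → ℤ × ℤ) : ZMod m → ℤ × ℤ := fun k => ((f k).2, (f k).1)

lemma above_par {m : ℕ} [NeZero m] (f : ZMod m → ℤ × ℤ)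
    (hs : ∀ i : ZMod m, |(f (i+1)).1 - (f i).1| + |(f (i+1)).2 - (f i).2| = 1) (a b : ℤ) :
    ((Nat.card {k : ZMod m // Above m f a b k} : ℕ) : ZMod 2) =
      ((Nat.card {k : ZMod m // Above m (sw f) b a k} : ℕ) : ZMod 2) := by
  classical
  rw [Nat.card_eq_fintype_card, Fintype.card_subtype, Nat.card_eq_fintype_card,
    Fintype.card_subtype, Finset.card_filter, Finset.card_filter, Nat.cast_sum, Nat.cast_sum]
  rw [← sub_eq_zero, CharTwo.sub_eq_add, ← Finset.sum_add_distrib]
  let φ : ZMod m → ZMod 2 := fun k => if a < (f k).1 ∧ b < (f k).2 then 1 else 0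
  have h1 : ∀ k, (((if Above m f a b k then 1 else 0 : ℕ)) : ZMod 2) +
      (((if Above m (sw f) b a k then 1 else 0 : ℕ)) : ZMod 2) = φ k + φ (k + 1) := by
    intro k
    have h2 := hs k
    have h3 : |(f (k+1)).1 - (f k).1| ≤ 1 := by
      have := abs_nonneg ((f (k+1)).2 - (f k).2)
      omega
    have h4 : |(f (k+1)).2 - (f k).2| ≤ 1 := by
      have := abs_nonneg ((f (k+1)).1 - (f k).1)
      omega
    have h5 : (f (k+1)).1 = (f k).1 ∨ (f (k+1)).2 = (f k).2 := by
      by_contra hcon
      push Not at hcon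
      have h6 : 1 ≤ |(f (k+1)).1 - (f k).1| := Int.one_le_abs (sub_ne_zero.mpr hcon.1)
      have h7 : 1 ≤ |(f (k+1)).2 - (f k).2| := Int.one_le_abs (sub_ne_zero.mpr hcon.2)
      omega
    rw [abs_le] at h3 h4
    simp only [φ]
    unfold Above sw
    simp only
    by_cases h6 : a < (f k).1 ∧ b < (f k).2 <;>
      by_cases h7 : a < (f (k + 1)).1 ∧ b < (f (k + 1)).2
    · rw [if_pos h6, if_pos h7, if_neg (by omega), if_neg (by omega)]
      decide
    · rw [if_pos h6, if_neg h7]
      by_cases h8 : (f (k+1)).1 = a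
      · rw [if_pos (by omega), if_neg (by omega)]
        decide
      · rw [if_neg (by omega), if_pos (by omega)]
        decide
    · rw [if_neg h6, if_pos h7]
      by_cases h8 : (f k).1 = a
      · rw [if_pos (by omega), if_neg (by omega)]
        decide
      · rw [if_neg (by omega), if_pos (by omega)]
        decide
    · rw [if_neg h6, if_neg h7, if_neg (by omega), if_neg (by omega)]
      decide
  rw [Finset.sum_congr rfl fun k _ => h1 k, Finset.sum_add_distrib]
  have h2 : ∑ k, φ (k + 1) = ∑ k, φ k := Equiv.sum_comp (Equiv.addRight (1 : ZMod m)) φ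
  rw [h2]
  exact CharTwo.add_self_eq_zero _

lemma encl_sw {m : ℕ} [NeZero m] (f : ZMod m → ℤ × ℤ)
    (hs : ∀ i : ZMod m, |(f (i+1)).1 - (f i).1| + |(f (i+1)).2 - (f i).2| = 1) (c : ℤ × ℤ) :
    Encl m (sw f) (c.2, c.1) ↔ Encl m f c := by
  have h := above_par f hs c.1 c.2
  unfold Encl
  simp only
  rw [← ZMod.natCast_eq_one_iff_odd, ← ZMod.natCast_eq_one_iff_odd, h]

/-- the area is invariant -/
lemma area_sw {m : ℕ} [NeZero m] (f : ZMod m → ℤ × ℤ)
    (hs : ∀ i : ZMod m, |(f (i+1)).1 - (f i).1| + |(f (i+1)).2 - (f i).2| = 1) :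
    area m (sw f) = area m f := by
  unfold area
  refine Nat.card_congr ((Equiv.prodComm ℤ ℤ).subtypeEquiv ?_)
  rintro ⟨x, y⟩
  exact encl_sw f hs (y, x)

lemma loop_sw {m : ℕ} {f : ZMod m → ℤ × ℤ} (hf : IsLoop m f) : IsLoop m (sw f) := by
  obtain ⟨h0, hinj, hs⟩ := hf
  refine ⟨?_, ?_, ?_⟩
  · change ((f 0).2, (f 0).1) = 0
    rw [h0]
    rfl
  · intro a b hab
    apply hinj
    have h1 := congrArg Prod.fst hab
    have h2 := congrArg Prod.snd hab
    exact Prod.ext h2 h1
  · intro i
    change |(f (i + 1)).2 - (f i).2| + |(f (i + 1)).1 - (f i).1| = 1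
    rw [add_comm]
    exact hs i

/-- the area is at least a quarter of the perimeter -/
lemma le_four_area {m : ℕ} {f : ZMod m → ℤ × ℤ} (hm : 4 ≤ m) (hf : IsLoop m f) :
    m ≤ 4 * area m f := by
  classical
  have : NeZero m := ⟨by omega⟩
  have h1 := HOR_proof m f hm hf
  have h2 := HOR_proof m (sw f) hm (loop_sw hf)
  rw [area_sw f hf.2.2] at h2
  have h3 : m ≤ Nat.card {k : ZMod m // (f (k + 1)).2 = (f k).2} +
      Nat.card {k : ZMod m // (sw f (k + 1)).2 = (sw f k).2} := by
    rw [Nat.card_eq_fintype_card, Fintype.card_subtype, Nat.card_eq_fintype_card,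
      Fintype.card_subtype]
    have h4 : (univ : Finset (ZMod m)) ⊆ (univ.filter fun k : ZMod m => (f (k + 1)).2 = (f k).2) ∪
        (univ.filter fun k : ZMod m => (sw f (k + 1)).2 = (sw f k).2) := by
      intro k _
      have h2 := hf.2.2 k
      rw [Finset.mem_union, Finset.mem_filter, Finset.mem_filter]
      by_contra hcon
      push Not at hcon
      have h5 : (f (k+1)).2 ≠ (f k).2 := hcon.1 (Finset.mem_univ _)
      have h6 : (f (k+1)).1 ≠ (f k).1 := hcon.2 (Finset.mem_univ _)
      have h7 : 1 ≤ |(f (k+1)).1 - (f k).1| := Int.one_le_abs (sub_ne_zero.mpr h6)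
      have h8 : 1 ≤ |(f (k+1)).2 - (f k).2| := Int.one_le_abs (sub_ne_zero.mpr h5)
      omega
    have h5 := (Finset.card_le_card h4).trans (Finset.card_union_le _ _)
    rwa [Finset.card_univ, ZMod.card] at h5
  omega

end

end Pool.Agent.X315.PS
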