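import Pool.Agent.X315.PolyJoint

/-!
# Convergence of the joint law along sparse sequences
-/

set_option autoImplicit false
set_option linter.unusedVariables false
set_option linter.unusedSectionVars false

namespace Pool.Agent.W387.Q.PJ

open Finset Pool.Agent.H976R2 Pool.Agent.H924P Pool.Agent.H739K Filter Topology MeasureTheory
open Pool.Agent.X315.PG Pool.Agent.X315.PN
open scoped Classical

noncomputable section

/-- the mean of a function of the normalised width, height, area and gyration -/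
def L4 (N : ℕ) (g : ℝ × ℝ × ℝ × ℝ → ℝ) : ℝ := J4 N g (MA N) (MW N) (av N G)

/-- the normalised vector of a word -/
def pt (N : ℕ) (w : List Dir) : ℝ × ℝ × ℝ × ℝ :=
  ((wd w : ℝ) / MW N, (ht w : ℝ) / MW N, (ar w : ℝ) / MA N, G w / av N G)

/-- the joint law -/
def law4 (N : ℕ) : Measure (ℝ × ℝ × ℝ × ℝ) :=
  if 2 ≤ N then (((KP (2 * N - 1)).card : ENNReal))⁻¹ •
    ∑ w ∈ KP (2 * N - 1), Measure.dirac (pt N w)
  else Measure.dirac 0

instance isProb4 (N : ℕ) : IsProbabilityMeasure (law4 N) := by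
  unfold law4
  split_ifs with h
  · constructor
    rw [Measure.smul_apply, Measure.finsetSum_apply]
    simp only [measure_univ, Finset.sum_const, nsmul_eq_mul, mul_one, smul_eq_mul]
    exact ENNReal.inv_mul_cancel (by exact_mod_cast AL.card_ne h) (ENNReal.natCast_ne_top _)
  · infer_instance

lemma L4_eq (N : ℕ) (g : ℝ × ℝ × ℝ × ℝ → ℝ) :
    L4 N g = (∑ w ∈ KP (2 * N - 1), g (pt N w)) / ((KP (2 * N - 1)).card : ℝ) := rfl

lemma integral_law4 {N : ℕ} (hN : 2 ≤ N) (g : ℝ × ℝ × ℝ × ℝ → ℝ) :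
    ∫ x, g x ∂(law4 N) = L4 N g := by
  unfold law4
  rw [if_pos hN, integral_smul_measure, integral_finsetSum_measure, L4_eq]
  · simp only [integral_dirac, ENNReal.toReal_inv, ENNReal.toReal_natCast, smul_eq_mul]
    rw [inv_mul_eq_div]
  · intro w hw
    exact integrable_dirac (by simp)

/-- the joint law as a probability measure -/
def plaw4 (N : ℕ) : ProbabilityMeasure (ℝ × ℝ × ℝ × ℝ) := ⟨law4 N, isProb4 N⟩

/-- in terms of loops -/
lemma L4_me {N : ℕ} (hN : 2 ≤ N) (g : ℝ × ℝ × ℝ × ℝ → ℝ) :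
    L4 N g = me N (fun f => g ((width (2 * N) f : ℝ) / MW N, (height (2 * N) f : ℝ) / MW N,
      (area (2 * N) f : ℝ) / MA N, gyr (2 * N) f / MR N)) := by
  unfold L4 J4
  rw [me_av hN]
  refine av_congr fun w hw => ?_
  have hN' : (0 : ℝ) < N := by
    have : 0 < N := by omega
    exact_mod_cast this
  have hs := G_one hN
  rw [F4x.ar_eq hN hw, (wd_eq hN hw).1, (wd_eq hN hw).2, gyr_eq hN hw, MR_eq hN]
  congr 4
  field_simp

variable [X : Ex]

theorem weak4 (s : ℕ → ℕ) (hs : Tendsto s atTop atTop)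
    (hgap : Tendsto (fun k => ((s (k + 1) : ℝ) - s k) * rN (s k)) atTop (𝓝 0))
    (ν : Measure (ℝ × ℝ × ℝ × ℝ)) [IsProbabilityMeasure ν]
    (h : ∀ g : ℝ × ℝ × ℝ × ℝ → ℝ, Continuous g → (∃ C, ∀ x, |g x| ≤ C) →
      Tendsto (fun k => L4 (s k) g) atTop (𝓝 (∫ x, g x ∂ν)))
    (g : ℝ × ℝ × ℝ × ℝ → ℝ) (hg : Continuous g) (hgb : ∃ C, ∀ x, |g x| ≤ C) :
    Tendsto (fun n => L4 n g) atTop (𝓝 (∫ x, g x ∂ν)) := by
  obtain ⟨K, hK⟩ := joint
  -- the special Lipschitz functions
  have h1 : ∀ g : ℝ × ℝ × ℝ × ℝ → ℝ, (∀ x y, |g x - g y| ≤ dist x y) → (∀ x, |g x| ≤ 1) →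
      Tendsto (fun n => L4 n g) atTop (𝓝 (∫ x, g x ∂ν)) := by
    intro g hgl hg1
    have hcont : Continuous g := by
      have : LipschitzWith 1 g := LipschitzWith.of_dist_le_mul (fun x y => by
        rw [Real.dist_eq, NNReal.coe_one, one_mul]
        exact hgl x y)
      exact this.continuous
    refine add_gen (fun n => L4 n g) |K| (abs_nonneg K) ?_ s hs hgap _ (h g hcont ⟨1, hg1⟩)
    filter_upwards [eventually_ge_atTop 2] with n hn
    exact (hK n hn g hgl hg1).trans (mul_le_mul_of_nonneg_right (le_abs_self K) (rN_nonneg n))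
  -- probability measures
  obtain ⟨νp, hνp⟩ : ∃ νp : ProbabilityMeasure (ℝ × ℝ × ℝ × ℝ),
      (νp : Measure (ℝ × ℝ × ℝ × ℝ)) = ν := ⟨⟨ν, inferInstance⟩, rfl⟩
  have hw : Tendsto plaw4 atTop (𝓝 νp) := by
    rw [tendsto_iff_forall_lipschitz_integral_tendsto]
    rintro f ⟨C, hC⟩ ⟨Λ, hΛ⟩
    obtain ⟨M, hM⟩ : ∃ M : ℝ, M = |C| + (Λ : ℝ) + 1 := ⟨_, rfl⟩
    have hM0 : 0 < M := by rw [hM]; positivity
    have hf0 : ∀ x, |f x - f 0| ≤ M := fun x => by
      have h2 := hC x 0
      rw [Real.dist_eq] at h2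
      have := le_abs_self C
      have h3 : (0 : ℝ) ≤ Λ := Λ.2
      rw [hM]; linarith
    have hfl : ∀ x y, |f x - f y| ≤ M * dist x y := fun x y => by
      have h2 := hΛ.dist_le_mul x y
      rw [Real.dist_eq] at h2
      have h3 : (Λ : ℝ) ≤ M := by
        rw [hM]; have := abs_nonneg C; linarith
      exact h2.trans (mul_le_mul_of_nonneg_right h3 dist_nonneg)
    have h2 := h1 (fun x => (f x - f 0) / M) (fun x y => by
        rw [← sub_div, sub_sub_sub_cancel_right, abs_div, abs_of_pos hM0, div_le_iff₀ hM0]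
        linarith [hfl x y]) (fun x => by
        rw [abs_div, abs_of_pos hM0, div_le_one hM0]
        exact hf0 x)
    have hint : ∀ μ : Measure (ℝ × ℝ × ℝ × ℝ), IsProbabilityMeasure μ → Integrable f μ :=
      fun μ _ => by
      refine Integrable.of_bound hΛ.continuous.aestronglyMeasurable (|f 0| + M)
        (Eventually.of_forall fun x => ?_)
      rw [Real.norm_eq_abs]
      have : f x = f 0 + (f x - f 0) := by ring
      rw [this]
      exact (abs_add_le _ _).trans (by linarith [hf0 x])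
    have hE : ∀ μ : Measure (ℝ × ℝ × ℝ × ℝ), IsProbabilityMeasure μ →
        ∫ x, f x ∂μ = M * (∫ x, (f x - f 0) / M ∂μ) + f 0 := fun μ hμ => by
      rw [integral_div, integral_sub (hint μ hμ) (integrable_const _), integral_const]
      simp only [probReal_univ, smul_eq_mul, one_mul]
      field_simp
      ring
    have h3 : Tendsto (fun n => M * (L4 n (fun x => (f x - f 0) / M)) + f 0) atTop
        (𝓝 (M * (∫ x, (f x - f 0) / M ∂ν) + f 0)) := (h2.const_mul M).add_const _
    rw [← hE ν inferInstance] at h3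
    rw [hνp]
    refine h3.congr' ?_
    filter_upwards [eventually_ge_atTop 2] with n hn
    show _ = ∫ x, f x ∂(law4 n)
    rw [hE (law4 n) (isProb4 n), integral_law4 hn]
  rw [ProbabilityMeasure.tendsto_iff_forall_integral_tendsto] at hw
  obtain ⟨C, hC⟩ := hgb
  have h4 := hw (BoundedContinuousFunction.ofNormedAddCommGroup g hg C (fun x => by
    rw [Real.norm_eq_abs]; exact hC x))
  rw [hνp] at h4
  refine h4.congr' ?_
  filter_upwards [eventually_ge_atTop 2] with n hn
  exact integral_law4 hn g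

end

end Pool.Agent.W387.Q.PJ
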