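import Mathlib

/-!
The regular polygon with `m = 2 M` sides and inradius `ρ`: the upper boundary as a function
and its integral.
-/

set_option autoImplicit false

open Set Filter Topology MeasureTheory Finset
open scoped Real

namespace Pool.Agent.X315.Vit

lemma sum_cos (M : ℕ) (hM : 2 ≤ M) : ∑ k ∈ range M, Real.cos (2 * π * k / M) = 0 := by
  have h1 := (Complex.isPrimitiveRoot_exp M (by omega)).geom_sum_eq_zero (by omega : 1 < M)
  have h2 : ∀ k : ℕ, (Complex.exp (2 * π * Complex.I / M) ^ k).re = Real.cos (2 * π * k / M) := by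
    intro k
    rw [← Complex.exp_nat_mul]
    have : (k : ℂ) * (2 * π * Complex.I / M) = ((2 * π * k / M : ℝ) : ℂ) * Complex.I := by
      push_cast
      ring
    rw [this, Complex.exp_ofReal_mul_I_re]
  have h3 := congrArg Complex.re h1
  rw [Complex.re_sum, Complex.zero_re] at h3
  rw [← h3]
  exact Finset.sum_congr rfl fun k _ => (h2 k).symm

lemma sum_sin_sq (M : ℕ) (hM : 2 ≤ M) :
    ∑ k ∈ range (M - 1), Real.sin (π * (k + 1) / M) ^ 2 = M / 2 := by
  have h1 := sum_cos M hM
  obtain ⟨N, rfl⟩ : ∃ N, M = N + 1 := ⟨M - 1, by omega⟩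
  rw [Finset.sum_range_succ'] at h1
  simp only [Nat.add_sub_cancel]
  have h2 : ∀ k : ℕ, Real.sin (π * (k + 1) / ((N + 1 : ℕ) : ℝ)) ^ 2 =
      1 / 2 - Real.cos (2 * π * ((k + 1 : ℕ) : ℝ) / ((N + 1 : ℕ) : ℝ)) / 2 := by
    intro k
    rw [Real.sin_sq_eq_half_sub]
    congr 3
    push_cast
    ring
  rw [Finset.sum_congr rfl fun k _ => h2 k, Finset.sum_sub_distrib, ← Finset.sum_div,
    ← Finset.sum_div]
  simp only [Finset.sum_const, card_range, nsmul_eq_mul, Nat.cast_zero, mul_zero, zero_div,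
    Real.cos_zero] at h1 ⊢
  push_cast at h1 ⊢
  linarith

/-- The upper boundary of the polygon. -/
noncomputable def prof (M : ℕ) (ρ x : ℝ) : ℝ :=
  max 0 (⨅ j : Fin (M - 1), (ρ + x * Real.cos (π * (j.val + 1) / M)) / Real.sin (π * (j.val + 1) / M))

lemma sin_pos' {M : ℕ} (j : ℕ) (hj : j < M - 1) : 0 < Real.sin (π * (j + 1) / M) := by
  have hM : (0 : ℝ) < M := by
    have : 0 < M := by omega
    exact_mod_cast this
  apply Real.sin_pos_of_pos_of_lt_pi
  · positivity
  · rw [div_lt_iff₀ hM]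
    have : (j : ℝ) + 1 < M := by
      have : j + 1 < M := by omega
      exact_mod_cast this
    exact mul_lt_mul_of_pos_left this Real.pi_pos

lemma prof_nonneg (M : ℕ) (ρ x : ℝ) : 0 ≤ prof M ρ x := le_max_left _ _

lemma prof_cont (M : ℕ) (hM : 2 ≤ M) (ρ : ℝ) : Continuous (prof M ρ) := by
  have : Nonempty (Fin (M - 1)) := ⟨⟨0, by omega⟩⟩
  unfold prof
  refine continuous_const.max ?_
  have e : (fun x : ℝ => ⨅ j : Fin (M - 1), (ρ + x * Real.cos (π * (j.val + 1) / M)) /
      Real.sin (π * (j.val + 1) / M)) = fun x => Finset.univ.inf' Finset.univ_nonempty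
        (fun j : Fin (M - 1) => (ρ + x * Real.cos (π * (j.val + 1) / M)) /
      Real.sin (π * (j.val + 1) / M)) := by
    funext x
    rw [Finset.inf'_univ_eq_ciInf]
  rw [e]
  refine Continuous.finset_inf'_apply _ fun j _ => ?_
  fun_prop

lemma prof_le {M : ℕ} {ρ x : ℝ} (hx : |x| ≤ ρ) (j : ℕ) (hj : j < M - 1) :
    prof M ρ x ≤ (ρ + x * Real.cos (π * (j + 1) / M)) / Real.sin (π * (j + 1) / M) := by
  unfold prof
  refine max_le ?_ ?_
  · refine div_nonneg ?_ (sin_pos' j hj).le
    have h1 := Real.abs_cos_le_one (π * (j + 1) / M)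
    have h2 : |x * Real.cos (π * (j + 1) / M)| ≤ ρ := by
      rw [abs_mul]
      calc |x| * |Real.cos (π * (j + 1) / M)| ≤ |x| * 1 :=
            mul_le_mul_of_nonneg_left h1 (abs_nonneg _)
        _ ≤ ρ := by rwa [mul_one]
    linarith [(abs_le.1 h2).1]
  · exact ciInf_le (f := fun j : Fin (M - 1) => (ρ + x * Real.cos (π * (j.val + 1) / M)) /
      Real.sin (π * (j.val + 1) / M)) (Set.finite_range _).bddBelow ⟨j, hj⟩

lemma le_prof {M : ℕ} (hM : 2 ≤ M) {ρ x y : ℝ}
    (h : ∀ j : ℕ, j < M - 1 → |y| * Real.sin (π * (j + 1) / M) ≤ ρ + x * Real.cos (π * (j + 1) / M)) :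
    |y| ≤ prof M ρ x := by
  have : Nonempty (Fin (M - 1)) := ⟨⟨0, by omega⟩⟩
  refine le_trans ?_ (le_max_right _ _)
  refine le_ciInf fun j => ?_
  rw [le_div_iff₀ (sin_pos' j.val j.isLt)]
  exact h j.val j.isLt

/-- The integral of a line over the piece of the boundary. -/
lemma piece (R θ δ : ℝ) (hs : Real.sin θ ≠ 0) :
    ∫ x in (-(R * Real.cos (θ - δ)))..(-(R * Real.cos (θ + δ))),
      (R * Real.cos δ + x * Real.cos θ) / Real.sin θ =
      2 * R ^ 2 * Real.sin δ * Real.cos δ * Real.sin θ ^ 2 := by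
  have e : ∀ x : ℝ, (R * Real.cos δ + x * Real.cos θ) / Real.sin θ =
      (R * Real.cos δ / Real.sin θ) + (Real.cos θ / Real.sin θ) * x := by
    intro x
    ring
  simp only [e]
  rw [intervalIntegral.integral_add intervalIntegrable_const
    (Continuous.intervalIntegrable (by fun_prop) _ _),
    intervalIntegral.integral_const, intervalIntegral.integral_const_mul, integral_id, smul_eq_mul,
    Real.cos_sub, Real.cos_add]
  have h1 := Real.sin_sq_add_cos_sq θ
  have h2 : Real.cos θ ^ 2 = 1 - Real.sin θ ^ 2 := by linarith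
  field_simp
  ring_nf
  have h3 : Real.cos θ ^ 2 = 1 - Real.sin θ ^ 2 := h2
  simp only [h3]
  ring

theorem integral_prof (M : ℕ) (hM : 2 ≤ M) {ρ : ℝ} (hρ : 0 < ρ) :
    ∫ x in (-ρ)..ρ, prof M ρ x ≤ M * Real.tan (π / (2 * M)) * ρ ^ 2 := by
  have hM0 : (0 : ℝ) < M := by
    have : 0 < M := by omega
    exact_mod_cast this
  have hM2 : (2 : ℝ) ≤ M := by exact_mod_cast hM
  set δ := π / (2 * M) with hδ
  have hδ0 : 0 < δ := by positivity
  have hδ1 : δ < π / 2 := by
    rw [hδ]
    apply div_lt_div_of_pos_left Real.pi_pos (by norm_num)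
    linarith
  have hc : 0 < Real.cos δ := Real.cos_pos_of_mem_Ioo ⟨by linarith, hδ1⟩
  set R := ρ / Real.cos δ with hR
  have hR0 : 0 < R := div_pos hρ hc
  have hRc : R * Real.cos δ = ρ := by rw [hR]; field_simp
  set a : ℕ → ℝ := fun k => -(R * Real.cos (π * k / M + δ)) with ha
  have ha0 : a 0 = -ρ := by
    simp only [ha, Nat.cast_zero, mul_zero, zero_div, zero_add]
    rw [hRc]
  have haM : a (M - 1) = ρ := by
    have e : π * ((M - 1 : ℕ) : ℝ) / M + δ = π - δ := by
      rw [Nat.cast_sub (by omega), hδ]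
      field_simp
      push_cast
      ring
    simp only [ha]
    rw [e, Real.cos_pi_sub, mul_neg, neg_neg, hRc]
  have hmono : ∀ k, k < M - 1 → a k ≤ a (k + 1) := by
    intro k hk
    simp only [ha]
    rw [neg_le_neg_iff]
    refine mul_le_mul_of_nonneg_left ?_ hR0.le
    refine Real.cos_le_cos_of_nonneg_of_le_pi (by positivity) ?_ ?_
    · have : ((k + 1 : ℕ) : ℝ) ≤ M - 1 := by
        have h1 : k + 1 ≤ M - 1 := by omega
        have h2 : ((k + 1 : ℕ) : ℝ) ≤ ((M - 1 : ℕ) : ℝ) := by exact_mod_cast h1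
        rwa [Nat.cast_sub (by omega), Nat.cast_one] at h2
      have h3 : π * ((k + 1 : ℕ) : ℝ) / M ≤ π * (M - 1) / M :=
        div_le_div_of_nonneg_right (mul_le_mul_of_nonneg_left this Real.pi_pos.le) hM0.le
      have h4 : π * (M - 1) / M = π - 2 * δ := by
        rw [hδ]
        field_simp
      linarith
    · have : π * (k : ℝ) / M ≤ π * ((k + 1 : ℕ) : ℝ) / M := by
        refine div_le_div_of_nonneg_right (mul_le_mul_of_nonneg_left ?_ Real.pi_pos.le) hM0.le
        push_cast
        linarith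
      linarith
  have hpint : ∀ x y : ℝ, IntervalIntegrable (prof M ρ) volume x y := fun x y =>
    (prof_cont M hM ρ).intervalIntegrable x y
  have hsum := intervalIntegral.sum_integral_adjacent_intervals (μ := volume) (f := prof M ρ)
    (a := a) (n := M - 1) fun k _ => hpint _ _
  rw [ha0, haM] at hsum
  rw [← hsum]
  have hrange : ∀ k, k ≤ M - 1 → |a k| ≤ ρ := by
    intro k hk
    have h1 : a 0 ≤ a k := by
      have : ∀ j, j ≤ k → a 0 ≤ a j := by
        intro j
        induction j with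
        | zero => intro _; exact le_rfl
        | succ j ih => intro hj; exact (ih (by omega)).trans (hmono j (by omega))
      exact this k le_rfl
    have h2 : a k ≤ a (M - 1) := by
      obtain ⟨d, hd⟩ : ∃ d, M - 1 = k + d := ⟨M - 1 - k, by omega⟩
      have : ∀ j, j ≤ d → a k ≤ a (k + j) := by
        intro j
        induction j with
        | zero => intro _; exact le_rfl
        | succ j ih => intro hj; exact (ih (by omega)).trans (hmono (k + j) (by omega))
      rw [hd]
      exact this d le_rfl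
    rw [ha0] at h1
    rw [haM] at h2
    exact abs_le.2 ⟨h1, h2⟩
  have hterm : ∀ k ∈ range (M - 1), ∫ x in (a k)..(a (k + 1)), prof M ρ x ≤
      2 * R ^ 2 * Real.sin δ * Real.cos δ * Real.sin (π * (k + 1) / M) ^ 2 := by
    intro k hk
    have hk' := Finset.mem_range.1 hk
    have hs := sin_pos' k hk'
    rw [← piece R (π * (k + 1) / M) δ hs.ne']
    have e1 : a k = -(R * Real.cos (π * (k + 1) / M - δ)) := by
      simp only [ha]
      congr 3
      rw [hδ]
      field_simp
      ring
    have e2 : a (k + 1) = -(R * Real.cos (π * (k + 1) / M + δ)) := by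
      simp only [ha]
      push_cast
      rfl
    rw [← e1, ← e2]
    refine intervalIntegral.integral_mono_on (hmono k hk') (hpint _ _) ?_ ?_
    · exact Continuous.intervalIntegrable (by fun_prop) _ _
    · intro x hx
      rw [hRc]
      refine prof_le ?_ k hk'
      have h1 := abs_le.1 (hrange k (by omega))
      have h2 := abs_le.1 (hrange (k + 1) (by omega))
      exact abs_le.2 ⟨h1.1.trans hx.1, hx.2.trans h2.2⟩
  refine (Finset.sum_le_sum hterm).trans ?_
  rw [← Finset.mul_sum, sum_sin_sq M hM]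
  have e : 2 * R ^ 2 * Real.sin δ * Real.cos δ * (M / 2 : ℝ) = M * Real.tan δ * ρ ^ 2 := by
    rw [Real.tan_eq_sin_div_cos, ← hRc]
    field_simp
  rw [e]

end Pool.Agent.X315.Vit
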