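import Pool.Agent.TH845.Vit.Emb

/-!
Embedding a set lying over a planar region `|y| ≤ h x`, `|x| ≤ α` of area less than `π r²` in the
symplectic plane of two functionals symplectically into a cylinder of radius `r`.
-/

set_option autoImplicit false

open Set Filter Topology MeasureTheory
open scoped Matrix

namespace Pool.Agent.X315.Vit

open Pool.Agent.H912R3 Pool.Agent.TH845.Vit

variable {n : ℕ}

/-- a slightly larger interval and a polynomial profile -/
theorem exists_poly {c α : ℝ} {h : ℝ → ℝ} (hα : 0 < α)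
    (hh : Continuous h) (ha : ∫ x in (-α)..α, h x < c) :
    ∃ (R : ℝ) (p : Polynomial ℝ), α < R ∧ (∀ x ∈ Icc (-R) R, h x < p.eval x) ∧
      ∫ x in (-R)..R, p.eval x < c := by
  have hint : ∀ a b : ℝ, IntervalIntegrable h volume a b := fun a b => hh.intervalIntegrable a b
  have hcont : Continuous (fun x : ℝ => ∫ t in (-x)..x, h t) := by
    have e : (fun x : ℝ => ∫ t in (-x)..x, h t) =
        fun x => (∫ t in (0 : ℝ)..x, h t) - ∫ t in (0 : ℝ)..(-x), h t := by
      funext x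
      rw [intervalIntegral.integral_interval_sub_left (hint _ _) (hint _ _)]
    rw [e]
    have hp : Continuous (fun x : ℝ => ∫ t in (0 : ℝ)..x, h t) :=
      intervalIntegral.continuous_primitive hint 0
    exact hp.sub (hp.comp continuous_neg)
  obtain ⟨R, hR1, hR2⟩ : ∃ R, α < R ∧ ∫ t in (-R)..R, h t < c := by
    have h1 : ∀ᶠ x in 𝓝[>] α, ∫ t in (-x)..x, h t < c :=
      (hcont.tendsto α).eventually_lt_const ha |>.filter_mono nhdsWithin_le_nhds
    have h2 : ∀ᶠ x in 𝓝[>] α, α < x := self_mem_nhdsWithin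
    obtain ⟨R, h3, h4⟩ := (h1.and h2).exists
    exact ⟨R, h4, h3⟩
  have hR0 : 0 < R := hα.trans hR1
  set ε := (c - ∫ t in (-R)..R, h t) / (8 * R) with hε
  have hε0 : 0 < ε := div_pos (by linarith) (by linarith)
  obtain ⟨p, hp⟩ := exists_polynomial_near_of_continuousOn (-R) R (fun x => h x + ε)
    (hh.add continuous_const).continuousOn ε hε0
  refine ⟨R, p, hR1, ?_, ?_⟩
  · intro x hx
    have := abs_lt.1 (hp x hx)
    linarith [this.1]
  · have h1 : ∫ x in (-R)..R, p.eval x ≤ ∫ x in (-R)..R, (h x + 2 * ε) := by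
      refine intervalIntegral.integral_mono_on (by linarith)
        (p.continuous.intervalIntegrable _ _)
        ((hh.add continuous_const).intervalIntegrable _ _) ?_
      intro x hx
      have := abs_lt.1 (hp x hx)
      linarith [this.2]
    rw [intervalIntegral.integral_add (hint _ _) (intervalIntegrable_const),
      intervalIntegral.integral_const, smul_eq_mul] at h1
    have h2 : (R - -R) * (2 * ε) = (c - ∫ t in (-R)..R, h t) / 2 := by
      rw [hε]
      field_simp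
      ring
    rw [h2] at h1
    linarith

/-- The planar map over a profile. -/
theorem exists_planar_profile {r α : ℝ} {h : ℝ → ℝ} (hr : 0 < r) (hα : 0 < α)
    (hh : Continuous h) (h0 : ∀ x, 0 ≤ h x) (ha : ∫ x in (-α)..α, h x < Real.pi * r ^ 2 / 2) :
    ∃ (R : ℝ) (F G : ℝ → ℝ), α < R ∧ InjOn F (Ioo (-R) R) ∧
      (∀ q ∈ Ioo (-R) R, ContDiffAt ℝ ((⊤ : ℕ∞) : WithTop ℕ∞) F q ∧
        ContDiffAt ℝ ((⊤ : ℕ∞) : WithTop ℕ∞) G q ∧
        0 < G q ∧ HasDerivAt F (1 / G q) q ∧ F q ^ 2 + (h q * G q) ^ 2 < r ^ 2) := by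
  obtain ⟨R, p, hR, hp, hT⟩ := exists_poly hα hh ha
  have hR0 : 0 < R := hα.trans hR
  set T := ∫ x in (-R)..R, p.eval x with hTdef
  set A : ℝ → ℝ := fun q => (∫ x in (-R)..q, p.eval x) - T / 2 with hA
  have hpcd : ContDiff ℝ ((⊤ : ℕ∞) : WithTop ℕ∞) (fun q : ℝ => p.eval q) := by
    have := p.contDiff_aeval (𝕜 := ℝ) ((⊤ : ℕ∞) : WithTop ℕ∞)
    simpa [Polynomial.coe_aeval_eq_eval] using this
  have hder : ∀ q, HasDerivAt A (p.eval q) q := by
    intro q
    have h1 : HasDerivAt (fun q => ∫ x in (-R)..q, p.eval x) (p.eval q) q :=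
      intervalIntegral.integral_hasDerivAt_right (p.continuous.intervalIntegrable _ _)
        (p.continuous.stronglyMeasurableAtFilter _ _) p.continuous.continuousAt
    exact h1.sub_const _
  have hAcd : ContDiff ℝ ((⊤ : ℕ∞) : WithTop ℕ∞) A := by
    rw [contDiff_infty_iff_deriv]
    refine ⟨fun q => (hder q).differentiableAt, ?_⟩
    have : deriv A = fun q => p.eval q := funext fun q => (hder q).deriv
    rw [this]
    exact hpcd
  have hpos : ∀ q ∈ Icc (-R) R, 0 < p.eval q := fun q hq => (h0 q).trans_lt (hp q hq)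
  have hmono : StrictMonoOn A (Icc (-R) R) := by
    refine strictMonoOn_of_deriv_pos (convex_Icc _ _) hAcd.continuous.continuousOn ?_
    intro q hq
    rw [interior_Icc] at hq
    rw [(hder q).deriv]
    exact hpos q (Ioo_subset_Icc_self hq)
  have hA1 : A (-R) = -(T / 2) := by
    simp [hA]
  have hA2 : A R = T / 2 := by
    simp only [hA]
    rw [← hTdef]
    ring
  have hmaps : ∀ q ∈ Ioo (-R) R, A q ∈ Ioo (-(T / 2)) (T / 2) := by
    intro q hq
    have h1 := hmono (left_mem_Icc.2 (by linarith)) (Ioo_subset_Icc_self hq) hq.1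
    have h2 := hmono (Ioo_subset_Icc_self hq) (right_mem_Icc.2 (by linarith)) hq.2
    rw [hA1] at h1
    rw [hA2] at h2
    exact ⟨h1, h2⟩
  have hT0 : 0 < T / 2 := by
    have := hmaps 0 ⟨by linarith, hR0⟩
    linarith [this.1.trans this.2]
  obtain ⟨R', F0, G0, hR', hinj, hF0⟩ := exists_planar hr hT0 (by linarith : T / 2 < Real.pi * r ^ 2 / 4)
  have hmaps' : ∀ q ∈ Ioo (-R) R, A q ∈ Ioo (-R') R' := by
    intro q hq
    have := hmaps q hq
    exact ⟨by linarith [this.1], by linarith [this.2]⟩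
  refine ⟨R, fun q => F0 (A q), fun q => G0 (A q) / p.eval q, hR, ?_, ?_⟩
  · intro q hq q' hq' he
    have h1 := hinj (hmaps' q hq) (hmaps' q' hq') he
    exact hmono.injOn (Ioo_subset_Icc_self hq) (Ioo_subset_Icc_self hq') h1
  · intro q hq
    obtain ⟨h1, h2, h3, h4, h5⟩ := hF0 (A q) (hmaps' q hq)
    have hq0 := hpos q (Ioo_subset_Icc_self hq)
    refine ⟨h1.comp q hAcd.contDiffAt, (h2.comp q hAcd.contDiffAt).div hpcd.contDiffAt hq0.ne',
      div_pos h3 hq0, ?_, ?_⟩
    · have h6 := h4.comp q (hder q)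
      refine h6.congr_deriv ?_
      field_simp
    · have h7 : (h q * (G0 (A q) / p.eval q)) ^ 2 ≤ G0 (A q) ^ 2 := by
        have h8 : h q * (G0 (A q) / p.eval q) = h q / p.eval q * G0 (A q) := by ring
        have h9 : 0 ≤ h q / p.eval q := div_nonneg (h0 q) hq0.le
        have h10 : h q / p.eval q ≤ 1 := (div_le_one hq0).2 (hp q (Ioo_subset_Icc_self hq)).le
        rw [h8]
        have h11 : 0 ≤ h q / p.eval q * G0 (A q) := mul_nonneg h9 h3.le
        have h12 : h q / p.eval q * G0 (A q) ≤ G0 (A q) := by nlinarith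
        exact pow_le_pow_left₀ h11 h12 2
      linarith

/-- Embedding in a cylinder of a set over a planar region. -/
theorem inCyl_profile (i : Fin n) {K : Set (Ph n)} {a u w : Ph n} {α r : ℝ} {h : ℝ → ℝ}
    (hr : 0 < r) (hα : 0 < α) (hh : Continuous h) (h0 : ∀ x, 0 ≤ h x)
    (har : ∫ x in (-α)..α, h x < Real.pi * r ^ 2 / 2) (huw : om u w = 1)
    (hu : ∀ z ∈ K, |pr u (z - a)| ≤ α) (hw : ∀ z ∈ K, |pr w (z - a)| ≤ h (pr u (z - a))) :
    InCyl K r := by
  obtain ⟨R, F, G, hR, hFinj, hFG⟩ := exists_planar_profile hr hα hh h0 har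
  obtain ⟨S, hS, hSc⟩ := exists_symp i huw
  have hxi : (Pi.single i (1 : ℝ) : Fin n → ℝ) i ≠ 0 := by simp
  have hxx : (Pi.single i (1 : ℝ) : Fin n → ℝ) ⬝ᵥ Pi.single i 1 = 1 := by
    rw [single_dot]; simp
  have hS1 : ∀ z : Ph n, (Pi.single i (1 : ℝ) : Fin n → ℝ) ⬝ᵥ ((S (z - a)).1 - 0) =
      pr u (z - a) := by
    intro z
    rw [single_dot, sub_zero, (hSc _).1]
  set A : Ph n → Ph n := fun z => S (z - a) with hA
  set Sc : Ph n →L[ℝ] Ph n := LinearMap.toContinuousLinearMap S with hSc'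
  have hAd : ∀ z : Ph n, HasFDerivAt A Sc z := by
    intro z
    have h1 : HasFDerivAt (fun z : Ph n => z - a) (ContinuousLinearMap.id ℝ (Ph n)) z :=
      (hasFDerivAt_id z).sub_const a
    exact Sc.hasFDerivAt.comp z h1
  have hAsm : ContDiff ℝ ((⊤ : ℕ∞) : WithTop ℕ∞) A :=
    Sc.contDiff.comp (contDiff_id.sub contDiff_const)
  have hcont : Continuous (fun z : Ph n => pr u (z - a)) := by
    unfold pr
    fun_prop
  have hz1 : ∀ z : Ph n, pr u (z - a) ∈ Ioo (-R) R →
      (Pi.single i (1 : ℝ) : Fin n → ℝ) ⬝ᵥ ((A z).1 - 0) ∈ Ioo (-R) R := by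
    intro z hz
    rw [hA]
    change (Pi.single i (1 : ℝ) : Fin n → ℝ) ⬝ᵥ ((S (z - a)).1 - 0) ∈ Ioo (-R) R
    rw [hS1]
    exact hz
  refine ⟨{z | pr u (z - a) ∈ Ioo (-R) R}, isOpen_Ioo.preimage hcont, ?_,
    fun z => pm i F G (A z), ⟨?_, ?_, ?_⟩, i, ?_⟩
  · intro z hz
    have h1 := abs_le.1 (hu z hz)
    exact ⟨by linarith [h1.1], by linarith [h1.2]⟩
  · intro z hz
    have h2 := hFG _ (hz1 z hz)
    have h3 : ContDiffAt ℝ ((⊤ : ℕ∞) : WithTop ℕ∞) (pm i F G) (A z) :=
      smap_diffAt h2.1 h2.2.1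
    exact (h3.comp z hAsm.contDiffAt).contDiffWithinAt
  · have h4 := smap_injOn (a := 0) (b := 0) hxi hxx hFinj fun q hq => (hFG q hq).2.2.1
    intro z hz z' hz' hzz
    have h5 : A z = A z' := h4 (hz1 z hz) (hz1 z' hz') hzz
    have h6 := hS.injective h5
    have h7 : z - a = z' - a := h6
    exact sub_left_injective h7
  · intro z hz v w'
    obtain ⟨h1, h2, h3, h4, -⟩ := hFG _ (hz1 z hz)
    have hp : ContDiffAt ℝ 1 (pm i F G) (A z) :=
      smap_diffAt (h1.of_le (by exact_mod_cast le_top)) (h2.of_le (by exact_mod_cast le_top))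
    have hpd := (hp.differentiableAt one_ne_zero).hasFDerivAt
    have hcomp := hpd.comp z (hAd z)
    have e1 : fderiv ℝ (fun z => pm i F G (A z)) z = (fderiv ℝ (pm i F G) (A z)).comp Sc :=
      hcomp.fderiv
    rw [e1]
    simp only [ContinuousLinearMap.comp_apply]
    have e2 := smap_symp (a := 0) (b := 0) hxi hxx (h1.of_le (by exact_mod_cast le_top))
      (h2.of_le (by exact_mod_cast le_top)) h3.ne' h4 (Sc v) (Sc w')
    have e3 : om (fderiv ℝ (pm i F G) (A z) (Sc v)) (fderiv ℝ (pm i F G) (A z) (Sc w')) =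
        om (Sc v) (Sc w') := e2
    rw [e3]
    exact hS v w'
  · intro z hz
    have h1 := abs_le.1 (hu z hz)
    have hz' : pr u (z - a) ∈ Ioo (-R) R := ⟨by linarith [h1.1], by linarith [h1.2]⟩
    obtain ⟨-, -, h3, -, h5⟩ := hFG _ hz'
    have h6 := hw z hz
    have h7 : (pr w (z - a) * G (pr u (z - a))) ^ 2 ≤
        (h (pr u (z - a)) * G (pr u (z - a))) ^ 2 := by
      rw [mul_pow, mul_pow, ← sq_abs (pr w (z - a))]
      exact mul_le_mul_of_nonneg_right (pow_le_pow_left₀ (abs_nonneg _) h6 2) (sq_nonneg _)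
    have e1 : (pm i F G (A z)).1 i = F (pr u (z - a)) := by
      unfold pm smap
      simp only [if_true]
      rw [hA]
      change F ((Pi.single i (1 : ℝ) : Fin n → ℝ) ⬝ᵥ ((S (z - a)).1 - 0)) = _
      rw [hS1]
    have e2 : (pm i F G (A z)).2 i = pr w (z - a) * G (pr u (z - a)) := by
      unfold pm smap
      simp only [if_true]
      rw [hA]
      change ((Pi.single i (1 : ℝ) : Fin n → ℝ) ⬝ᵥ ((S (z - a)).2 - 0)) *
        G ((Pi.single i (1 : ℝ) : Fin n → ℝ) ⬝ᵥ ((S (z - a)).1 - 0)) = _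
      rw [hS1, single_dot, sub_zero, (hSc _).2]
    change ((pm i F G (A z)).1 i) ^ 2 + ((pm i F G (A z)).2 i) ^ 2 < r ^ 2
    rw [e1, e2]
    linarith

end Pool.Agent.X315.Vit
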