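import Pool.Agent.X315.VitProf
import Pool.Agent.X315.VitPoly
import Pool.Agent.TH845.Vit.Sym
import Pool.Agent.Y507.Vit.Ell

/-!
Convex bodies of `ℂⁿ` which are invariant under the multiplication by `exp (π i / M)`: the
cylindrical capacity and the volume.
-/

set_option autoImplicit false

open Set Filter Topology MeasureTheory
open scoped Matrix Real

namespace Pool.Agent.X315.Vit

open Pool.Agent.TH845.Vit

variable {n : ℕ}

/-- The multiplication by `cos t + i sin t`. -/
noncomputable def rot (t : ℝ) (z : Ph n) : Ph n := Real.cos t • z + Real.sin t • J z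

lemma J_add (x y : Ph n) : J (x + y) = J x + J y := by
  unfold J
  ext i <;> simp [add_comm]

lemma J_smul (c : ℝ) (x : Ph n) : J (c • x) = c • J x := by
  unfold J
  ext i <;> simp

lemma J_J (x : Ph n) : J (J x) = -x := by
  unfold J
  ext i <;> simp

lemma rot_rot (s t : ℝ) (z : Ph n) : rot s (rot t z) = rot (s + t) z := by
  unfold rot
  rw [J_add, J_smul, J_smul, J_J, Real.cos_add, Real.sin_add]
  module

lemma rot_pi (z : Ph n) : rot π z = -z := by
  unfold rot
  rw [Real.cos_pi, Real.sin_pi]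
  module

lemma pr_add_r (u a b : Ph n) : pr u (a + b) = pr u a + pr u b := by
  unfold pr
  rw [← Finset.sum_add_distrib]
  refine Finset.sum_congr rfl fun i _ => ?_
  simp only [Prod.fst_add, Prod.snd_add, Pi.add_apply]
  ring

lemma pr_J_J (u z : Ph n) : pr (J u) (J z) = pr u z := by
  unfold pr J
  refine Finset.sum_congr rfl fun i _ => ?_
  simp only [Pi.neg_apply]
  ring

lemma pr_J_left (u z : Ph n) : pr (J u) z = -pr u (J z) := by
  have h := pr_J_J u (J z)
  rw [J_J, pr_neg_right] at h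
  linarith

lemma pr_rot_left (t : ℝ) (u z : Ph n) :
    pr (rot t u) z = Real.cos t * pr u z + Real.sin t * pr (J u) z := by
  unfold rot
  rw [pr_comm, pr_add_r, pr_smul_right, pr_smul_right, pr_comm z u, pr_comm z (J u)]

lemma pr_rot_adj (t : ℝ) (u z : Ph n) : pr (rot t u) z = pr u (rot (-t) z) := by
  rw [pr_rot_left]
  unfold rot
  rw [pr_add_r, pr_smul_right, pr_smul_right, Real.cos_neg, Real.sin_neg, pr_J_left]
  ring

lemma pr_cs (u z : Ph n) : pr u z ^ 2 ≤ pr u u * pr z z := by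
  rw [← dot_ev, ← dot_ev, ← dot_ev]
  have h := Finset.sum_mul_sq_le_sq_mul_sq Finset.univ (ev n u) (ev n z)
  simp only [dotProduct, ← sq]
  simpa only [dotProduct] using h

lemma pr_self_nonneg (u : Ph n) : 0 ≤ pr u u := by
  unfold pr
  exact Finset.sum_nonneg fun i _ => add_nonneg (mul_self_nonneg _) (mul_self_nonneg _)

lemma rot_mem {K : Set (Ph n)} {t : ℝ} (h : ∀ z ∈ K, rot t z ∈ K) (k : ℕ) {z : Ph n} (hz : z ∈ K) :
    rot (k * t) z ∈ K := by
  induction k with
  | zero =>
    have : rot (((0 : ℕ) : ℝ) * t) z = z := by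
      unfold rot
      simp
    rwa [this]
  | succ k ih =>
    have : rot (((k + 1 : ℕ) : ℝ) * t) z = rot t (rot (k * t) z) := by
      rw [rot_rot]
      congr 1
      push_cast
      ring
    rw [this]
    exact h _ ih

lemma sphere_bound {u : Ph n} (hu : pr u u = 1) : ‖u‖ ≤ 1 := by
  have h1 : ∀ i, (u.1 i) ^ 2 + (u.2 i) ^ 2 ≤ 1 := by
    intro i
    rw [← hu]
    unfold pr
    have := Finset.single_le_sum (f := fun i => u.1 i * u.1 i + u.2 i * u.2 i)
      (fun i _ => add_nonneg (mul_self_nonneg _) (mul_self_nonneg _)) (Finset.mem_univ i)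
    simpa [sq] using this
  rw [Prod.norm_def]
  refine max_le ?_ ?_
  · refine (pi_norm_le_iff_of_nonneg zero_le_one).2 fun i => ?_
    rw [Real.norm_eq_abs]
    exact abs_le_one_iff_mul_self_le_one.2 (by nlinarith [h1 i, sq_nonneg (u.2 i)])
  · refine (pi_norm_le_iff_of_nonneg zero_le_one).2 fun i => ?_
    rw [Real.norm_eq_abs]
    exact abs_le_one_iff_mul_self_le_one.2 (by nlinarith [h1 i, sq_nonneg (u.1 i)])

lemma pr_cont : Continuous fun p : Ph n × Ph n => pr p.1 p.2 := by
  unfold pr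
  fun_prop

/-- A direction of smallest width and the inscribed ball. -/
theorem exists_width (hn : 0 < n) {K : Set (Ph n)} (h : CB K) :
    ∃ (u : Ph n) (ρ : ℝ), pr u u = 1 ∧ 0 < ρ ∧ (∀ z ∈ K, |pr u z| ≤ ρ) ∧
      ∀ z : Ph n, pr z z ≤ ρ ^ 2 → z ∈ K := by
  obtain ⟨hk, hc, hi, hs⟩ := id h
  have hne : K.Nonempty := hi.mono interior_subset
  set g : Ph n → ℝ := fun u => sSup (pr u '' K) with hg
  have hgc : Continuous g := hk.continuous_sSup pr_cont
  have hbd : ∀ u, BddAbove (pr u '' K) := fun u =>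
    (hk.image (pr_cont.comp (Continuous.prodMk_right u))).bddAbove
  have hgle : ∀ u, ∀ z ∈ K, pr u z ≤ g u := fun u z hz => le_csSup (hbd u) ⟨z, hz, rfl⟩
  have hScl : IsClosed {u : Ph n | pr u u = 1} :=
    isClosed_eq (pr_cont.comp (continuous_id.prodMk continuous_id)) continuous_const
  have hSc : IsCompact {u : Ph n | pr u u = 1} := by
    refine (isCompact_closedBall (0 : Ph n) 1).of_isClosed_subset hScl ?_
    intro u hu
    rw [mem_closedBall_zero_iff]
    exact sphere_bound hu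
  have hSne : {u : Ph n | pr u u = 1}.Nonempty := by
    refine ⟨(Pi.single ⟨0, hn⟩ 1, 0), ?_⟩
    show pr _ _ = 1
    unfold pr
    simp [Pi.single_apply]
  obtain ⟨u, hu, hmin⟩ := hSc.exists_isMinOn hSne hgc.continuousOn
  have hu1 : pr u u = 1 := hu
  have hpos : 0 < g u := by
    obtain ⟨x, hx⟩ := hi
    obtain ⟨ε, hε, hball⟩ := Metric.isOpen_iff.1 isOpen_interior x hx
    have h1 : x + (ε / 2) • u ∈ K := by
      refine interior_subset (hball ?_)
      rw [Metric.mem_ball, dist_eq_norm, add_sub_cancel_left, norm_smul, Real.norm_eq_abs,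
        abs_of_pos (by linarith)]
      have := sphere_bound hu1
      nlinarith [norm_nonneg u]
    have h2 := hgle u _ h1
    have h3 := hgle u _ (hs x (interior_subset hx))
    rw [pr_add_r, pr_smul_right, hu1] at h2
    rw [pr_neg_right] at h3
    linarith
  refine ⟨u, g u, hu1, hpos, ?_, ?_⟩
  · intro z hz
    have h1 := hgle u z hz
    have h2 := hgle u _ (hs z hz)
    rw [pr_neg_right] at h2
    exact abs_le.2 ⟨by linarith, h1⟩
  · intro z hz
    by_contra hzK
    obtain ⟨v, hv, hv1⟩ := bipolar_ph h hzK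
    have hvv : 0 < pr v v := by
      rcases (pr_self_nonneg v).eq_or_lt with h0 | h0
      · have := pr_cs v z
        rw [← h0, zero_mul] at this
        nlinarith
      · exact h0
    set s := Real.sqrt (pr v v) with hs'
    have hs0 : 0 < s := Real.sqrt_pos.2 hvv
    have hss : s ^ 2 = pr v v := Real.sq_sqrt hvv.le
    have h1 : pr ((1 / s) • v) ((1 / s) • v) = 1 := by
      rw [pr_smul_left, pr_smul_right, ← hss]
      field_simp
    have h2 : g u ≤ g ((1 / s) • v) := hmin h1
    have h3 : g ((1 / s) • v) ≤ 1 / s := by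
      refine csSup_le (hne.image _) ?_
      rintro _ ⟨y, hy, rfl⟩
      rw [pr_smul_left]
      have := hv y hy
      calc 1 / s * pr v y ≤ 1 / s * 1 := mul_le_mul_of_nonneg_left this (by positivity)
        _ = 1 / s := mul_one _
    have h4 : g u * s ≤ 1 := by
      have := h2.trans h3
      rwa [le_div_iff₀ hs0] at this
    have h5 := pr_cs v z
    rw [← hss] at h5
    have h6 : s ^ 2 * pr z z ≤ s ^ 2 * g u ^ 2 := mul_le_mul_of_nonneg_left hz (sq_nonneg s)
    have h7 : s ^ 2 * g u ^ 2 ≤ 1 := by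
      have h8 : 0 ≤ g u * s := (mul_pos hpos hs0).le
      nlinarith
    nlinarith

/-- The volume of a set which contains a ball. -/
theorem vol_ge (hn : 0 < n) {K : Set (Ph n)} {a : Ph n} {ρ : ℝ} (hρ : 0 < ρ) (hk : IsCompact K)
    (hb : ∀ z : Ph n, pr z z ≤ ρ ^ 2 → z ∈ tr K a) :
    (π * ρ ^ 2) ^ n / n.factorial ≤ (volume K).toReal := by
  set S : Matrix (Fin (n + n)) (Fin (n + n)) ℝ := Matrix.diagonal fun _ => ρ with hS
  have hdet : S.det = ρ ^ (n + n) := by
    rw [hS, Matrix.det_diagonal, Finset.prod_const, Finset.card_univ, Fintype.card_fin]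
  have h1 : (volume ((fun y => a + (ev n).symm (S *ᵥ y)) ''
      {x : Fin (n + n) → ℝ | x ⬝ᵥ x ≤ 1})).toReal = S.det * (Real.pi ^ n / n.factorial) :=
    Pool.Agent.Y507.Vit.vol_ell hn (S := S) (by rw [hdet]; positivity) a
  have h2 : (fun y => a + (ev n).symm (S *ᵥ y)) '' {x : Fin (n + n) → ℝ | x ⬝ᵥ x ≤ 1} ⊆ K := by
    rintro _ ⟨y, hy, rfl⟩
    have hy' : y ⬝ᵥ y ≤ 1 := hy
    have e1 : S *ᵥ y = ρ • y := by
      funext i
      rw [hS, Matrix.mulVec_diagonal]
      rfl
    have e2 : pr ((ev n).symm (S *ᵥ y)) ((ev n).symm (S *ᵥ y)) ≤ ρ ^ 2 := by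
      rw [← dot_ev, (ev n).apply_symm_apply, e1, smul_dotProduct, dotProduct_smul]
      simp only [smul_eq_mul]
      nlinarith [sq_nonneg ρ]
    obtain ⟨x, hx, hxa⟩ := hb _ e2
    have hxa' : x - a = (ev n).symm (S *ᵥ y) := hxa
    have : a + (ev n).symm (S *ᵥ y) = x := by rw [← hxa']; abel
    show a + (ev n).symm (S *ᵥ y) ∈ K
    rw [this]
    exact hx
  have h3 := measure_mono (μ := (volume : Measure (Ph n))) h2
  have h4 : volume K ≠ ⊤ := hk.measure_ne_top
  have h5 := ENNReal.toReal_mono h4 h3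
  rw [h1, hdet] at h5
  refine le_trans (le_of_eq ?_) h5
  rw [mul_pow, ← pow_mul, two_mul]
  ring

/-- Bodies invariant under the multiplication by `exp (π i / M)`, `M ≥ 2`. -/
theorem inCyl_rot (hn : 0 < n) {K : Set (Ph n)} {a : Ph n} (h : CB (tr K a)) (hk : IsCompact K)
    {M : ℕ} (hM : 2 ≤ M) (hrot : ∀ z ∈ tr K a, rot (π / M) z ∈ tr K a) {r : ℝ} (hr : 0 < r)
    (hv : (2 * M / π * Real.tan (π / (2 * M))) ^ n * (n.factorial * (volume K).toReal) <
      (π * r ^ 2) ^ n) : InCyl K r := by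
  obtain ⟨u, ρ, hu1, hρ, hw, hb⟩ := exists_width hn h
  have hvol := vol_ge hn (a := a) hρ hk hb
  have hM0 : (0 : ℝ) < M := by
    have : 0 < M := by omega
    exact_mod_cast this
  have hM2 : (2 : ℝ) ≤ M := by exact_mod_cast hM
  have htan : 0 < Real.tan (π / (2 * M)) := by
    refine Real.tan_pos_of_pos_of_lt_pi_div_two (by positivity) ?_
    apply div_lt_div_of_pos_left Real.pi_pos (by norm_num)
    linarith
  have hpi := Real.pi_pos
  have hfac : (0 : ℝ) < n.factorial := by exact_mod_cast n.factorial_pos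
  have h1 : (2 * M * Real.tan (π / (2 * M)) * ρ ^ 2) ^ n < (π * r ^ 2) ^ n := by
    refine lt_of_le_of_lt ?_ hv
    have e : (2 * M * Real.tan (π / (2 * M)) * ρ ^ 2) ^ n =
        (2 * M / π * Real.tan (π / (2 * M))) ^ n * (n.factorial * ((π * ρ ^ 2) ^ n / n.factorial)) := by
      rw [mul_div_cancel₀ _ hfac.ne', ← mul_pow]
      congr 1
      field_simp
    rw [e]
    have h0 : (0 : ℝ) ≤ (2 * M / π * Real.tan (π / (2 * M))) ^ n := by positivity
    exact mul_le_mul_of_nonneg_left (mul_le_mul_of_nonneg_left hvol hfac.le) h0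
  have h2 : 2 * M * Real.tan (π / (2 * M)) * ρ ^ 2 < π * r ^ 2 :=
    lt_of_pow_lt_pow_left₀ n (by positivity) h1
  have hint := integral_prof M hM hρ
  have huw : om u (J u) = 1 := by
    rw [← pr_J, pr_J_J, hu1]
  have hall : ∀ k : ℕ, k ≤ M → ∀ z ∈ tr K a,
      |Real.cos (π * k / M) * pr u z + Real.sin (π * k / M) * pr (J u) z| ≤ ρ := by
    intro k hk' z hz
    rw [← pr_rot_left, pr_rot_adj]
    have e : rot (-(π * k / M)) z = -rot (((M - k : ℕ) : ℝ) * (π / M)) z := by
      rw [← rot_pi, rot_rot]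
      have : -(π * k / M) = -(2 * π) + (π + ((M - k : ℕ) : ℝ) * (π / M)) := by
        rw [Nat.cast_sub hk']
        field_simp
        ring
      rw [this]
      unfold rot
      rw [show -(2 * π) + (π + ((M - k : ℕ) : ℝ) * (π / M)) =
        (π + ((M - k : ℕ) : ℝ) * (π / M)) - 2 * π by ring, Real.cos_sub_two_pi,
        Real.sin_sub_two_pi]
    rw [e, pr_neg_right, abs_neg]
    exact hw _ (rot_mem hrot _ hz)
  refine inCyl_profile ⟨0, hn⟩ (a := a) (u := u) (w := J u) hr hρ (prof_cont M hM ρ)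
    (prof_nonneg M ρ) ?_ huw ?_ ?_
  · refine lt_of_le_of_lt hint ?_
    linarith
  · intro z hz
    exact hw _ ⟨z, hz, rfl⟩
  · intro z hz
    have hz' : z - a ∈ tr K a := ⟨z, hz, rfl⟩
    refine le_prof hM fun j hj => ?_
    have hs := sin_pos' j hj
    have e1 : π * ((j + 1 : ℕ) : ℝ) / M = π * (j + 1) / M := by push_cast; rfl
    have e2 : π * ((M - (j + 1) : ℕ) : ℝ) / M = π - π * (j + 1) / M := by
      rw [Nat.cast_sub (by omega)]
      push_cast
      field_simp
    have h3 := hall (j + 1) (by omega) _ hz'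
    have h4 := hall (M - (j + 1)) (by omega) _ hz'
    rw [e1] at h3
    rw [e2, Real.cos_pi_sub, Real.sin_pi_sub] at h4
    have h5 := abs_le.1 h3
    have h6 := abs_le.1 h4
    rcases abs_cases (pr (J u) (z - a)) with ⟨h7, -⟩ | ⟨h7, -⟩
    · rw [h7]
      nlinarith [h6.2]
    · rw [h7]
      nlinarith [h5.1]

end Pool.Agent.X315.Vit
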